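import Pool.Agent.Lib.MP_fb02f1_lc.H30.GWord
import Pool.Agent.Lib.MP_14a7d6_lc.PLists

/-!
# The graph of a list of clauses is computed in polynomial time
-/

namespace Pool.Agent.Shoped30

open Pool.Agent.TMLib

section lib

variable {α β γ : Type} [TrEnc α] [TrEnc β] [TrEnc γ]

theorem isEmpty_units (n : ℕ) : (List.replicate n ()).isEmpty = decide (n = 0) := by
  cases n <;> simp [List.replicate_succ]

theorem pt_eq {f g : α → ℕ} (hf : PTime f) (hg : PTime g) :
    PTime (fun a => decide (f a = g a)) := by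
  refine PTime.of_eq (f := fun a => (List.replicate (f a - g a) ()).isEmpty &&
    (List.replicate (g a - f a) ()).isEmpty) (by fun_prop) (fun a => ?_)
  rw [isEmpty_units, isEmpty_units, Bool.eq_iff_iff]
  simp only [Bool.and_eq_true, decide_eq_true_iff]
  omega

theorem pt_lt {f g : α → ℕ} (hf : PTime f) (hg : PTime g) :
    PTime (fun a => decide (f a < g a)) := by
  refine PTime.of_eq (f := fun a => !(List.replicate (g a - f a) ()).isEmpty)
    (by fun_prop) (fun a => ?_)
  rw [isEmpty_units, Bool.eq_iff_iff]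
  simp only [Bool.not_eq_true', decide_eq_true_iff, decide_eq_false_iff_not]
  omega

theorem iter_range (n : ℕ) : (fun l : List ℕ => l ++ [l.length])^[n] [] = List.range n := by
  induction n with
  | zero => rfl
  | succ n ih => rw [Function.iterate_succ_apply', ih, List.range_succ, List.length_range]

@[fun_prop] theorem pt_range {n : α → ℕ} (hn : PTime n) : PTime (fun a => List.range (n a)) := by
  refine (PTime.iterate (F := fun _ (l : List ℕ) => l ++ [l.length]) (g := fun _ => []) hn
    (PTime.const _) (by fun_prop) (fun a => n a * (2 * n a + 1 + 1) + 1)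
    (((PB.nat hn).mul ((((PB.const 2).mul (PB.nat hn)).add (PB.const 1)).add (PB.const 1))).add
      (PB.const 1)) ?_).of_eq (fun a => (iter_range _).symm)
  intro a i hi
  rw [iter_range]
  refine (sz_le_of_forall _ (2 * n a + 1) ?_).trans ?_
  · intro b hb
    rw [List.mem_range] at hb
    rw [sz_nat]
    omega
  · rw [List.length_range]
    gcongr

end lib

/-! ### Clauses -/

theorem bnd_eq (ψ : List Cl3) : bnd ψ =
    (ψ.flatMap fun C => List.replicate (C.1.1 + C.2.1.1 + C.2.2.1) ()).length + 1 := by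
  induction ψ with
  | nil => rfl
  | cons C ψ ih =>
    have e : bnd (C :: ψ) = (C.1.1 + C.2.1.1 + C.2.2.1) + bnd ψ := rfl
    rw [e, ih, List.flatMap_cons, List.length_append, List.length_replicate]
    ring

theorem pt_bnd : PTime bnd := by
  refine PTime.of_eq (f := fun ψ : List Cl3 =>
    (ψ.flatMap fun C => List.replicate (C.1.1 + C.2.1.1 + C.2.2.1) ()).length + 1) ?_ bnd_eq
  refine PTime.succ (PTime.length (PTime.flatMap
    (F := fun _ (C : Cl3) => List.replicate (C.1.1 + C.2.1.1 + C.2.2.1) ()) PTime.id ?_))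
  fun_prop

theorem pt_allN {α : Type} [TrEnc α] {N M : α → ℕ} (hN : PTime N) (hM : PTime M) :
    PTime (fun a => allN (N a) (M a)) := by
  refine PTime.append ?_ ?_
  · refine PTime.flatMap (F := fun a i => (List.range (6 * M a)).flatMap fun j =>
      (List.range 12).map fun k => (i, j, k)) (by fun_prop) ?_
    have h0 : PTime (fun p : α × ℕ => List.range (6 * M p.1)) := by fun_prop
    refine PTime.flatMap (l := fun p : α × ℕ => List.range (6 * M p.1))
      (F := fun p j => (List.range 12).map fun k => (p.2, j, k)) h0 ?_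
    exact PTime.map (l := fun _ : (α × ℕ) × ℕ => List.range 12)
      (F := fun p k => (p.1.2, p.2, k)) (PTime.const _) (by fun_prop)
  · exact PTime.map (l := fun a => List.range (M a)) (F := fun _ a => (a, 0, 12))
      (by fun_prop) (by fun_prop)

theorem pt_gB {α : Type} [TrEnc α] {f g : α → ℕ} (hf : PTime f) (hg : PTime g) :
    PTime (fun a => gB (f a) (g a)) := by
  refine PTime.any (l := fun _ => gListN) (F := fun a (e : ℕ × ℕ) =>
    (decide (e.1 = f a) && decide (e.2 = g a)) ||
    (decide (e.1 = g a) && decide (e.2 = f a))) (PTime.const _) ?_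
  have h1 : PTime (fun p : α × ℕ × ℕ => f p.1) := by fun_prop
  have h2 : PTime (fun p : α × ℕ × ℕ => g p.1) := by fun_prop
  have h3 : PTime (fun p : α × ℕ × ℕ => p.2.1) := by fun_prop
  have h4 : PTime (fun p : α × ℕ × ℕ => p.2.2) := by fun_prop
  exact PTime.or (PTime.and (pt_eq h3 h1) (pt_eq h4 h2))
    (PTime.and (pt_eq h3 h2) (pt_eq h4 h1))

theorem pt_lB {α : Type} [TrEnc α] {l : α → Lit} {a p i j : α → ℕ} (hl : PTime l) (ha : PTime a)
    (hp : PTime p) (hi : PTime i) (hj : PTime j) :
    PTime (fun x => lB (l x) (a x) (p x) (i x) (j x)) := by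
  refine PTime.and (pt_eq (by fun_prop) hi) (pt_eq hj ?_)
  have h1 : PTime (fun x => if (l x).2 = true then 0 else 1) :=
    PTime.ite (by fun_prop) (PTime.const _) (PTime.const _)
  fun_prop

theorem pt_cB {α : Type} [TrEnc α] {C : α → Cl3} {a i j : α → ℕ} (hC : PTime C) (ha : PTime a)
    (hi : PTime i) (hj : PTime j) : PTime (fun x => cB (C x) (a x) (i x) (j x)) :=
  PTime.or (pt_lB (by fun_prop) ha (PTime.const _) hi hj)
    (PTime.or (pt_lB (by fun_prop) ha (PTime.const _) hi hj)
      (pt_lB (by fun_prop) ha (PTime.const _) hi hj))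

theorem pt_halfB {α : Type} [TrEnc α] {ψ : α → List Cl3} {x y : α → Nm} (hψ : PTime ψ)
    (hx : PTime x) (hy : PTime y) : PTime (fun a => halfB (ψ a) (x a) (y a)) := by
  have x1 : PTime (fun a => (x a).1) := by fun_prop
  have x2 : PTime (fun a => (x a).2.1) := by fun_prop
  have x3 : PTime (fun a => (x a).2.2) := by fun_prop
  have y1 : PTime (fun a => (y a).1) := by fun_prop
  have y2 : PTime (fun a => (y a).2.1) := by fun_prop
  have y3 : PTime (fun a => (y a).2.2) := by fun_prop
  refine PTime.ite (c := fun a => decide ((x a).2.2 < 12)) (pt_lt x3 (PTime.const _)) ?_ ?_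
  · refine PTime.and (pt_lt y3 (PTime.const _)) (PTime.and (pt_eq x1 y1) (PTime.or
      (PTime.and (pt_eq x2 y2) (pt_gB x3 y3)) (PTime.and (pt_eq y2 (by fun_prop))
        (PTime.and (pt_eq x3 (PTime.const _)) (pt_eq y3 (PTime.const _))))))
  · exact PTime.and (pt_eq y3 (PTime.const _)) (pt_cB (by fun_prop) x1 y1 y2)

theorem pt_adjB {α : Type} [TrEnc α] {ψ : α → List Cl3} {x y : α → Nm} (hψ : PTime ψ)
    (hx : PTime x) (hy : PTime y) : PTime (fun a => adjB (ψ a) (x a) (y a)) :=
  PTime.or (pt_halfB hψ hx hy) (pt_halfB hψ hy hx)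

theorem pt_wordOf : PTime wordOf := by
  have hA : PTime (fun ψ : List Cl3 => allN (bnd ψ) ψ.length) :=
    pt_allN pt_bnd (by fun_prop)
  refine PTime.append (by fun_prop) (PTime.cons (PTime.const _) (PTime.flatten ?_))
  refine PTime.map (F := fun (ψ : List Cl3) x => (allN (bnd ψ) ψ.length).map (adjB ψ x)) hA ?_
  refine PTime.map (l := fun p : List Cl3 × Nm => allN (bnd p.1) p.1.length)
    (F := fun p y => adjB p.1 p.2 y)
    (hA.comp' (f := fun p : List Cl3 × Nm => p.1) (by fun_prop)) ?_
  exact pt_adjB (by fun_prop) (by fun_prop) (by fun_prop)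

theorem pt_toNae : PTime toNae := by
  refine PTime.flatMap (l := fun φ : List Cl4 => (List.range φ.length).zip φ)
    (F := fun _ p => conv p.1 p.2) (by fun_prop) ?_
  unfold conv
  fun_prop

end Pool.Agent.Shoped30
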