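import Pool.Agent.Lib.MP_fb02f1_lc.H30.CL

/-!
# The Cook–Levin theorem, and the NP-hardness of the recognition problem
-/

namespace Pool.Agent.Shoped30

open Turing Turing.TM2 Computability Pool.Agent.TMLib

section pt

variable {α : Type} [TrEnc α]

theorem pt_pair {f g : α → ℕ} (hf : PTime f) (hg : PTime g) :
    PTime (fun a => Nat.pair (f a) (g a)) := by
  refine PTime.of_eq (f := fun a => if decide (f a < g a) = true then g a * g a + f a
    else f a * f a + f a + g a) (PTime.ite (pt_lt hf hg) (by fun_prop) (by fun_prop))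
    (fun a => ?_)
  unfold Nat.pair
  by_cases h : f a < g a <;> simp [h]

theorem pt_pow {f : α → ℕ} (hf : PTime f) (n : ℕ) : PTime (fun a => f a ^ n) := by
  induction n with
  | zero => exact (PTime.const 1).of_eq (fun a => by simp)
  | succ n ih => exact (PTime.mul ih hf).of_eq (fun a => pow_succ _ _)

theorem pt_poly (P : Polynomial ℕ) {f : α → ℕ} (hf : PTime f) :
    PTime (fun a => P.eval (f a)) := by
  induction P using Polynomial.induction_on' with
  | add P Q hP hQ => exact (PTime.add hP hQ).of_eq (fun a => by rw [Polynomial.eval_add])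
  | monomial n c =>
    exact (PTime.mul (PTime.const c) (pt_pow hf n)).of_eq
      (fun a => by rw [Polynomial.eval_monomial])

theorem pt_vS {t q : α → ℕ} (ht : PTime t) (hq : PTime q) : PTime (fun a => vS (t a) (q a)) :=
  pt_pair (PTime.const _) (pt_pair ht hq)

theorem pt_vC {t k j c : α → ℕ} (ht : PTime t) (hk : PTime k) (hj : PTime j) (hc : PTime c) :
    PTime (fun a => vC (t a) (k a) (j a) (c a)) :=
  pt_pair (PTime.const _) (pt_pair ht (pt_pair hk (pt_pair hj hc)))

theorem pt_imp3 {a b c d : α → ℕ} (ha : PTime a) (hb : PTime b) (hc : PTime c) (hd : PTime d) :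
    PTime (fun x => imp3 (a x) (b x) (c x) (d x)) := by
  unfold imp3
  fun_prop

theorem pt_or3 {a b c : α → ℕ} (ha : PTime a) (hb : PTime b) (hc : PTime c) :
    PTime (fun x => or3 (a x) (b x) (c x)) := by
  unfold or3
  fun_prop

theorem pt_neg1 {a : α → ℕ} (ha : PTime a) : PTime (fun x => neg1 (a x)) := by
  unfold neg1
  fun_prop

theorem pt_srcN {o j : α → ℕ} (ho : PTime o) (hj : PTime j) :
    PTime (fun x => srcN (o x) (j x)) := by
  refine PTime.of_eq (f := fun x => if decide (o x = 1) = true then j x + 1 else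
    if decide (o x = 2) = true then j x - 1 else j x)
    (PTime.ite (pt_eq ho (PTime.const _)) (by fun_prop)
      (PTime.ite (pt_eq ho (PTime.const _)) (by fun_prop) (by fun_prop))) (fun x => ?_)
  unfold srcN
  simp only [decide_eq_true_iff]

theorem pt_trCl {t j : α → ℕ} {e : α → Ent} (ht : PTime t) (hj : PTime j) (he : PTime e) :
    PTime (fun x => trCl (t x) (j x) (e x)) := by
  have e1 : PTime (fun x => (e x).1) := by fun_prop
  have e2 : PTime (fun x => (e x).2.1) := by fun_prop
  have e3 : PTime (fun x => (e x).2.2.1) := by fun_prop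
  have e4 : PTime (fun x => (e x).2.2.2.1) := by fun_prop
  have e5 : PTime (fun x => (e x).2.2.2.2.1) := by fun_prop
  have e6 : PTime (fun x => (e x).2.2.2.2.2.1) := by fun_prop
  have e7 : PTime (fun x => (e x).2.2.2.2.2.2.1) := by fun_prop
  have e8 : PTime (fun x => (e x).2.2.2.2.2.2.2) := by fun_prop
  have h0 : PTime (fun x => if j x = 0 then (e x).2.2.2.2.2.2.2 else (e x).2.2.2.2.1) :=
    PTime.ite_prop (c := fun x => j x = 0) (pt_eq hj (PTime.const _)) e8 e5
  exact PTime.cons (pt_imp3 (pt_vS ht e1) (pt_vC ht e2 (PTime.const _) e3)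
    (pt_vC ht e4 (pt_srcN e7 hj) e5) (pt_vC (by fun_prop) e4 hj h0))
    (PTime.cons (pt_imp3 (pt_vS ht e1) (pt_vC ht e2 (PTime.const _) e3)
      (pt_vC ht e2 (PTime.const _) e3) (pt_vS (by fun_prop) e6)) (PTime.const _))

theorem pt_trAll (tab : List Ent) {T H : α → ℕ} (hT : PTime T) (hH : PTime H) :
    PTime (fun x => trAll tab (T x) (H x)) := by
  refine PTime.flatMap (l := fun x => List.range (T x)) (F := fun x t =>
    (List.range (H x)).flatMap fun j => tab.flatMap fun e => trCl t j e) (by fun_prop) ?_
  refine PTime.flatMap (l := fun x : α × ℕ => List.range (H x.1)) (F := fun x j =>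
    tab.flatMap fun e => trCl x.2 j e) (by fun_prop) ?_
  refine PTime.flatMap (l := fun _ : (α × ℕ) × ℕ => tab) (F := fun x e =>
    trCl x.1.2 x.2 e) (PTime.const _) ?_
  exact pt_trCl (by fun_prop) (by fun_prop) (by fun_prop)

theorem pt_initAll (q0 kin bl a0 a1 : ℕ) (ks : List ℕ) {u : α → List Bool} {p H : α → ℕ}
    (hu : PTime u) (hp : PTime p) (hH : PTime H) :
    PTime (fun x => initAll q0 kin bl a0 a1 ks (u x) (p x) (H x)) := by
  refine PTime.append (PTime.const _) (PTime.append ?_ (PTime.append ?_ (PTime.append ?_ ?_)))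
  · refine PTime.flatMap (l := fun x => List.range (H x)) (F := fun _ j => ks.map fun k =>
      or3 (vC 0 k j bl) (vC 0 k j bl) (vC 0 k j bl)) (by fun_prop) ?_
    refine PTime.map (l := fun _ : α × ℕ => ks) (F := fun x k =>
      or3 (vC 0 k x.2 bl) (vC 0 k x.2 bl) (vC 0 k x.2 bl)) (PTime.const _) ?_
    have h : PTime (fun x : (α × ℕ) × ℕ => vC 0 x.2 x.1.2 bl) :=
      pt_vC (PTime.const _) (by fun_prop) (by fun_prop) (PTime.const _)
    exact pt_or3 h h h
  · refine PTime.map (l := fun x => (List.range (u x).length).zip (u x)) (F := fun _ y =>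
      or3 (vC 0 kin y.1 (if y.2 = true then a1 else a0))
        (vC 0 kin y.1 (if y.2 = true then a1 else a0))
        (vC 0 kin y.1 (if y.2 = true then a1 else a0))) (by fun_prop) ?_
    have h : PTime (fun x : α × ℕ × Bool => vC 0 kin x.2.1 (if x.2.2 = true then a1 else a0)) :=
      pt_vC (PTime.const _) (PTime.const _) (by fun_prop)
        (PTime.ite (by fun_prop) (PTime.const _) (PTime.const _))
    exact pt_or3 h h h
  · refine PTime.flatMap (l := fun x => List.range (p x)) (F := fun x i =>
      [or3 (vC 0 kin ((u x).length + i) a0) (vC 0 kin ((u x).length + i) a1)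
        (vC 0 kin ((u x).length + i) bl),
      imp3 (vC 0 kin ((u x).length + i) bl) (vC 0 kin ((u x).length + i) bl)
        (vC 0 kin ((u x).length + i) bl) (vC 0 kin ((u x).length + i + 1) bl)])
      (by fun_prop) ?_
    have h : ∀ a, PTime (fun x : α × ℕ => vC 0 kin ((u x.1).length + x.2) a) := fun a =>
      pt_vC (PTime.const _) (PTime.const _) (by fun_prop) (PTime.const _)
    have h' : PTime (fun x : α × ℕ => vC 0 kin ((u x.1).length + x.2 + 1) bl) :=
      pt_vC (PTime.const _) (PTime.const _) (by fun_prop) (PTime.const _)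
    exact PTime.cons (pt_or3 (h _) (h _) (h _)) (PTime.cons (pt_imp3 (h _) (h _) (h _) h')
      (PTime.const _))
  · refine PTime.map (l := fun x => List.range (H x)) (F := fun x i =>
      or3 (vC 0 kin ((u x).length + p x + i) bl)
        (vC 0 kin ((u x).length + p x + i) bl) (vC 0 kin ((u x).length + p x + i) bl))
      (by fun_prop) ?_
    have h : PTime (fun x : α × ℕ => vC 0 kin ((u x.1).length + p x.1 + x.2) bl) :=
      pt_vC (PTime.const _) (PTime.const _) (by fun_prop) (PTime.const _)
    exact pt_or3 h h h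

theorem pt_cnf {Q K A : Type} [DecidableEq K] (B : Tb Q K A) {u : α → List Bool} {p T : α → ℕ}
    (hu : PTime u) (hp : PTime p) (hT : PTime T) :
    PTime (fun x => B.cnf (u x) (p x) (T x)) :=
  PTime.append (pt_initAll _ _ _ _ _ _ hu hp (by fun_prop))
    (PTime.append (pt_trAll _ hT (by fun_prop))
      (PTime.cons (pt_neg1 (pt_vC hT (PTime.const _) (PTime.const _) (PTime.const _)))
        (PTime.const _)))

end pt

/-! ### The Cook–Levin theorem -/

/-- The known part of the input of the verifier. -/
def preW (w : List Bool) : List Bool := (w.flatMap fun b => [true, b]) ++ [false]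

theorem pairWord_eq (w c : List Bool) : pairWord w c = preW w ++ c := by
  simp [pairWord, preW]

theorem pt_preW : PTime preW :=
  PTime.append (PTime.flatMap (F := fun _ b => [true, b]) PTime.id (by fun_prop))
    (PTime.const _)

/-- Every language in NP reduces in polynomial time to the satisfiability of lists of clauses with
four literals. -/
theorem cook_levin {L : Set (List Bool)} (hL : InNP L) :
    ∃ g : List Bool → List Cl4, PTime g ∧ ∀ w, w ∈ L ↔ Sat4 (g w) := by
  classical
  obtain ⟨R, p, ⟨M, hfin⟩, hL⟩ := hL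
  obtain ⟨B, h1, h2, h3, h4, h5, h6⟩ := exists_tb M hfin
  have : Fintype M.tm.Λ := M.tm.ΛFin
  obtain ⟨D, hD⟩ : ∃ D, ∀ l, ssize (M.tm.m l) ≤ D :=
    ⟨Finset.univ.sup fun l => ssize (M.tm.m l),
      fun l => Finset.le_sup (f := fun l => ssize (M.tm.m l)) (Finset.mem_univ l)⟩
  refine ⟨fun w => B.cnf (preW w) (p.eval w.length)
    (D * M.time.eval ((preW w).length + p.eval w.length)), ?_, fun w => ?_⟩
  · have hp : PTime (fun w : List Bool => p.eval w.length) := pt_poly p (by fun_prop)
    have hl : PTime (fun w : List Bool => (preW w).length) := PTime.length pt_preW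
    exact pt_cnf B pt_preW hp (PTime.mul (PTime.const _) (pt_poly _ (PTime.add hl hp)))
  · rw [B.sat_iff, hL]
    refine exists_congr fun c => and_congr_right fun hc => ?_
    rw [pairWord_eq]
    refine (run_verifier M h1 h2 h3 h4 h5 h6 hD (preW w ++ c) ?_).symm
    refine Nat.mul_le_mul le_rfl (polyEval_mono _ ?_)
    rw [List.length_append]
    omega

/-! ### The main theorem -/

theorem machine_finite {f : List Bool → List Bool} (h : PTime f) :
    PolyTime (id : List Bool → List Bool) (id : List Bool → List Bool) f := by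
  have hsz := h.pb_sz
  obtain ⟨T, hT, hf⟩ := h
  obtain ⟨p, hp⟩ := hf.machine
  have hB : PB (fun w : List Bool => T w + 12 * w.length + 12 * (f w).length + 7) := by
    refine ((hT.add ((PB.const 12).mul (PB.sz.mono fun a => (length_lt_sz a).le))).add
      ((PB.const 12).mul (hsz.mono fun a => (length_lt_sz (f a)).le))).add (PB.const 7)
  obtain ⟨P, hP⟩ := hB
  have hlen : ∀ w : List Bool, sz w ≤ (4 * Polynomial.X + 1 : Polynomial ℕ).eval w.length := by
    intro w
    have := sz_bools_le w
    simpa using this
  refine ⟨{ tm := toTM p, inputAlphabet := Equiv.refl _, outputAlphabet := Equiv.refl _,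
            time := P.comp (4 * Polynomial.X + 1), outputsFun := fun w => ?_ },
    fun _ => (inferInstance : Finite Bool)⟩
  have h1 := hp w
  have h2 : ∀ u v : List Bool, u = w → v = f w → TM2OutputsInTime (toTM p) u (some v)
      ((P.comp (4 * Polynomial.X + 1)).eval w.length) := by
    rintro u v rfl rfl
    refine ⟨h1.some.toEvalsTo, h1.some.steps_le_m.trans ?_⟩
    refine (hP _).trans ?_
    rw [Polynomial.eval_comp]
    exact polyEval_mono _ (hlen _)
  exact h2 _ _ (List.map_id _) (List.map_id _)

/-- Every language in NP reduces in polynomial time to the recognition of the graphs with a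
1-bend SHOPED, and all the graphs constructed by the reduction have maximum degree at most `4`. -/
theorem shoped_hard {L : Set (List Bool)} (hL : InNP L) :
    ∃ f : List Bool → List Bool,
      PolyTime (id : List Bool → List Bool) (id : List Bool → List Bool) f ∧
      ∀ w, ∃ (n : ℕ) (G : SimpleGraph (Fin n)), f w = graphWord G ∧
        (∀ v, (G.neighborSet v).ncard ≤ 4) ∧
        (w ∈ L → HasShoped G) ∧ (w ∉ L → ¬ HasWeakShoped G) := by
  obtain ⟨g, hg, hw⟩ := cook_levin hL
  refine ⟨fun w => wordOf (toNae (g w)), machine_finite (pt_wordOf.comp (pt_toNae.comp hg)),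
    fun w => ⟨_, gOf (toNae (g w)), (graphWord_gOf _).symm, gOf_degree _, ?_, ?_⟩⟩
  · rw [hw, ← sat_toNae]
    exact (gOf_hasShoped _).1
  · rw [hw, ← sat_toNae]
    exact mt (gOf_hasShoped _).2

/-- The recognition problem is NP-hard. -/
theorem shoped_nphard : NPHard ShopedLang := by
  intro L hL
  obtain ⟨f, hf, h⟩ := shoped_hard hL
  refine ⟨f, hf, fun w => ?_⟩
  obtain ⟨n, G, h1, h2, h3, h4⟩ := h w
  rw [h1, graphWord_mem]
  constructor
  · exact fun hw => ⟨h2, h3 hw⟩
  · intro h5
    by_contra hw
    exact h4 hw h5.2.weak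

end Pool.Agent.Shoped30
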