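import Mathlib

/-!
# Polynomial time, NP and NP-hardness
-/

namespace Pool.Agent.Shoped30

open Turing Computability

/-- The function `f` is computable in polynomial time (with respect to the encodings `ea`, `eb`):
there is a multi-stack Turing machine with finite alphabets on all its stacks that computes `f`
within a number of steps which is polynomial in the length of the input. (`FinTM2` and
`TM2ComputableInPolyTime` are Mathlib's; Mathlib only asks the input alphabet to be finite, so the
finiteness of the other alphabets is added here.) -/
def PolyTime {α β αΓ βΓ : Type} (ea : α → List αΓ) (eb : β → List βΓ) (f : α → β) : Prop :=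
  ∃ M : TM2ComputableInPolyTime ea eb f, ∀ k, Finite (M.tm.Γ k)

/-- The word of a pair of words. -/
def pairWord (w c : List Bool) : List Bool := (w.flatMap fun b => [true, b]) ++ false :: c

/-- The language `L` is in NP: there are a predicate `R` decidable in polynomial time and a
polynomial `p` such that `w ∈ L` if and only if there is a certificate `c` of length at most
`p(|w|)` such that `R` accepts the pair `(w, c)`. -/
def InNP (L : Set (List Bool)) : Prop :=
  ∃ (R : List Bool → Bool) (p : Polynomial ℕ),
    PolyTime (id : List Bool → List Bool) encodeBool R ∧
    ∀ w, w ∈ L ↔ ∃ c : List Bool, c.length ≤ p.eval w.length ∧ R (pairWord w c) = true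

/-- The language `L'` is NP-hard under polynomial-time many-one reductions. -/
def NPHard (L' : Set (List Bool)) : Prop :=
  ∀ L, InNP L → ∃ f : List Bool → List Bool,
    PolyTime (id : List Bool → List Bool) (id : List Bool → List Bool) f ∧
      ∀ w, w ∈ L ↔ f w ∈ L'

/-- The pair of words is determined by its word. -/
theorem pairWord_inj : ∀ {w c w' c' : List Bool}, pairWord w c = pairWord w' c' →
    w = w' ∧ c = c'
  | [], c, [], c', h => by simpa [pairWord] using h
  | [], c, b :: w', c', h => by simp [pairWord] at h
  | b :: w, c, [], c', h => by simp [pairWord] at h
  | b :: w, c, b' :: w', c', h => by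
    have h1 : true :: b :: pairWord w c = true :: b' :: pairWord w' c' := h
    injection h1 with _ h1
    injection h1 with h2 h3
    obtain ⟨h4, h5⟩ := pairWord_inj h3
    exact ⟨by rw [h2, h4], h5⟩

end Pool.Agent.Shoped30
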