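import Pool.Agent.Lib.MP_fb02f1_lc.H30.Sim
import Pool.Agent.Lib.MP_fb02f1_lc.H30.PWord
import Pool.Agent.Lib.MP_fb02f1_lc.H30.NPDefs

/-!
# The Cook–Levin theorem
-/

namespace Pool.Agent.Shoped30

open Turing Turing.TM2 Computability Pool.Agent.TMLib

/-! ### The table of a verifier -/

section table

variable {R : List Bool → Bool}
  (M : TM2ComputableInPolyTime (id : List Bool → List Bool) encodeBool R)

/-- The stack machine of a verifier. -/
noncomputable def vSM : SM {x // Occ M.tm.m x} M.tm.K ((k : M.tm.K) × M.tm.Γ k) :=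
  (mSM M.tm.m M.tm.k₀).restr (Occ M.tm.m) (occ_next M.tm.m)

theorem exists_code (X : Type) [Finite X] : ∃ f : X → ℕ, Function.Injective f :=
  ⟨fun x => ((Finite.equivFin X) x).val,
    fun _ _ h => (Finite.equivFin X).injective (Fin.ext h)⟩

theorem exists_list (X : Type) [Finite X] : ∃ l : List X, ∀ x, x ∈ l := by
  classical
  obtain ⟨_⟩ := nonempty_fintype X
  exact ⟨Finset.univ.toList, fun x => by simp⟩

theorem exists_tb (hfin : ∀ k, Finite (M.tm.Γ k)) :
    ∃ B : Tb {x // Occ M.tm.m x} M.tm.K ((k : M.tm.K) × M.tm.Γ k),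
      B.toSM = vSM M ∧
      B.q0 = ⟨(M.tm.m M.tm.main, M.tm.initialState), Or.inr ⟨M.tm.main, stmts₁_self⟩⟩ ∧
      B.kin = M.tm.k₀ ∧ B.kout = M.tm.k₁ ∧
      (B.letter = fun b => ⟨M.tm.k₀, M.inputAlphabet.invFun b⟩) ∧
      B.bad = ⟨M.tm.k₁, M.outputAlphabet.invFun false⟩ := by
  classical
  have : Fintype M.tm.K := M.tm.kFin
  have : Fintype M.tm.Λ := M.tm.ΛFin
  have : Fintype M.tm.σ := M.tm.σFin
  have : Finite {x // Occ M.tm.m x} := occ_finite M.tm.m
  obtain ⟨cQ, hQ⟩ := exists_code {x // Occ M.tm.m x}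
  obtain ⟨cK, hK⟩ := exists_code M.tm.K
  obtain ⟨cA, hA⟩ := exists_code (Option ((k : M.tm.K) × M.tm.Γ k))
  obtain ⟨allQ, hallQ⟩ := exists_list ({x // Occ M.tm.m x} × Option ((k : M.tm.K) × M.tm.Γ k) ×
    M.tm.K × Option ((k : M.tm.K) × M.tm.Γ k))
  obtain ⟨allK, hallK⟩ := exists_list M.tm.K
  exact ⟨{
    toSM := vSM M
    cQ := cQ, cK := cK, cA := cA, hQ := hQ, hK := hK, hA := hA
    q0 := ⟨(M.tm.m M.tm.main, M.tm.initialState), Or.inr ⟨M.tm.main, stmts₁_self⟩⟩
    kin := M.tm.k₀, kout := M.tm.k₁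
    letter := fun b => ⟨M.tm.k₀, M.inputAlphabet.invFun b⟩
    bad := ⟨M.tm.k₁, M.outputAlphabet.invFun false⟩
    allQ := allQ, mem_allQ := hallQ
    allK := allK.filter (fun k => decide (k ≠ M.tm.k₀))
    mem_allK := fun k => by simp [List.mem_filter, hallK] }, rfl, rfl, rfl, rfl, rfl, rfl⟩

theorem run_verifier {B : Tb {x // Occ M.tm.m x} M.tm.K ((k : M.tm.K) × M.tm.Γ k)}
    (h1 : B.toSM = vSM M)
    (h2 : B.q0 = ⟨(M.tm.m M.tm.main, M.tm.initialState), Or.inr ⟨M.tm.main, stmts₁_self⟩⟩)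
    (h3 : B.kin = M.tm.k₀) (h4 : B.kout = M.tm.k₁)
    (h5 : B.letter = fun b => ⟨M.tm.k₀, M.inputAlphabet.invFun b⟩)
    (h6 : B.bad = ⟨M.tm.k₁, M.outputAlphabet.invFun false⟩) {D : ℕ}
    (hD : ∀ l, ssize (M.tm.m l) ≤ D) (x : List Bool) {T : ℕ}
    (hT : D * M.time.eval x.length ≤ T) :
    (B.run x T).2 B.kout 0 ≠ some B.bad ↔ R x = true := by
  classical
  have hout := M.outputsFun x
  have hinit : B.f0 x = ab (initList M.tm (x.map M.inputAlphabet.invFun)).stk := by
    funext k j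
    unfold Tb.f0 ab
    rw [h3, h5]
    by_cases hk : k = M.tm.k₀
    · subst hk
      rw [if_pos rfl]
      have : (initList M.tm (x.map M.inputAlphabet.invFun)).stk M.tm.k₀ =
          x.map M.inputAlphabet.invFun := by
        simp [initList]
      rw [this, List.getElem?_map, Option.map_map]
      rfl
    · rw [if_neg hk]
      have : (initList M.tm (x.map M.inputAlphabet.invFun)).stk k = [] := by
        simp [initList, hk]
      rw [this]
      rfl
  obtain ⟨N, hN, hrun⟩ := run_steps M.tm.m M.tm.k₀ D hD hout.steps _ _ hout.evals_in_steps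
  have hN' : N ≤ T := by
    refine hN.trans (le_trans ?_ hT)
    exact Nat.mul_le_mul le_rfl hout.steps_le_m
  have hfix : ∀ n, (mSM M.tm.m M.tm.k₀).step^[n] (mc M.tm.m (haltList M.tm
      ((encodeBool (R x)).map M.outputAlphabet.invFun))) = mc M.tm.m (haltList M.tm
      ((encodeBool (R x)).map M.outputAlphabet.invFun)) := fun n =>
    Function.iterate_fixed (halt_fixed M.tm.m M.tm.k₀ rfl) n
  have hT2 : (mSM M.tm.m M.tm.k₀).step^[T] (mc M.tm.m (initList M.tm
      (x.map M.inputAlphabet.invFun))) = mc M.tm.m (haltList M.tm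
      ((encodeBool (R x)).map M.outputAlphabet.invFun)) := by
    obtain ⟨d, rfl⟩ := Nat.exists_eq_add_of_le hN'
    rw [Nat.add_comm, Function.iterate_add_apply]
    have : (mSM M.tm.m M.tm.k₀).step^[N] (mc M.tm.m (initList M.tm
      (x.map M.inputAlphabet.invFun))) = mc M.tm.m (haltList M.tm
      ((encodeBool (R x)).map M.outputAlphabet.invFun)) := hrun
    rw [this, hfix]
  have hB : (B.run x T).2 = ab (haltList M.tm
      ((encodeBool (R x)).map M.outputAlphabet.invFun)).stk := by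
    unfold Tb.run
    rw [h1, h2, hinit]
    have h7 := SM.restr_iter (mSM M.tm.m M.tm.k₀) (Occ M.tm.m) (occ_next M.tm.m) T
      (⟨(M.tm.m M.tm.main, M.tm.initialState), Or.inr ⟨M.tm.main, stmts₁_self⟩⟩,
        ab (initList M.tm (x.map M.inputAlphabet.invFun)).stk)
    have h8 : (mSM M.tm.m M.tm.k₀).step^[T] ((M.tm.m M.tm.main, M.tm.initialState),
        ab (initList M.tm (x.map M.inputAlphabet.invFun)).stk) = mc M.tm.m (haltList M.tm
      ((encodeBool (R x)).map M.outputAlphabet.invFun)) := hT2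
    rw [h8] at h7
    exact congrArg Prod.snd h7
  rw [hB, h4, h6]
  have hend : ab (haltList M.tm ((encodeBool (R x)).map M.outputAlphabet.invFun)).stk M.tm.k₁ 0 =
      some ⟨M.tm.k₁, M.outputAlphabet.invFun (R x)⟩ := by
    unfold ab
    have : (haltList M.tm ((encodeBool (R x)).map M.outputAlphabet.invFun)).stk M.tm.k₁ =
        (encodeBool (R x)).map M.outputAlphabet.invFun := by
      simp [haltList]
    rw [this]
    rfl
  rw [hend]
  constructor
  · intro h
    cases hR : R x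
    · rw [hR] at h
      exact absurd rfl h
    · rfl
  · intro h h'
    rw [h] at h'
    injection h' with h'
    simp at h'

end table

end Pool.Agent.Shoped30
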