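import Pool.Agent.Lib.MP_fb02f1_lc.H30.Draw3

/-!
# From clauses with four literals to not-all-equal clauses with three literals
-/

namespace Pool.Agent.Shoped30

/-- A literal: a variable and its sign (`true` for the variable itself). -/
abbrev Lit := ℕ × Bool

/-- A clause with four literals. -/
abbrev Cl4 := Lit × Lit × Lit × Lit

/-- A not-all-equal clause with three literals. -/
abbrev Cl3 := Lit × Lit × Lit

/-- The value of a literal. -/
def lval (α : ℕ → Bool) (l : Lit) : Bool := α l.1 == l.2

/-- Satisfaction of a clause. -/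
def Cl4.sat (α : ℕ → Bool) (C : Cl4) : Prop :=
  lval α C.1 = true ∨ lval α C.2.1 = true ∨ lval α C.2.2.1 = true ∨ lval α C.2.2.2 = true

/-- Not-all-equal satisfaction. -/
def Cl3.nae (α : ℕ → Bool) (C : Cl3) : Prop :=
  ¬ (lval α C.1 = lval α C.2.1 ∧ lval α C.2.1 = lval α C.2.2)

/-- Satisfiability of a list of clauses. -/
def Sat4 (φ : List Cl4) : Prop := ∃ α : ℕ → Bool, ∀ C ∈ φ, Cl4.sat α C

/-- Not-all-equal satisfiability of a list of clauses. -/
def SatN (ψ : List Cl3) : Prop := ∃ α : ℕ → Bool, ∀ C ∈ ψ, Cl3.nae α C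

/-- The three not-all-equal clauses of clause number `c`. -/
def conv (c : ℕ) (C : Cl4) : List Cl3 :=
  [((3 * C.1.1, C.1.2), (3 * C.2.1.1, C.2.1.2), (3 * c + 4, true)),
    ((3 * c + 4, false), (3 * C.2.2.1.1, C.2.2.1.2), (3 * c + 2, true)),
    ((3 * c + 2, false), (3 * C.2.2.2.1, C.2.2.2.2), (1, true))]

/-- The conversion. -/
def toNae (φ : List Cl4) : List Cl3 :=
  ((List.range φ.length).zip φ).flatMap (fun p => conv p.1 p.2)

theorem lval_not (α : ℕ → Bool) (l : Lit) : lval (fun n => !(α n)) l = !(lval α l) := by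
  unfold lval
  dsimp only
  cases α l.1 <;> cases l.2 <;> rfl

theorem nae_not (α : ℕ → Bool) (C : Cl3) : Cl3.nae (fun n => !(α n)) C ↔ Cl3.nae α C := by
  unfold Cl3.nae
  rw [lval_not, lval_not, lval_not]
  cases lval α C.1 <;> cases lval α C.2.1 <;> cases lval α C.2.2 <;> simp

theorem mem_zip_range {φ : List Cl4} {C : Cl4} (h : C ∈ φ) :
    ∃ c, (c, C) ∈ (List.range φ.length).zip φ := by
  obtain ⟨c, hc, rfl⟩ := List.mem_iff_getElem.1 h
  refine ⟨c, ?_⟩
  rw [List.mem_iff_getElem]
  exact ⟨c, by simpa using hc, by simp⟩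

theorem zip_range_unique {φ : List Cl4} {c : ℕ} {C C' : Cl4}
    (h : (c, C) ∈ (List.range φ.length).zip φ) (h' : (c, C') ∈ (List.range φ.length).zip φ) :
    C = C' := by
  rw [List.mem_iff_getElem] at h h'
  obtain ⟨i, hi, hE⟩ := h
  obtain ⟨j, hj, hE'⟩ := h'
  simp only [List.getElem_zip, List.getElem_range, Prod.mk.injEq] at hE hE'
  obtain ⟨h1, h2⟩ := hE
  obtain ⟨h3, h4⟩ := hE'
  subst h1
  subst h3
  rw [← h2, ← h4]

theorem sat_toNae (φ : List Cl4) : SatN (toNae φ) ↔ Sat4 φ := by
  constructor
  · rintro ⟨τ, hτ⟩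
    -- we may assume that the reference variable is false
    have key : ∀ τ : ℕ → Bool, (∀ C ∈ toNae φ, Cl3.nae τ C) → τ 1 = false → Sat4 φ := by
      intro τ hτ h1
      refine ⟨fun v => τ (3 * v), fun C hC => ?_⟩
      obtain ⟨c, hc⟩ := mem_zip_range hC
      have hmem : ∀ D ∈ conv c C, Cl3.nae τ D := fun D hD =>
        hτ D (List.mem_flatMap.2 ⟨(c, C), hc, hD⟩)
      have a1 := hmem _ (List.mem_cons_self)
      have a2 := hmem _ (List.mem_cons_of_mem _ (List.mem_cons_self))
      have a3 := hmem _ (List.mem_cons_of_mem _ (List.mem_cons_of_mem _ (List.mem_cons_self)))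
      unfold Cl3.nae lval at a1 a2 a3
      unfold Cl4.sat lval
      dsimp only at a1 a2 a3 ⊢
      rw [h1] at a3
      generalize (τ (3 * C.1.1) == C.1.2) = x1 at *
      generalize (τ (3 * C.2.1.1) == C.2.1.2) = x2 at *
      generalize (τ (3 * C.2.2.1.1) == C.2.2.1.2) = x3 at *
      generalize (τ (3 * C.2.2.2.1) == C.2.2.2.2) = x4 at *
      generalize τ (3 * c + 4) = w1 at *
      generalize τ (3 * c + 2) = w2 at *
      revert a1 a2 a3
      cases x1 <;> cases x2 <;> cases x3 <;> cases x4 <;> cases w1 <;> cases w2 <;> decide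
    by_cases h1 : τ 1 = false
    · exact key τ hτ h1
    · refine key (fun n => !(τ n)) (fun C hC => (nae_not τ C).2 (hτ C hC)) ?_
      simpa using h1
  · rintro ⟨α, hα⟩
    classical
    -- the values of the auxiliary variables
    let cl : ℕ → Option Cl4 := fun c => φ[c]?
    have hcl : ∀ c C, (c, C) ∈ (List.range φ.length).zip φ → φ[c]? = some C := by
      intro c C h
      rw [List.mem_iff_getElem] at h
      obtain ⟨i, hi, hE⟩ := h
      simp only [List.getElem_zip, List.getElem_range, Prod.mk.injEq] at hE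
      obtain ⟨h1, h2⟩ := hE
      subst h1
      rw [← h2]
      exact List.getElem?_eq_getElem _
    let τ : ℕ → Bool := fun n =>
      if n % 3 = 0 then α (n / 3)
      else if n % 3 = 1 then (match φ[n / 3 - 1]? with
        | some C => if n = 1 then false else !(lval α C.1 || lval α C.2.1)
        | none => false)
      else (match φ[n / 3]? with
        | some C => !(lval α C.1 || lval α C.2.1 || lval α C.2.2.1)
        | none => false)
    have t0 : ∀ v, τ (3 * v) = α v := by
      intro v
      have h1 : 3 * v % 3 = 0 := by omega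
      have h2 : 3 * v / 3 = v := by omega
      simp only [τ, h1, if_true, h2]
    have t1 : τ 1 = false := by
      simp only [τ]
      norm_num
      split <;> rfl
    have tw1 : ∀ c C, φ[c]? = some C → τ (3 * c + 4) = !(lval α C.1 || lval α C.2.1) := by
      intro c C h
      have h1 : (3 * c + 4) % 3 = 1 := by omega
      have h2 : (3 * c + 4) / 3 - 1 = c := by omega
      have h3 : ¬ (3 * c + 4 = 1) := by omega
      simp only [τ, h1, h2, h, h3, if_false]
      simp
    have tw2 : ∀ c C, φ[c]? = some C →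
        τ (3 * c + 2) = !(lval α C.1 || lval α C.2.1 || lval α C.2.2.1) := by
      intro c C h
      have h1 : (3 * c + 2) % 3 = 2 := by omega
      have h2 : (3 * c + 2) / 3 = c := by omega
      simp only [τ, h1, h2, h]
      simp
    refine ⟨τ, fun D hD => ?_⟩
    obtain ⟨⟨c, C⟩, hc, hD'⟩ := List.mem_flatMap.1 hD
    have hφ := hcl c C hc
    have hC := hα C (List.of_mem_zip hc).2
    have e1 := tw1 c C hφ
    have e2 := tw2 c C hφ
    simp only [conv, List.mem_cons, List.not_mem_nil, or_false] at hD'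
    unfold Cl4.sat at hC
    unfold lval at e1 e2 hC
    generalize hx1 : (α C.1.1 == C.1.2) = x1 at *
    generalize hx2 : (α C.2.1.1 == C.2.1.2) = x2 at *
    generalize hx3 : (α C.2.2.1.1 == C.2.2.1.2) = x3 at *
    generalize hx4 : (α C.2.2.2.1 == C.2.2.2.2) = x4 at *
    rcases hD' with rfl | rfl | rfl
    · unfold Cl3.nae lval
      dsimp only
      rw [t0, t0, e1, hx1, hx2]
      revert hC
      cases x1 <;> cases x2 <;> cases x3 <;> cases x4 <;> decide
    · unfold Cl3.nae lval
      dsimp only
      rw [t0, e1, e2, hx3]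
      revert hC
      cases x1 <;> cases x2 <;> cases x3 <;> cases x4 <;> decide
    · unfold Cl3.nae lval
      dsimp only
      rw [t0, e2, t1, hx4]
      revert hC
      cases x1 <;> cases x2 <;> cases x3 <;> cases x4 <;> decide

end Pool.Agent.Shoped30
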