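import Mathlib

/-!
# 1-bend orthogonal drawings and 1-bend SHOPEDs: definitions

The definitions of the problem file, for a simple graph with vertex type `V`.
-/

namespace Pool.Agent.Shoped30

/-- The four directions in which an edge can leave a vertex. -/
inductive Dir
  | left
  | right
  | up
  | down
  deriving DecidableEq

/-- The point `b` lies strictly to the left of (right of, above, below) the point `p`, on the
horizontal (vertical) line through `p`. -/
def InDir (d : Dir) (p b : ℝ × ℝ) : Prop :=
  match d with
  | .left => b.1 < p.1 ∧ b.2 = p.2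
  | .right => p.1 < b.1 ∧ b.2 = p.2
  | .up => b.1 = p.1 ∧ p.2 < b.2
  | .down => b.1 = p.1 ∧ b.2 < p.2

variable {V : Type}

/-- The polyline drawn for the edge `uv`: the segment from `u` to the bend followed by the segment
from the bend to `v`. -/
def edgeCurve (pos : V → ℝ × ℝ) (bend : V → V → ℝ × ℝ) (u v : V) : Set (ℝ × ℝ) :=
  segment ℝ (pos u) (bend u v) ∪ segment ℝ (bend u v) (pos v)

/-- The relative interior of the horizontal one of the two segments of the edge `uv`. -/
def hInterior (pos : V → ℝ × ℝ) (bend : V → V → ℝ × ℝ) (u v : V) : Set (ℝ × ℝ) :=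
  {p | (pos u).2 = (bend u v).2 ∧ p ∈ openSegment ℝ (pos u) (bend u v) ∨
    (bend u v).2 = (pos v).2 ∧ p ∈ openSegment ℝ (bend u v) (pos v)}

/-- The relative interior of the vertical one of the two segments of the edge `uv`. -/
def vInterior (pos : V → ℝ × ℝ) (bend : V → V → ℝ × ℝ) (u v : V) : Set (ℝ × ℝ) :=
  {p | (pos u).1 = (bend u v).1 ∧ p ∈ openSegment ℝ (pos u) (bend u v) ∨
    (bend u v).1 = (pos v).1 ∧ p ∈ openSegment ℝ (bend u v) (pos v)}

/-- `pos` (the points of the vertices) and `bend` (the bends of the edges) form a 1-bend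
orthogonal drawing of `G`. -/
structure IsDrawing (G : SimpleGraph V) (pos : V → ℝ × ℝ) (bend : V → V → ℝ × ℝ) : Prop where
  /-- the vertices are at distinct points -/
  pos_injective : Function.Injective pos
  /-- the bend belongs to the (unordered) edge -/
  bend_symm : ∀ u v, G.Adj u v → bend u v = bend v u
  /-- one of the two segments is horizontal and the other one is vertical -/
  horiz_vert : ∀ u v, G.Adj u v →
    (bend u v).2 = (pos u).2 ∧ (bend u v).1 = (pos v).1 ∨
    (bend u v).1 = (pos u).1 ∧ (bend u v).2 = (pos v).2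
  /-- the edge has exactly one bend: both segments are nondegenerate -/
  bend_ne : ∀ u v, G.Adj u v → bend u v ≠ pos u ∧ bend u v ≠ pos v
  /-- no edge passes through a vertex other than its endpoints -/
  avoid : ∀ u v w, G.Adj u v → w ≠ u → w ≠ v → pos w ∉ edgeCurve pos bend u v
  /-- distinct edges at a common vertex leave it in distinct directions -/
  directions : ∀ u v w, G.Adj u v → G.Adj u w → v ≠ w → ∀ d, InDir d (pos u) (bend u v) →
    ¬ InDir d (pos u) (bend u w)
  /-- two edges meet only in isolated crossing points (where the relative interior of a horizontal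
  segment of one of them crosses the relative interior of a vertical segment of the other one) or
  at a shared endpoint -/
  meet : ∀ u v w z, G.Adj u v → G.Adj w z → s(u, v) ≠ s(w, z) →
    ∀ p, p ∈ edgeCurve pos bend u v → p ∈ edgeCurve pos bend w z →
      (∃ t, t ∈ s(u, v) ∧ t ∈ s(w, z) ∧ p = pos t) ∨
      (p ∈ hInterior pos bend u v ∧ p ∈ vInterior pos bend w z) ∨
      (p ∈ vInterior pos bend u v ∧ p ∈ hInterior pos bend w z)

/-- The stub of the edge `uv` at `u`: the half containing `u` of the segment from `u` to the
bend. -/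
def stub (pos : V → ℝ × ℝ) (bend : V → V → ℝ × ℝ) (u v : V) : Set (ℝ × ℝ) :=
  segment ℝ (pos u) (midpoint ℝ (pos u) (bend u v))

/-- A 1-bend SHOPED: a 1-bend orthogonal drawing in which no two stubs intersect, except at a
common endpoint vertex. (The ordered pair `(u, v)` stands for the stub at `u` of the edge `uv`.) -/
structure IsShoped (G : SimpleGraph V) (pos : V → ℝ × ℝ) (bend : V → V → ℝ × ℝ) : Prop
    extends IsDrawing G pos bend where
  stubs : ∀ u v w z, G.Adj u v → G.Adj w z → (u, v) ≠ (w, z) →
    ∀ p, p ∈ stub pos bend u v → p ∈ stub pos bend w z → u = w ∧ p = pos u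

/-- `G` admits a 1-bend SHOPED. -/
def HasShoped (G : SimpleGraph V) : Prop := ∃ pos bend, IsShoped G pos bend

/-- A weaker notion, which drops some of the conditions on a 1-bend SHOPED: vertices may be at the
same point, edges may pass through vertices, and two edges may meet in any way. Only the shape of
the edges, the condition on the directions at a common vertex and the condition on the stubs are
kept. -/
structure IsWeakShoped (G : SimpleGraph V) (pos : V → ℝ × ℝ) (bend : V → V → ℝ × ℝ) : Prop where
  bend_symm : ∀ u v, G.Adj u v → bend u v = bend v u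
  horiz_vert : ∀ u v, G.Adj u v →
    (bend u v).2 = (pos u).2 ∧ (bend u v).1 = (pos v).1 ∨
    (bend u v).1 = (pos u).1 ∧ (bend u v).2 = (pos v).2
  bend_ne : ∀ u v, G.Adj u v → bend u v ≠ pos u ∧ bend u v ≠ pos v
  directions : ∀ u v w, G.Adj u v → G.Adj u w → v ≠ w → ∀ d, InDir d (pos u) (bend u v) →
    ¬ InDir d (pos u) (bend u w)
  stubs : ∀ u v w z, G.Adj u v → G.Adj w z → (u, v) ≠ (w, z) →
    ∀ p, p ∈ stub pos bend u v → p ∈ stub pos bend w z → u = w ∧ p = pos u

/-- `G` admits a drawing in the weaker sense. -/
def HasWeakShoped (G : SimpleGraph V) : Prop := ∃ pos bend, IsWeakShoped G pos bend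

theorem IsShoped.weak {G : SimpleGraph V} {pos : V → ℝ × ℝ} {bend : V → V → ℝ × ℝ}
    (h : IsShoped G pos bend) : IsWeakShoped G pos bend :=
  ⟨h.bend_symm, h.horiz_vert, h.bend_ne, h.directions, h.stubs⟩

theorem HasShoped.weak {G : SimpleGraph V} (h : HasShoped G) : HasWeakShoped G := by
  obtain ⟨pos, bend, h⟩ := h
  exact ⟨pos, bend, h.weak⟩

end Pool.Agent.Shoped30
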