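import Pool.Agent.Lib.MP_fb02f1_lc.H30.Geom

/-!
# A coordinate system in general position gives a 1-bend SHOPED
-/

namespace Pool.Agent.Shoped30

open Set

variable {V : Type} {G : SimpleGraph V}

/-- The points of the vertices. -/
def Sys.pos (S : Sys V G.Adj) (u : V) : ℝ × ℝ := (S.x u, S.y u)

open Classical in
/-- The bends. -/
noncomputable def Sys.bend (S : Sys V G.Adj) (u v : V) : ℝ × ℝ :=
  if S.H u v then (S.x v, S.y u) else (S.x u, S.y v)

theorem Sys.bend_H (S : Sys V G.Adj) {u v : V} (h : S.H u v) :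
    S.bend u v = (S.x v, S.y u) := if_pos h

theorem Sys.bend_V (S : Sys V G.Adj) {u v : V} (h : ¬ S.H u v) :
    S.bend u v = (S.x u, S.y v) := if_neg h

theorem Sys.bend_symm' (S : Sys V G.Adj) {u v : V} (h : G.Adj u v) :
    S.bend u v = S.bend v u := by
  have h1 := S.excl u v h
  by_cases h2 : S.H u v
  · rw [S.bend_H h2, S.bend_V (h1.1 h2)]
  · have h3 : S.H v u := by
      by_contra h4
      exact h2 (h1.2 h4)
    rw [S.bend_V h2, S.bend_H h3]

/-- The horizontal part of the curve of an edge `uv` that leaves `u` horizontally. -/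
def Sys.hp (S : Sys V G.Adj) (u v : V) (p : ℝ × ℝ) : Prop :=
  p.2 = S.y u ∧ p.1 ∈ uIcc (S.x u) (S.x v)

/-- The vertical part of the curve of an edge `uv` that leaves `u` horizontally. -/
def Sys.vp (S : Sys V G.Adj) (u v : V) (p : ℝ × ℝ) : Prop :=
  p.1 = S.x v ∧ p.2 ∈ uIcc (S.y u) (S.y v)

theorem Sys.mem_curve_H (S : Sys V G.Adj) {u v : V} (h : S.H u v) (p : ℝ × ℝ) :
    p ∈ edgeCurve S.pos S.bend u v ↔ S.hp u v p ∨ S.vp u v p := by
  unfold edgeCurve Sys.hp Sys.vp
  rw [S.bend_H h, mem_union]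
  unfold Sys.pos
  rw [mem_seg_h, mem_seg_v]

theorem curve_comm (S : Sys V G.Adj) {u v : V} (h : G.Adj u v) :
    edgeCurve S.pos S.bend u v = edgeCurve S.pos S.bend v u := by
  unfold edgeCurve
  rw [S.bend_symm' h, segment_symm, segment_symm ℝ (S.bend v u) (S.pos v), union_comm]

theorem hInterior_comm (S : Sys V G.Adj) {u v : V} (h : G.Adj u v) :
    hInterior S.pos S.bend u v = hInterior S.pos S.bend v u := by
  unfold hInterior
  ext p
  rw [S.bend_symm' h, openSegment_symm, openSegment_symm ℝ (S.bend v u) (S.pos v)]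
  simp only [mem_setOf_eq]
  constructor <;> rintro (⟨h1, h2⟩ | ⟨h1, h2⟩)
  · exact Or.inr ⟨h1.symm, h2⟩
  · exact Or.inl ⟨h1.symm, h2⟩
  · exact Or.inr ⟨h1.symm, h2⟩
  · exact Or.inl ⟨h1.symm, h2⟩

theorem vInterior_comm (S : Sys V G.Adj) {u v : V} (h : G.Adj u v) :
    vInterior S.pos S.bend u v = vInterior S.pos S.bend v u := by
  unfold vInterior
  ext p
  rw [S.bend_symm' h, openSegment_symm, openSegment_symm ℝ (S.bend v u) (S.pos v)]
  simp only [mem_setOf_eq]
  constructor <;> rintro (⟨h1, h2⟩ | ⟨h1, h2⟩)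
  · exact Or.inr ⟨h1.symm, h2⟩
  · exact Or.inl ⟨h1.symm, h2⟩
  · exact Or.inr ⟨h1.symm, h2⟩
  · exact Or.inl ⟨h1.symm, h2⟩

theorem mem_Ioo_of_uIcc {a b t : ℝ} (h : t ∈ uIcc a b) (ha : t ≠ a) (hb : t ≠ b) :
    t ∈ Ioo (min a b) (max a b) := by
  rw [mem_uIcc] at h
  rw [mem_Ioo, min_lt_iff, lt_max_iff]
  rcases h with ⟨h1, h2⟩ | ⟨h1, h2⟩
  · exact ⟨Or.inl (lt_of_le_of_ne h1 (Ne.symm ha)), Or.inr (lt_of_le_of_ne h2 hb)⟩
  · exact ⟨Or.inr (lt_of_le_of_ne h1 (Ne.symm hb)), Or.inl (lt_of_le_of_ne h2 ha)⟩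

theorem Sys.mem_hInterior (S : Sys V G.Adj) {u v : V} (ha : G.Adj u v) (h : S.H u v)
    {p : ℝ × ℝ} (h1 : S.hp u v p) (h2 : p.1 ≠ S.x u) (h3 : p.1 ≠ S.x v) :
    p ∈ hInterior S.pos S.bend u v := by
  refine Or.inl ⟨by rw [S.bend_H h]; rfl, ?_⟩
  rw [S.bend_H h]
  unfold Sys.pos
  rw [mem_oseg_h (S.xne u v ha)]
  exact ⟨h1.1, mem_Ioo_of_uIcc h1.2 h2 h3⟩

theorem Sys.mem_vInterior (S : Sys V G.Adj) {u v : V} (ha : G.Adj u v) (h : S.H u v)
    {p : ℝ × ℝ} (h1 : S.vp u v p) (h2 : p.2 ≠ S.y u) (h3 : p.2 ≠ S.y v) :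
    p ∈ vInterior S.pos S.bend u v := by
  refine Or.inr ⟨by rw [S.bend_H h]; rfl, ?_⟩
  rw [S.bend_H h]
  unfold Sys.pos
  rw [mem_oseg_v (S.yne u v ha)]
  exact ⟨h1.1, mem_Ioo_of_uIcc h1.2 h2 h3⟩

theorem opp_eq {a b c t : ℝ} (h : b < a ↔ a < c) (hb : b ≠ a) (h1 : t ∈ uIcc a b)
    (h2 : t ∈ uIcc a c) : t = a := by
  rw [mem_uIcc] at h1 h2
  rcases lt_or_gt_of_ne hb with h3 | h3
  · have h4 := h.1 h3
    rcases h1 with h1 | h1 <;> rcases h2 with h2 | h2 <;> linarith [h1.1, h1.2, h2.1, h2.2]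
  · have h4 : ¬ a < c := fun h5 => absurd (h.2 h5) (not_lt.2 h3.le)
    rw [not_lt] at h4
    rcases h1 with h1 | h1 <;> rcases h2 with h2 | h2 <;> linarith [h1.1, h1.2, h2.1, h2.2]

theorem opp_half {a b c t : ℝ} (h : b < a ↔ a < c) (hb : b ≠ a) (h1 : t ∈ uIcc a ((a + b) / 2))
    (h2 : t ∈ uIcc a ((a + c) / 2)) : t = a := by
  rw [mem_uIcc] at h1 h2
  rcases lt_or_gt_of_ne hb with h3 | h3
  · have h4 := h.1 h3
    rcases h1 with h1 | h1 <;> rcases h2 with h2 | h2 <;> linarith [h1.1, h1.2, h2.1, h2.2]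
  · have h4 : ¬ a < c := fun h5 => absurd (h.2 h5) (not_lt.2 h3.le)
    rw [not_lt] at h4
    rcases h1 with h1 | h1 <;> rcases h2 with h2 | h2 <;> linarith [h1.1, h1.2, h2.1, h2.2]

/-- The main case of the condition on two edges. -/
theorem Sys.meet_aux (S : Sys V G.Adj) (hx : Function.Injective S.x)
    (hy : Function.Injective S.y) {u v w z : V} (huv : G.Adj u v) (hwz : G.Adj w z)
    (h1 : S.H u v) (h2 : S.H w z) (hne : s(u, v) ≠ s(w, z)) {p : ℝ × ℝ}
    (hp : p ∈ edgeCurve S.pos S.bend u v) (hq : p ∈ edgeCurve S.pos S.bend w z) :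
    (∃ t, t ∈ s(u, v) ∧ t ∈ s(w, z) ∧ p = S.pos t) ∨
      (p ∈ hInterior S.pos S.bend u v ∧ p ∈ vInterior S.pos S.bend w z) ∨
      (p ∈ vInterior S.pos S.bend u v ∧ p ∈ hInterior S.pos S.bend w z) := by
  rw [S.mem_curve_H h1] at hp
  rw [S.mem_curve_H h2] at hq
  -- horizontal against vertical
  have key : ∀ {u v w z : V}, G.Adj u v → G.Adj w z → S.H u v → S.H w z →
      s(u, v) ≠ s(w, z) → S.hp u v p → S.vp w z p →
      (z = u ∧ p = S.pos u) ∨
      (p ∈ hInterior S.pos S.bend u v ∧ p ∈ vInterior S.pos S.bend w z) := by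
    intro u v w z huv hwz h1 h2 hne hp hq
    by_cases hzu : z = u
    · subst hzu
      exact Or.inl ⟨rfl, Prod.ext hq.1 hp.1⟩
    · right
      have e1 : p.2 = S.y u := hp.1
      have e2 : p.1 = S.x z := hq.1
      have k1 : S.x z ∈ uIcc (S.x u) (S.x v) := by rw [← e2]; exact hp.2
      have k2 : S.y u ∈ uIcc (S.y w) (S.y z) := by rw [← e1]; exact hq.2
      have hzv : z ≠ v := by
        intro hzv
        subst hzv
        have huw : u ≠ w := fun h => hne (by rw [h])
        have h3 := S.vport z u w huv.symm hwz.symm huw h1 h2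
        have h4 : S.y u ∈ uIcc (S.y z) (S.y u) := right_mem_uIcc
        have h5 : S.y u ∈ uIcc (S.y z) (S.y w) := by rw [uIcc_comm]; exact k2
        exact S.yne u z huv (opp_eq h3 (S.yne u z huv) h4 h5)
      have huw : u ≠ w := by
        intro huw
        subst huw
        have h3 := S.hport u z v hwz huv hzv h2 h1
        have h4 : S.x z ∈ uIcc (S.x u) (S.x z) := right_mem_uIcc
        exact S.xne u z hwz (opp_eq h3 (S.xne u z hwz).symm h4 k1).symm
      refine ⟨S.mem_hInterior huv h1 hp ?_ ?_, S.mem_vInterior hwz h2 hq ?_ ?_⟩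
      · rw [e2]; exact fun h => hzu (hx h)
      · rw [e2]; exact fun h => hzv (hx h)
      · rw [e1]; exact fun h => huw (hy h)
      · rw [e1]; exact fun h => hzu (hy h).symm
  rcases hp with hp | hp <;> rcases hq with hq | hq
  · left
    have huw : u = w := hy (hp.1.symm.trans hq.1)
    subst huw
    have hvz : v ≠ z := fun h => hne (by rw [h])
    refine ⟨u, Sym2.mem_mk_left _ _, Sym2.mem_mk_left _ _, Prod.ext ?_ hp.1⟩
    exact opp_eq (S.hport u v z huv hwz hvz h1 h2) (S.xne u v huv).symm hp.2 hq.2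
  · rcases key huv hwz h1 h2 hne hp hq with ⟨h3, h4⟩ | h3
    · left
      exact ⟨u, Sym2.mem_mk_left _ _, by rw [h3]; exact Sym2.mem_mk_right _ _, h4⟩
    · exact Or.inr (Or.inl h3)
  · rcases key hwz huv h2 h1 hne.symm hq hp with ⟨h3, h4⟩ | h3
    · left
      exact ⟨w, by rw [h3]; exact Sym2.mem_mk_right _ _, Sym2.mem_mk_left _ _, h4⟩
    · exact Or.inr (Or.inr ⟨h3.2, h3.1⟩)
  · left
    have hvz : v = z := hx (hp.1.symm.trans hq.1)
    subst hvz
    have huw : u ≠ w := fun h => hne (by rw [h])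
    refine ⟨v, Sym2.mem_mk_right _ _, Sym2.mem_mk_right _ _, Prod.ext hp.1 ?_⟩
    have h3 := S.vport v u w huv.symm hwz.symm huw h1 h2
    have h4 := hp.2
    have h5 := hq.2
    rw [uIcc_comm] at h4 h5
    exact opp_eq h3 (S.yne u v huv) h4 h5

theorem Sys.H_or (S : Sys V G.Adj) {u v : V} (h : G.Adj u v) : S.H u v ∨ S.H v u := by
  have h1 := S.excl u v h
  tauto

theorem Sys.stub_H (S : Sys V G.Adj) {u v : V} (h : S.H u v) (p : ℝ × ℝ) :
    p ∈ stub S.pos S.bend u v ↔ p.2 = S.y u ∧ p.1 ∈ uIcc (S.x u) ((S.x u + S.x v) / 2) := by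
  have e : midpoint ℝ (S.pos u) (S.bend u v) = ((S.x u + S.x v) / 2, S.y u) := by
    rw [S.bend_H h, midpoint_eq_smul_add]
    unfold Sys.pos
    ext <;> simp <;> ring
  unfold stub
  rw [e]
  unfold Sys.pos
  rw [mem_seg_h]

theorem Sys.stub_V (S : Sys V G.Adj) {u v : V} (h : ¬ S.H u v) (p : ℝ × ℝ) :
    p ∈ stub S.pos S.bend u v ↔ p.1 = S.x u ∧ p.2 ∈ uIcc (S.y u) ((S.y u + S.y v) / 2) := by
  have e : midpoint ℝ (S.pos u) (S.bend u v) = (S.x u, (S.y u + S.y v) / 2) := by
    rw [S.bend_V h, midpoint_eq_smul_add]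
    unfold Sys.pos
    ext <;> simp <;> ring
  unfold stub
  rw [e]
  unfold Sys.pos
  rw [mem_seg_v]

/-- A coordinate system in general position gives a 1-bend SHOPED. -/
theorem Sys.isShoped (S : Sys V G.Adj) (hx : Function.Injective S.x)
    (hy : Function.Injective S.y) : IsShoped G S.pos S.bend where
  pos_injective u v h := hx (congrArg Prod.fst h)
  bend_symm u v h := S.bend_symm' h
  horiz_vert u v h := by
    by_cases h1 : S.H u v
    · left; rw [S.bend_H h1]; exact ⟨rfl, rfl⟩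
    · right; rw [S.bend_V h1]; exact ⟨rfl, rfl⟩
  bend_ne u v h := by
    have h2 := S.xne u v h
    have h3 := S.yne u v h
    by_cases h1 : S.H u v
    · rw [S.bend_H h1]
      exact ⟨fun h4 => h2 (congrArg Prod.fst h4).symm, fun h4 => h3 (congrArg Prod.snd h4)⟩
    · rw [S.bend_V h1]
      exact ⟨fun h4 => h3 (congrArg Prod.snd h4).symm, fun h4 => h2 (congrArg Prod.fst h4)⟩
  avoid u v w h hu hv hw := by
    have key : ∀ {u v : V}, G.Adj u v → w ≠ u → w ≠ v → S.H u v →
        S.pos w ∈ edgeCurve S.pos S.bend u v → False := by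
      intro u v h hu hv h1 hw
      rw [S.mem_curve_H h1] at hw
      rcases hw with hw | hw
      · exact hu (hy hw.1)
      · exact hv (hx hw.1)
    rcases S.H_or h with h1 | h1
    · exact key h hu hv h1 hw
    · exact key h.symm hv hu h1 (by rw [← curve_comm S h]; exact hw)
  directions u v w huv huw hvw d h1 h2 := by
    have x1 := S.xne u v huv
    have y1 := S.yne u v huv
    have x2 := S.xne u w huw
    have y2 := S.yne u w huw
    by_cases hv : S.H u v
    · rw [S.bend_H hv] at h1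
      by_cases hw : S.H u w
      · rw [S.bend_H hw] at h2
        have h3 := S.hport u v w huv huw hvw hv hw
        cases d <;> simp only [InDir, Sys.pos] at h1 h2
        · exact absurd (h3.1 h1.1) (not_lt.2 h2.1.le)
        · exact absurd (h3.2 h2.1) (not_lt.2 h1.1.le)
        · exact x1 h1.1.symm
        · exact x1 h1.1.symm
      · rw [S.bend_V hw] at h2
        cases d <;> simp only [InDir, Sys.pos] at h1 h2
        · exact absurd h2.1 (lt_irrefl _)
        · exact absurd h2.1 (lt_irrefl _)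
        · exact x1 h1.1.symm
        · exact x1 h1.1.symm
    · rw [S.bend_V hv] at h1
      by_cases hw : S.H u w
      · rw [S.bend_H hw] at h2
        cases d <;> simp only [InDir, Sys.pos] at h1 h2
        · exact absurd h1.1 (lt_irrefl _)
        · exact absurd h1.1 (lt_irrefl _)
        · exact x2 h2.1.symm
        · exact x2 h2.1.symm
      · rw [S.bend_V hw] at h2
        have hv' : S.H v u := (S.H_or huv).resolve_left hv
        have hw' : S.H w u := (S.H_or huw).resolve_left hw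
        have h3 := S.vport u v w huv huw hvw hv' hw'
        cases d <;> simp only [InDir, Sys.pos] at h1 h2
        · exact absurd h1.1 (lt_irrefl _)
        · exact absurd h1.1 (lt_irrefl _)
        · exact absurd (h3.2 h2.2) (not_lt.2 h1.2.le)
        · exact absurd (h3.1 h1.2) (not_lt.2 h2.2.le)
  meet u v w z huv hwz hne p hp hq := by
    rcases S.H_or huv with h1 | h1 <;> rcases S.H_or hwz with h2 | h2
    · exact S.meet_aux hx hy huv hwz h1 h2 hne hp hq
    · rw [curve_comm S hwz] at hq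
      rw [hInterior_comm S hwz, vInterior_comm S hwz, Sym2.eq_swap (a := w)]
      exact S.meet_aux hx hy huv hwz.symm h1 h2 (by rwa [Sym2.eq_swap (a := z)]) hp hq
    · rw [curve_comm S huv] at hp
      rw [hInterior_comm S huv, vInterior_comm S huv, Sym2.eq_swap (a := u)]
      exact S.meet_aux hx hy huv.symm hwz h1 h2 (by rwa [Sym2.eq_swap (a := v)]) hp hq
    · rw [curve_comm S huv] at hp
      rw [curve_comm S hwz] at hq
      rw [hInterior_comm S huv, vInterior_comm S huv, Sym2.eq_swap (a := u),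
        hInterior_comm S hwz, vInterior_comm S hwz, Sym2.eq_swap (a := w)]
      exact S.meet_aux hx hy huv.symm hwz.symm h1 h2
        (by rwa [Sym2.eq_swap (a := v), Sym2.eq_swap (a := z)]) hp hq
  stubs u v w z huv hwz hne p hp hq := by
    by_cases h1 : S.H u v
    · rw [S.stub_H h1] at hp
      by_cases h2 : S.H w z
      · rw [S.stub_H h2] at hq
        have huw : u = w := hy (hp.1.symm.trans hq.1)
        subst huw
        have hvz : v ≠ z := fun h => hne (by rw [h])
        refine ⟨rfl, Prod.ext ?_ hp.1⟩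
        exact opp_half (S.hport u v z huv hwz hvz h1 h2) (S.xne u v huv).symm hp.2 hq.2
      · rw [S.stub_V h2] at hq
        have h2' : S.H z w := (S.H_or hwz).resolve_left h2
        by_cases huw : u = w
        · exact ⟨huw, Prod.ext (by rw [hq.1, huw]; rfl) hp.1⟩
        · exact (S.cross u v w z huv hwz h1 h2' huw (by rw [← hq.1]; exact hp.2)
            (by rw [← hp.1]; exact hq.2)).elim
    · rw [S.stub_V h1] at hp
      have h1' : S.H v u := (S.H_or huv).resolve_left h1
      by_cases h2 : S.H w z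
      · rw [S.stub_H h2] at hq
        by_cases huw : u = w
        · exact ⟨huw, Prod.ext hp.1 (by rw [hq.1, huw]; rfl)⟩
        · exact (S.cross w z u v hwz huv h2 h1' (Ne.symm huw) (by rw [← hp.1]; exact hq.2)
            (by rw [← hq.1]; exact hp.2)).elim
      · rw [S.stub_V h2] at hq
        have h2' : S.H z w := (S.H_or hwz).resolve_left h2
        have huw : u = w := hx (hp.1.symm.trans hq.1)
        subst huw
        have hvz : v ≠ z := fun h => hne (by rw [h])
        refine ⟨rfl, Prod.ext hp.1 ?_⟩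
        exact opp_half (S.vport u v z huv hwz hvz h1' h2') (S.yne u v huv).symm hp.2 hq.2

end Pool.Agent.Shoped30
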