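import Pool.Agent.Lib.MP_fb02f1_lc.H30.Graph
import Pool.Agent.Lib.MP_fb02f1_lc.H30.Geom2

/-!
# The drawing of the graph of a satisfiable formula
-/

namespace Pool.Agent.Shoped30

open Set

/-- First coordinates in the base drawing of the gadget. -/
def gX : Fin 12 → ℕ := ![3, 4, 6, 1, 7, 0, 12, 11, 9, 13, 8, 14]

/-- Second coordinates in the base drawing of the gadget. -/
def gY : Fin 12 → ℕ := ![14, 10, 11, 12, 9, 7, 0, 5, 3, 2, 6, 8]

/-- Is the edge an arc of the base drawing? -/
def gArc (u v : Fin 12) : Bool := gList.contains (u, v)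

/-- First coordinates in the four drawings of the gadget. -/
def LX (h up : Bool) (k : Fin 12) : ℕ := if h then gX k else if up then gY k else 14 - gY k

/-- Second coordinates in the four drawings of the gadget. -/
def LY (h up : Bool) (k : Fin 12) : ℕ := if h then (if up then gY k else 14 - gY k) else gX k

/-- The types of the edges in the four drawings of the gadget. -/
def LH (h : Bool) (k l : Fin 12) : Bool := if h then gArc k l else gArc l k

/-- Between `a` and the midpoint of `a` and `b`. -/
def Btw (a b c : ℕ) : Prop := (a ≤ c ∧ 2 * c ≤ a + b) ∨ (a + b ≤ 2 * c ∧ c ≤ a)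

instance (a b c : ℕ) : Decidable (Btw a b c) := by unfold Btw; infer_instance

theorem LX_le : ∀ h up k, LX h up k ≤ 14 := by decide
theorem LY_le : ∀ h up k, LY h up k ≤ 14 := by decide
theorem LX_inj : ∀ h up k l, LX h up k = LX h up l → k = l := by decide
theorem LY_inj : ∀ h up k l, LY h up k = LY h up l → k = l := by decide
theorem LH_excl : ∀ h k l, GAdj k l → (LH h k l = true ↔ ¬ LH h l k = true) := by decide
theorem LH_adj : ∀ h k l, LH h k l = true → GAdj k l := by decide

theorem tab_left : ∀ up l, l ≠ 5 → LX true up 5 < LX true up l := by decide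
theorem tab_right : ∀ up l, l ≠ 11 → LX true up l < LX true up 11 := by decide
theorem tab_down : ∀ up l, l ≠ 5 → LY false up 5 < LY false up l := by decide
theorem tab_up : ∀ up l, l ≠ 11 → LY false up l < LY false up 11 := by decide
theorem tab0_up : ∀ l, l ≠ 0 → LY true true l < LY true true 0 := by decide
theorem tab0_down : ∀ l, l ≠ 0 → LY true false 0 < LY true false l := by decide
theorem tab0_right : ∀ l, l ≠ 0 → LX false true l < LX false true 0 := by decide
theorem tab0_left : ∀ l, l ≠ 0 → LX false false 0 < LX false false l := by decide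

set_option maxRecDepth 100000 in
theorem tab_hport : ∀ h up, ∀ e ∈ gList, ∀ f ∈ gList,
    (if h then e.1 = f.1 ∧ e.2 ≠ f.2 else e.2 = f.2 ∧ e.1 ≠ f.1) →
    (LX h up (if h then e.2 else e.1) < LX h up (if h then e.1 else e.2) ↔
      LX h up (if h then f.1 else f.2) < LX h up (if h then f.2 else f.1)) := by decide

set_option maxRecDepth 100000 in
theorem tab_vport : ∀ h up, ∀ e ∈ gList, ∀ f ∈ gList,
    (if h then e.2 = f.2 ∧ e.1 ≠ f.1 else e.1 = f.1 ∧ e.2 ≠ f.2) →
    (LY h up (if h then e.1 else e.2) < LY h up (if h then e.2 else e.1) ↔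
      LY h up (if h then f.2 else f.1) < LY h up (if h then f.1 else f.2)) := by decide

set_option maxRecDepth 100000 in
theorem tab_cross : ∀ h up, ∀ e ∈ gList, ∀ f ∈ gList,
    (if h then e.1 else e.2) ≠ (if h then f.2 else f.1) →
    ¬ (Btw (LX h up (if h then e.1 else e.2)) (LX h up (if h then e.2 else e.1))
        (LX h up (if h then f.2 else f.1)) ∧
      Btw (LY h up (if h then f.2 else f.1)) (LY h up (if h then f.1 else f.2))
        (LY h up (if h then e.1 else e.2))) := by decide

theorem mem_of_LH {h : Bool} {k l : Fin 12} (hk : LH h k l = true) :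
    ∃ e ∈ gList, (if h then e.1 else e.2) = k ∧ (if h then e.2 else e.1) = l := by
  cases h
  · simp only [LH, gArc, Bool.false_eq_true, if_false, List.contains_iff_mem] at hk
    exact ⟨(l, k), hk, rfl, rfl⟩
  · simp only [LH, gArc, if_true, List.contains_iff_mem] at hk
    exact ⟨(k, l), hk, rfl, rfl⟩

theorem L_hport {h up : Bool} {k l m : Fin 12} (h1 : LH h k l = true) (h2 : LH h k m = true)
    (hne : l ≠ m) : LX h up l < LX h up k ↔ LX h up k < LX h up m := by
  obtain ⟨e, he, e1, e2⟩ := mem_of_LH h1
  obtain ⟨f, hf, f1, f2⟩ := mem_of_LH h2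
  have := tab_hport h up e he f hf
  rw [e1, e2, f1, f2] at this
  apply this
  cases h
  · simp only [Bool.false_eq_true, if_false] at e1 e2 f1 f2 ⊢
    exact ⟨e1.trans f1.symm, fun h => hne (by rw [← e2, ← f2, h])⟩
  · simp only [if_true] at e1 e2 f1 f2 ⊢
    exact ⟨e1.trans f1.symm, fun h => hne (by rw [← e2, ← f2, h])⟩

theorem L_vport {h up : Bool} {k l m : Fin 12} (h1 : LH h l k = true) (h2 : LH h m k = true)
    (hne : l ≠ m) : LY h up l < LY h up k ↔ LY h up k < LY h up m := by
  obtain ⟨e, he, e1, e2⟩ := mem_of_LH h1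
  obtain ⟨f, hf, f1, f2⟩ := mem_of_LH h2
  have := tab_vport h up e he f hf
  rw [e1, e2, f1, f2] at this
  apply this
  cases h
  · simp only [Bool.false_eq_true, if_false] at e1 e2 f1 f2 ⊢
    exact ⟨e2.trans f2.symm, fun h => hne (by rw [← e1, ← f1, h])⟩
  · simp only [if_true] at e1 e2 f1 f2 ⊢
    exact ⟨e2.trans f2.symm, fun h => hne (by rw [← e1, ← f1, h])⟩

theorem L_cross {h up : Bool} {k m l n : Fin 12} (h1 : LH h k m = true) (h2 : LH h n l = true)
    (hne : k ≠ l) (c1 : Btw (LX h up k) (LX h up m) (LX h up l))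
    (c2 : Btw (LY h up l) (LY h up n) (LY h up k)) : False := by
  obtain ⟨e, he, e1, e2⟩ := mem_of_LH h1
  obtain ⟨f, hf, f1, f2⟩ := mem_of_LH h2
  have := tab_cross h up e he f hf
  rw [e1, e2, f1, f2] at this
  exact this hne ⟨c1, c2⟩

end Pool.Agent.Shoped30
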