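import Pool.Agent.Lib.MP_fb02f1_lc.H30.Draw

/-!
# The drawing of the graph of a satisfiable formula: the whole graph
-/

namespace Pool.Agent.Shoped30

open Set

variable (F : Nae) (τ : Fin F.N → Bool)

/-- The type of the wire of variable `i` at position `j` (horizontal or vertical). -/
def Nae.hh (i : Fin F.N) (j : ℕ) : Bool := τ i == decide (j % 2 = 0)

/-- The rank of a gadget. -/
def Nae.grank (i : Fin F.N) (j : ℕ) : ℕ := 3 * (j * F.N + i.val) + 1

/-- The rank of a clause vertex. -/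
def Nae.crank (a : Fin F.M) : ℕ :=
  3 * (F.slot a 1 * F.N + (F.lit a 1).1.val) + (if F.val τ a 0 = F.val τ a 1 then 0 else 2)

/-- The rank of a vertex. -/
def Nae.rk : GV F.N F.M → ℕ
  | .g i j _ => F.grank i j.val
  | .c a => F.crank τ a

/-- Is the clause vertex of the gadget above the gadget? -/
def Nae.up (i : Fin F.N) (j : ℕ) : Bool :=
  if h : j / 6 < F.M then decide (F.grank i j < F.crank τ ⟨j / 6, h⟩) else true

/-- Local first coordinate. -/
def Nae.lx : GV F.N F.M → ℕ
  | .g i j k => LX (F.hh τ i j.val) (F.up τ i j.val) k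
  | .c _ => 0

/-- Local second coordinate. -/
def Nae.ly : GV F.N F.M → ℕ
  | .g i j k => LY (F.hh τ i j.val) (F.up τ i j.val) k
  | .c _ => 0

/-- First coordinate. -/
noncomputable def Nae.cx (v : GV F.N F.M) : ℝ := 64 ^ (F.rk τ v) + (F.lx τ v : ℝ)

/-- Second coordinate. -/
noncomputable def Nae.cy (v : GV F.N F.M) : ℝ := 64 ^ (F.rk τ v) + (F.ly τ v : ℝ)

/-- The types of the edges. -/
def Nae.dH : GV F.N F.M → GV F.N F.M → Prop
  | .g i j k, .g i' j' k' =>
    if i = i' ∧ j = j' then LH (F.hh τ i j.val) k k' = true else F.hh τ i j.val = true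
  | .g i j _, .c _ => F.hh τ i j.val = false
  | .c _, .g i j _ => F.hh τ i j.val = true
  | .c _, .c _ => False

theorem Nae.lx_le (v : GV F.N F.M) : F.lx τ v ≤ 14 := by
  cases v
  · exact LX_le _ _ _
  · exact Nat.zero_le _

theorem Nae.ly_le (v : GV F.N F.M) : F.ly τ v ≤ 14 := by
  cases v
  · exact LY_le _ _ _
  · exact Nat.zero_le _

theorem pow_sep {m n : ℕ} (h : m < n) : 2 * ((64 : ℝ) ^ m + 14) < 64 ^ n := by
  have h1 : (64 : ℝ) ^ (m + 1) ≤ 64 ^ n := pow_le_pow_right₀ (by norm_num) h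
  have h2 : (1 : ℝ) ≤ 64 ^ m := one_le_pow₀ (by norm_num)
  rw [pow_succ] at h1
  linarith

theorem Nae.cx_bounds (v : GV F.N F.M) :
    (64 : ℝ) ^ (F.rk τ v) ≤ F.cx τ v ∧ F.cx τ v ≤ 64 ^ (F.rk τ v) + 14 := by
  unfold Nae.cx
  have h : (F.lx τ v : ℝ) ≤ 14 := by exact_mod_cast F.lx_le τ v
  have h' : (0 : ℝ) ≤ F.lx τ v := Nat.cast_nonneg _
  constructor <;> linarith

theorem Nae.cy_bounds (v : GV F.N F.M) :
    (64 : ℝ) ^ (F.rk τ v) ≤ F.cy τ v ∧ F.cy τ v ≤ 64 ^ (F.rk τ v) + 14 := by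
  unfold Nae.cy
  have h : (F.ly τ v : ℝ) ≤ 14 := by exact_mod_cast F.ly_le τ v
  have h' : (0 : ℝ) ≤ F.ly τ v := Nat.cast_nonneg _
  constructor <;> linarith

theorem Nae.cx_pos (v : GV F.N F.M) : 0 < F.cx τ v := by
  have h1 := F.cx_bounds τ v
  have h2 : (0 : ℝ) < 64 ^ (F.rk τ v) := by positivity
  linarith

theorem Nae.cy_pos (v : GV F.N F.M) : 0 < F.cy τ v := by
  have h1 := F.cy_bounds τ v
  have h2 : (0 : ℝ) < 64 ^ (F.rk τ v) := by positivity
  linarith

theorem Nae.cx_lt {u v : GV F.N F.M} (h : F.rk τ u < F.rk τ v) :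
    2 * F.cx τ u < F.cx τ v := by
  have h1 := F.cx_bounds τ u
  have h2 := F.cx_bounds τ v
  have h3 := pow_sep h
  linarith

theorem Nae.cy_lt {u v : GV F.N F.M} (h : F.rk τ u < F.rk τ v) :
    2 * F.cy τ u < F.cy τ v := by
  have h1 := F.cy_bounds τ u
  have h2 := F.cy_bounds τ v
  have h3 := pow_sep h
  linarith

theorem Nae.cx_lt' {u v : GV F.N F.M} (h : F.rk τ u < F.rk τ v) : F.cx τ u < F.cx τ v := by
  have h1 := F.cx_lt τ h
  have h2 := F.cx_pos τ u
  linarith

theorem Nae.cy_lt' {u v : GV F.N F.M} (h : F.rk τ u < F.rk τ v) : F.cy τ u < F.cy τ v := by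
  have h1 := F.cy_lt τ h
  have h2 := F.cy_pos τ u
  linarith

theorem idx_inj {N j j' i i' : ℕ} (hi : i < N) (hi' : i' < N) (h : j * N + i = j' * N + i') :
    j = j' ∧ i = i' := by
  have hN : 0 < N := by omega
  have h1 : (j * N + i) / N = j := by
    rw [mul_comm, Nat.mul_add_div hN, Nat.div_eq_of_lt hi, add_zero]
  have h2 : (j' * N + i') / N = j' := by
    rw [mul_comm, Nat.mul_add_div hN, Nat.div_eq_of_lt hi', add_zero]
  have h3 : j = j' := by rw [← h1, ← h2, h]
  subst h3
  exact ⟨rfl, by omega⟩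

theorem Nae.grank_lt {i i' : Fin F.N} {j j' : ℕ} (h : j < j') :
    F.grank i j + 3 ≤ F.grank i' j' := by
  unfold Nae.grank
  have h1 : (j + 1) * F.N ≤ j' * F.N := Nat.mul_le_mul_right _ h
  have h2 := i.2
  rw [add_mul, one_mul] at h1
  omega

theorem Nae.grank_inj {i i' : Fin F.N} {j j' : ℕ} (h : F.grank i j = F.grank i' j') :
    i = i' ∧ j = j' := by
  unfold Nae.grank at h
  obtain ⟨h1, h2⟩ := idx_inj i.2 i'.2 (show j * F.N + i.val = j' * F.N + i'.val by omega)
  exact ⟨Fin.ext h2, h1⟩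

theorem Nae.slot_bounds (a : Fin F.M) (p : Fin 3) :
    6 * a.val + 2 * p.val ≤ F.slot a p ∧ F.slot a p ≤ 6 * a.val + 2 * p.val + 1 := by
  unfold Nae.slot
  split <;> omega

theorem Nae.slot_clause {a b : Fin F.M} {p q : Fin 3} (h : F.slot a p = F.slot b q) :
    a = b ∧ p = q := by
  have h1 := F.slot_bounds a p
  have h2 := F.slot_bounds b q
  have hp := p.2
  have hq := q.2
  have h3 : a.val = b.val := by omega
  exact ⟨Fin.ext h3, Fin.ext (by omega)⟩

theorem Nae.slot_div (a : Fin F.M) (p : Fin 3) : F.slot a p / 6 = a.val := by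
  have h1 := F.slot_bounds a p
  have hp := p.2
  omega

/-- Vertices of the same rank lie in the same cluster. -/
theorem Nae.rk_eq {u v : GV F.N F.M} (h : F.rk τ u = F.rk τ v) :
    (∃ i j k l, u = .g i j k ∧ v = .g i j l) ∨ u = v := by
  cases u with
  | g i j k =>
    cases v with
    | g i' j' l =>
      left
      obtain ⟨h1, h2⟩ := F.grank_inj h
      have h3 : j = j' := Fin.ext h2
      subst h1 h3
      exact ⟨i, j, k, l, rfl, rfl⟩
    | c a =>
      exfalso
      unfold Nae.rk Nae.grank Nae.crank at h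
      dsimp only at h
      split at h <;> omega
  | c a =>
    cases v with
    | g i' j' l =>
      exfalso
      unfold Nae.rk Nae.grank Nae.crank at h
      dsimp only at h
      split at h <;> omega
    | c b =>
      right
      unfold Nae.rk Nae.crank at h
      dsimp only at h
      have h1 : F.slot a 1 * F.N + (F.lit a 1).1.val = F.slot b 1 * F.N + (F.lit b 1).1.val := by
        split at h <;> split at h <;> omega
      obtain ⟨h2, _⟩ := idx_inj (F.lit a 1).1.2 (F.lit b 1).1.2 h1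
      rw [(F.slot_clause h2).1]

theorem Nae.cx_inj : Function.Injective (F.cx τ) := by
  intro u v h
  rcases lt_trichotomy (F.rk τ u) (F.rk τ v) with h1 | h1 | h1
  · exact absurd h (ne_of_lt (F.cx_lt' τ h1))
  · rcases F.rk_eq τ h1 with ⟨i, j, k, l, rfl, rfl⟩ | h2
    · unfold Nae.cx at h
      rw [h1] at h
      have h3 : (F.lx τ (.g i j k) : ℝ) = F.lx τ (.g i j l) := by linarith
      have h4 : F.lx τ (.g i j k) = F.lx τ (.g i j l) := by exact_mod_cast h3
      rw [LX_inj _ _ _ _ h4]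
    · exact h2
  · exact absurd h (ne_of_gt (F.cx_lt' τ h1))

theorem Nae.cy_inj : Function.Injective (F.cy τ) := by
  intro u v h
  rcases lt_trichotomy (F.rk τ u) (F.rk τ v) with h1 | h1 | h1
  · exact absurd h (ne_of_lt (F.cy_lt' τ h1))
  · rcases F.rk_eq τ h1 with ⟨i, j, k, l, rfl, rfl⟩ | h2
    · unfold Nae.cy at h
      rw [h1] at h
      have h3 : (F.ly τ (.g i j k) : ℝ) = F.ly τ (.g i j l) := by linarith
      have h4 : F.ly τ (.g i j k) = F.ly τ (.g i j l) := by exact_mod_cast h3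
      rw [LY_inj _ _ _ _ h4]
    · exact h2
  · exact absurd h (ne_of_gt (F.cy_lt' τ h1))

/-- The neighbours of a gadget vertex outside the gadget. -/
inductive Nae.ExtNb : Fin F.N → Fin (6 * F.M) → Fin 12 → GV F.N F.M → Prop
  | next (i : Fin F.N) (j j' : Fin (6 * F.M)) (h : j'.val = j.val + 1) : ExtNb i j 11 (.g i j' 5)
  | prev (i : Fin F.N) (j j' : Fin (6 * F.M)) (h : j'.val = j.val + 1) : ExtNb i j' 5 (.g i j 11)
  | clause (a : Fin F.M) (p : Fin 3) :
      ExtNb (F.lit a p).1 ⟨F.slot a p, F.slot_lt a p⟩ 0 (.c a)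

theorem Nae.adj_g {i : Fin F.N} {j : Fin (6 * F.M)} {k : Fin 12} {z : GV F.N F.M}
    (h : F.G.Adj (.g i j k) z) : (∃ l, z = .g i j l ∧ GAdj k l) ∨ F.ExtNb i j k z := by
  rcases h with h | h
  · cases z with
    | g i' j' l =>
      obtain ⟨h1, ⟨h2, h3⟩ | ⟨h2, h3, h4⟩⟩ := h
      · subst h1 h2; exact Or.inl ⟨l, rfl, h3⟩
      · subst h1 h3 h4; exact Or.inr (.next i j j' h2)
    | c a => exact h.elim
  · cases z with
    | g i' j' l =>
      obtain ⟨h1, ⟨h2, h3⟩ | ⟨h2, h3, h4⟩⟩ := h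
      · subst h1 h2; exact Or.inl ⟨l, rfl, gsymm _ _ h3⟩
      · subst h1 h3 h4; exact Or.inr (.prev i' j' j h2)
    | c a =>
      obtain ⟨h1, p, h2, h3⟩ := h
      subst h1 h2
      have h4 : j = ⟨F.slot a p, F.slot_lt a p⟩ := Fin.ext h3
      subst h4
      exact Or.inr (.clause a p)

theorem Nae.adj_c {a : Fin F.M} {z : GV F.N F.M} (h : F.G.Adj (.c a) z) :
    ∃ p, z = F.lg a p := by
  rcases h with h | h
  · cases z with
    | g i j k =>
      obtain ⟨h1, p, h2, h3⟩ := h
      refine ⟨p, ?_⟩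
      subst h1 h2
      unfold Nae.lg
      congr 1
      exact Fin.ext h3
    | c b => exact h.elim
  · cases z with
    | g i j k => exact h.elim
    | c b => exact h.elim

theorem Nae.ext_unique {i : Fin F.N} {j : Fin (6 * F.M)} {k : Fin 12} {z z' : GV F.N F.M}
    (h : F.ExtNb i j k z) (h' : F.ExtNb i j k z') : z = z' := by
  generalize hi : i = i' at h'
  generalize hj : j = j' at h'
  generalize hk : k = k' at h'
  cases h with
  | next i j j₂ h =>
    cases h' with
    | next i' j' j₃ h' =>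
      subst hi hj
      have : j₂ = j₃ := Fin.ext (by omega)
      rw [this]
    | prev i' j' j₃ h' => exact absurd hk (by decide)
    | clause a p => exact absurd hk (by decide)
  | prev i j j₂ h =>
    cases h' with
    | next i' j' j₃ h' => exact absurd hk (by decide)
    | prev i' j' j₃ h' =>
      subst hi hj
      have : j = j' := Fin.ext (by omega)
      rw [this]
    | clause a p => exact absurd hk (by decide)
  | clause a p =>
    cases h' with
    | next i' j' j₃ h' => exact absurd hk (by decide)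
    | prev i' j' j₃ h' => exact absurd hk (by decide)
    | clause b q =>
      have h1 : F.slot a p = F.slot b q := congrArg Fin.val hj
      rw [(F.slot_clause h1).1]

theorem Nae.hh_slot (a : Fin F.M) (p : Fin 3) : F.hh τ (F.lit a p).1 (F.slot a p) = F.val τ a p := by
  unfold Nae.hh Nae.val
  have h4 : decide (F.slot a p % 2 = 0) = (F.lit a p).2 := by
    unfold Nae.slot
    cases (F.lit a p).2 <;> simp <;> omega
  rw [h4]

theorem Nae.hh_succ (i : Fin F.N) (j : ℕ) : F.hh τ i (j + 1) = ! F.hh τ i j := by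
  unfold Nae.hh
  have : ((j + 1) % 2 = 0) ↔ ¬ (j % 2 = 0) := by omega
  by_cases h : j % 2 = 0
  · simp [this, h]
  · simp [this, h]

theorem Nae.up_slot (a : Fin F.M) (p : Fin 3) :
    F.up τ (F.lit a p).1 (F.slot a p) = true ↔
      F.rk τ (F.lg a p) < F.rk τ (.c a) := by
  unfold Nae.up
  have h : F.slot a p / 6 < F.M := by rw [F.slot_div]; exact a.2
  rw [dif_pos h, decide_eq_true_iff]
  have h2 : (⟨F.slot a p / 6, h⟩ : Fin F.M) = a := Fin.ext (F.slot_div a p)
  rw [h2]
  rfl

end Pool.Agent.Shoped30
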