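import Pool.Agent.Lib.MP_fb02f1_lc.H30.Draw2

/-!
# The drawing of the graph of a satisfiable formula: verification
-/

namespace Pool.Agent.Shoped30

open Set

variable (F : Nae) (τ : Fin F.N → Bool)

theorem Nae.dH_ne {i : Fin F.N} {j j' : Fin (6 * F.M)} (h : j ≠ j') (k k' : Fin 12) :
    F.dH τ (.g i j k) (.g i j' k') ↔ F.hh τ i j.val = true := by
  have h2 : ¬ (i = i ∧ j = j') := fun h' => h h'.2
  unfold Nae.dH
  dsimp only
  rw [if_neg h2]

theorem Nae.dH_ext {i : Fin F.N} {j : Fin (6 * F.M)} {k : Fin 12} {z : GV F.N F.M}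
    (h : F.ExtNb i j k z) :
    (F.dH τ (.g i j k) z ↔ F.hh τ i j.val = !decide (k = 0)) ∧
      (F.dH τ z (.g i j k) ↔ ¬ F.hh τ i j.val = !decide (k = 0)) := by
  cases h with
  | next _ _ j₂ h =>
    have hne : j ≠ j₂ := by rintro rfl; omega
    have h2 : F.hh τ i j₂.val = ! F.hh τ i j.val := by rw [h, F.hh_succ]
    rw [F.dH_ne τ hne, F.dH_ne τ hne.symm, h2]
    cases F.hh τ i j.val <;> decide
  | prev _ j₂ _ h =>
    have hne : j ≠ j₂ := by rintro rfl; omega
    have h2 : F.hh τ i j.val = ! F.hh τ i j₂.val := by rw [h, F.hh_succ]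
    rw [F.dH_ne τ hne, F.dH_ne τ hne.symm, h2]
    cases F.hh τ i j₂.val <;> decide
  | clause a p =>
    have e1 : F.dH τ (.g (F.lit a p).1 ⟨F.slot a p, F.slot_lt a p⟩ 0) (.c a) ↔
      F.hh τ (F.lit a p).1 (F.slot a p) = false := Iff.rfl
    have e2 : F.dH τ (.c a) (.g (F.lit a p).1 ⟨F.slot a p, F.slot_lt a p⟩ 0) ↔
      F.hh τ (F.lit a p).1 (F.slot a p) = true := Iff.rfl
    rw [e1, e2]
    dsimp only
    cases F.hh τ (F.lit a p).1 (F.slot a p) <;> decide

theorem Nae.rk_next {i : Fin F.N} {j j' : Fin (6 * F.M)} (h : j'.val = j.val + 1)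
    (k k' : Fin 12) : F.rk τ (.g i j k) < F.rk τ (.g i j' k') := by
  have : F.grank i j.val + 3 ≤ F.grank i j'.val := F.grank_lt (by omega)
  simp only [Nae.rk]
  omega

/-- A horizontal edge to another cluster leaves the gadget at its extreme vertex. -/
theorem Nae.hext {i : Fin F.N} {j : Fin (6 * F.M)} {k : Fin 12} {z : GV F.N F.M}
    (h : F.ExtNb i j k z) (hH : F.dH τ (.g i j k) z) (hrk : ∀ a p, F.rk τ (F.lg a p) ≠ F.rk τ (.c a)) :
    (F.cx τ z < F.cx τ (.g i j k) ∧ ∀ l, l ≠ k → F.lx τ (.g i j k) < F.lx τ (.g i j l)) ∨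
    (F.cx τ (.g i j k) < F.cx τ z ∧ ∀ l, l ≠ k → F.lx τ (.g i j l) < F.lx τ (.g i j k)) := by
  have h1 := (F.dH_ext τ h).1.1 hH
  cases h with
  | next i j j' h =>
    right
    refine ⟨F.cx_lt' τ (F.rk_next τ h _ _), fun l hl => ?_⟩
    simp only [Nae.lx, h1]
    exact tab_right _ l hl
  | prev i j j' h =>
    left
    refine ⟨F.cx_lt' τ (F.rk_next τ h _ _), fun l hl => ?_⟩
    simp only [Nae.lx, h1]
    exact tab_left _ l hl
  | clause a p =>
    have h2 := F.up_slot τ a p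
    by_cases hu : F.up τ (F.lit a p).1 (F.slot a p) = true
    · right
      refine ⟨F.cx_lt' τ (h2.1 hu), fun l hl => ?_⟩
      simp only [Nae.lx, h1, hu]
      exact tab0_right l hl
    · left
      have h3 : F.rk τ (.c a) < F.rk τ (F.lg a p) := by
        have h4 : ¬ F.rk τ (F.lg a p) < F.rk τ (.c a) := fun h5 => hu (h2.2 h5)
        have := hrk a p
        omega
      refine ⟨F.cx_lt' τ h3, fun l hl => ?_⟩
      rw [Bool.not_eq_true] at hu
      simp only [Nae.lx, h1, hu]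
      exact tab0_left l hl

/-- A vertical edge to another cluster leaves the gadget at its extreme vertex. -/
theorem Nae.vext {i : Fin F.N} {j : Fin (6 * F.M)} {k : Fin 12} {z : GV F.N F.M}
    (h : F.ExtNb i j k z) (hH : F.dH τ z (.g i j k)) (hrk : ∀ a p, F.rk τ (F.lg a p) ≠ F.rk τ (.c a)) :
    (F.cy τ z < F.cy τ (.g i j k) ∧ ∀ l, l ≠ k → F.ly τ (.g i j k) < F.ly τ (.g i j l)) ∨
    (F.cy τ (.g i j k) < F.cy τ z ∧ ∀ l, l ≠ k → F.ly τ (.g i j l) < F.ly τ (.g i j k)) := by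
  have h1' := (F.dH_ext τ h).2.1 hH
  have h1 : F.hh τ i j.val = decide (k = 0) := by
    cases hk : decide (k = 0) <;> cases hb : F.hh τ i j.val <;> rw [hk, hb] at h1' <;>
      first | rfl | exact absurd rfl h1'
  cases h with
  | next i j j' h =>
    right
    refine ⟨F.cy_lt' τ (F.rk_next τ h _ _), fun l hl => ?_⟩
    simp only [Nae.ly, h1]
    exact tab_up _ l hl
  | prev i j j' h =>
    left
    refine ⟨F.cy_lt' τ (F.rk_next τ h _ _), fun l hl => ?_⟩
    simp only [Nae.ly, h1]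
    exact tab_down _ l hl
  | clause a p =>
    have h2 := F.up_slot τ a p
    by_cases hu : F.up τ (F.lit a p).1 (F.slot a p) = true
    · right
      refine ⟨F.cy_lt' τ (h2.1 hu), fun l hl => ?_⟩
      simp only [Nae.ly, h1, hu]
      exact tab0_up l hl
    · left
      have h3 : F.rk τ (.c a) < F.rk τ (F.lg a p) := by
        have h4 : ¬ F.rk τ (F.lg a p) < F.rk τ (.c a) := fun h5 => hu (h2.2 h5)
        have := hrk a p
        omega
      refine ⟨F.cy_lt' τ h3, fun l hl => ?_⟩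
      rw [Bool.not_eq_true] at hu
      simp only [Nae.ly, h1, hu]
      exact tab0_down l hl

theorem Nae.rk_lg_ne (a : Fin F.M) (p : Fin 3) : F.rk τ (F.lg a p) ≠ F.rk τ (.c a) := by
  intro h
  rcases F.rk_eq τ h with ⟨i, j, k, l, h1, h2⟩ | h1
  · exact absurd h2 (by simp)
  · exact absurd h1 (by simp [Nae.lg])

theorem Nae.rk_lg (a : Fin F.M) (p : Fin 3) :
    F.rk τ (F.lg a p) = 3 * (F.slot a p * F.N + (F.lit a p).1.val) + 1 := rfl

theorem Nae.rk_c (a : Fin F.M) : F.rk τ (.c a) = 3 * (F.slot a 1 * F.N + (F.lit a 1).1.val) +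
    (if F.val τ a 0 = F.val τ a 1 then 0 else 2) := rfl

theorem Nae.rk_order (a : Fin F.M) :
    F.rk τ (F.lg a 0) < F.rk τ (.c a) ∧ F.rk τ (.c a) < F.rk τ (F.lg a 2) ∧
      (F.rk τ (F.lg a 1) < F.rk τ (.c a) ↔ F.val τ a 0 ≠ F.val τ a 1) := by
  have s0 := F.slot_bounds a 0
  have s1 := F.slot_bounds a 1
  have s2 := F.slot_bounds a 2
  have e0 : ((0 : Fin 3) : ℕ) = 0 := rfl
  have e1 : ((1 : Fin 3) : ℕ) = 1 := rfl
  have e2 : ((2 : Fin 3) : ℕ) = 2 := rfl
  rw [e0] at s0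
  rw [e1] at s1
  rw [e2] at s2
  have h01 : F.grank (F.lit a 0).1 (F.slot a 0) + 3 ≤ F.grank (F.lit a 1).1 (F.slot a 1) :=
    F.grank_lt (by omega)
  have h12 : F.grank (F.lit a 1).1 (F.slot a 1) + 3 ≤ F.grank (F.lit a 2).1 (F.slot a 2) :=
    F.grank_lt (by omega)
  unfold Nae.grank at h01 h12
  rw [F.rk_c, F.rk_lg, F.rk_lg, F.rk_lg]
  by_cases h : F.val τ a 0 = F.val τ a 1
  · rw [if_pos h]
    refine ⟨by omega, by omega, ?_⟩
    constructor
    · intro h3; omega
    · intro h3; exact absurd h h3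
  · rw [if_neg h]
    refine ⟨by omega, by omega, ?_⟩
    constructor
    · intro _; exact h
    · intro _; omega

theorem Nae.dH_c (a : Fin F.M) (p : Fin 3) :
    F.dH τ (.c a) (F.lg a p) ↔ F.val τ a p = true := by
  rw [← F.hh_slot τ a p]
  rfl

theorem Nae.dH_c' (a : Fin F.M) (p : Fin 3) :
    F.dH τ (F.lg a p) (.c a) ↔ F.val τ a p = false := by
  rw [← F.hh_slot τ a p]
  rfl

/-- At a clause vertex, two literals with the same value are on different sides. -/
theorem Nae.clause_sides (hτ : ∀ a, ∃ p q, F.val τ a p ≠ F.val τ a q) (a : Fin F.M)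
    (p q : Fin 3) (hpq : p ≠ q) (hv : F.val τ a p = F.val τ a q) :
    (F.rk τ (F.lg a p) < F.rk τ (.c a) ↔ F.rk τ (.c a) < F.rk τ (F.lg a q)) := by
  obtain ⟨h0, h2, h1⟩ := F.rk_order τ a
  have n1 := F.rk_lg_ne τ a 1
  have h12 : F.val τ a 1 = F.val τ a 2 → F.val τ a 0 ≠ F.val τ a 1 := by
    intro h3 h4
    obtain ⟨p', q', hpq'⟩ := hτ a
    have key : ∀ p : Fin 3, F.val τ a p = F.val τ a 1 := by
      intro p
      fin_cases p
      · exact h4
      · rfl
      · exact h3.symm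
    exact hpq' ((key p').trans (key q').symm)
  fin_cases p <;> fin_cases q
  · exact absurd rfl hpq
  · refine iff_of_true h0 ?_
    have h3 : ¬ F.rk τ (F.lg a 1) < F.rk τ (.c a) := fun h4 => h1.1 h4 hv
    exact lt_of_le_of_ne (not_lt.1 h3) n1.symm
  · exact iff_of_true h0 h2
  · exact iff_of_false (fun h4 => h1.1 h4 hv.symm) (not_lt.2 h0.le)
  · exact absurd rfl hpq
  · exact iff_of_true (h1.2 (h12 hv)) h2
  · exact iff_of_false (not_lt.2 h2.le) (not_lt.2 h0.le)
  · exact iff_of_false (not_lt.2 h2.le) (not_lt.2 (h1.2 (h12 hv.symm)).le)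
  · exact absurd rfl hpq

theorem Nae.ge_half_x (u v : GV F.N F.M) (t : ℝ)
    (h : t ∈ uIcc (F.cx τ u) ((F.cx τ u + F.cx τ v) / 2)) : F.cx τ u / 2 ≤ t := by
  have h1 := F.cx_pos τ u
  have h2 := F.cx_pos τ v
  rw [mem_uIcc] at h
  rcases h with h | h <;> linarith [h.1, h.2]

theorem Nae.ge_half_y (u v : GV F.N F.M) (t : ℝ)
    (h : t ∈ uIcc (F.cy τ u) ((F.cy τ u + F.cy τ v) / 2)) : F.cy τ u / 2 ≤ t := by
  have h1 := F.cy_pos τ u
  have h2 := F.cy_pos τ v
  rw [mem_uIcc] at h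
  rcases h with h | h <;> linarith [h.1, h.2]

theorem btw_of_mem (r : ℝ) (a b c : ℕ)
    (h : r + (c : ℝ) ∈ uIcc (r + (a : ℝ)) (((r + (a : ℝ)) + (r + (b : ℝ))) / 2)) : Btw a b c := by
  rw [mem_uIcc] at h
  rcases h with ⟨h1, h2⟩ | ⟨h1, h2⟩
  · left
    have h3 : (a : ℝ) ≤ c := by linarith
    have h4 : (2 : ℝ) * c ≤ a + b := by linarith
    exact ⟨by exact_mod_cast h3, by exact_mod_cast h4⟩
  · right
    have h3 : (c : ℝ) ≤ a := by linarith
    have h4 : (a : ℝ) + b ≤ 2 * c := by linarith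
    exact ⟨by exact_mod_cast h4, by exact_mod_cast h3⟩

theorem Nae.dH_in (i : Fin F.N) (j : Fin (6 * F.M)) (k l : Fin 12) :
    F.dH τ (.g i j k) (.g i j l) ↔ LH (F.hh τ i j.val) k l = true := by
  simp only [Nae.dH, and_self, if_true]

theorem Nae.cx_in {i : Fin F.N} {j : Fin (6 * F.M)} {k l : Fin 12} :
    F.cx τ (.g i j k) < F.cx τ (.g i j l) ↔ F.lx τ (.g i j k) < F.lx τ (.g i j l) := by
  unfold Nae.cx
  have : F.rk τ (.g i j k) = F.rk τ (.g i j l) := rfl
  rw [this, add_lt_add_iff_left, Nat.cast_lt]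

theorem Nae.cy_in {i : Fin F.N} {j : Fin (6 * F.M)} {k l : Fin 12} :
    F.cy τ (.g i j k) < F.cy τ (.g i j l) ↔ F.ly τ (.g i j k) < F.ly τ (.g i j l) := by
  unfold Nae.cy
  have : F.rk τ (.g i j k) = F.rk τ (.g i j l) := rfl
  rw [this, add_lt_add_iff_left, Nat.cast_lt]

theorem not_GAdj_of_eq {k l : Fin 12} (h : GAdj k l) : l ≠ k := by
  rintro rfl
  exact not_GAdj_self _ h

theorem Nae.excl_aux {u v : GV F.N F.M} (h : F.G.Adj u v) : (F.dH τ u v ↔ ¬ F.dH τ v u) := by
  cases u with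
  | g i j k =>
    rcases F.adj_g h with ⟨l, rfl, hl⟩ | hl
    · rw [F.dH_in, F.dH_in]
      exact LH_excl _ _ _ hl
    · have := F.dH_ext τ hl
      rw [this.1, this.2, not_not]
  | c a =>
    obtain ⟨p, rfl⟩ := F.adj_c h
    rw [F.dH_c, F.dH_c', Bool.not_eq_false]

/-- The drawing, for a not-all-equal assignment. -/
noncomputable def Nae.sysOf (hτ : ∀ a, ∃ p q, F.val τ a p ≠ F.val τ a q) :
    Sys (GV F.N F.M) F.G.Adj where
  x := F.cx τ
  y := F.cy τ
  H := F.dH τ
  excl u v h := F.excl_aux τ h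
  xne u v h := fun h' => F.G.ne_of_adj h (F.cx_inj τ h')
  yne u v h := fun h' => F.G.ne_of_adj h (F.cy_inj τ h')
  hport u v w huv huw hvw h1 h2 := by
    cases u with
    | g i j k =>
      rcases F.adj_g huv with ⟨l, rfl, hl⟩ | hl
      · rcases F.adj_g huw with ⟨m, rfl, hm⟩ | hm
        · rw [F.cx_in, F.cx_in]
          exact L_hport ((F.dH_in τ i j k l).1 h1) ((F.dH_in τ i j k m).1 h2)
            (fun h => hvw (by rw [h]))
        · have hlk := not_GAdj_of_eq hl
          rcases F.hext τ hm h2 (F.rk_lg_ne τ) with ⟨h3, h4⟩ | ⟨h3, h4⟩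
          · refine iff_of_false (fun h5 => ?_) (not_lt.2 h3.le)
            have := F.cx_in τ |>.1 h5
            exact absurd (h4 l hlk) (not_lt.2 this.le)
          · exact iff_of_true ((F.cx_in τ).2 (h4 l hlk)) h3
      · rcases F.adj_g huw with ⟨m, rfl, hm⟩ | hm
        · have hmk := not_GAdj_of_eq hm
          rcases F.hext τ hl h1 (F.rk_lg_ne τ) with ⟨h3, h4⟩ | ⟨h3, h4⟩
          · exact iff_of_true h3 ((F.cx_in τ).2 (h4 m hmk))
          · refine iff_of_false (not_lt.2 h3.le) (fun h5 => ?_)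
            have := F.cx_in τ |>.1 h5
            exact absurd (h4 m hmk) (not_lt.2 this.le)
        · exact absurd (F.ext_unique hl hm) hvw
    | c a =>
      obtain ⟨p, rfl⟩ := F.adj_c huv
      obtain ⟨q, rfl⟩ := F.adj_c huw
      have hpq : p ≠ q := fun h => hvw (by rw [h])
      rw [F.dH_c] at h1 h2
      have hs := F.clause_sides τ hτ a p q hpq (by rw [h1, h2])
      have np := F.rk_lg_ne τ a p
      have nq := F.rk_lg_ne τ a q
      rcases lt_or_gt_of_ne np with h3 | h3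
      · exact iff_of_true (F.cx_lt' τ h3) (F.cx_lt' τ (hs.1 h3))
      · refine iff_of_false (not_lt.2 (F.cx_lt' τ h3).le) ?_
        have h4 : ¬ F.rk τ (.c a) < F.rk τ (F.lg a q) := fun h5 => by
          have := hs.2 h5
          omega
        have h5 : F.rk τ (F.lg a q) < F.rk τ (.c a) := by omega
        exact not_lt.2 (F.cx_lt' τ h5).le
  vport u v w huv huw hvw h1 h2 := by
    cases u with
    | g i j k =>
      rcases F.adj_g huv with ⟨l, rfl, hl⟩ | hl
      · rcases F.adj_g huw with ⟨m, rfl, hm⟩ | hm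
        · rw [F.cy_in, F.cy_in]
          exact L_vport ((F.dH_in τ i j l k).1 h1) ((F.dH_in τ i j m k).1 h2)
            (fun h => hvw (by rw [h]))
        · have hlk := not_GAdj_of_eq hl
          rcases F.vext τ hm h2 (F.rk_lg_ne τ) with ⟨h3, h4⟩ | ⟨h3, h4⟩
          · refine iff_of_false (fun h5 => ?_) (not_lt.2 h3.le)
            have := F.cy_in τ |>.1 h5
            exact absurd (h4 l hlk) (not_lt.2 this.le)
          · exact iff_of_true ((F.cy_in τ).2 (h4 l hlk)) h3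
      · rcases F.adj_g huw with ⟨m, rfl, hm⟩ | hm
        · have hmk := not_GAdj_of_eq hm
          rcases F.vext τ hl h1 (F.rk_lg_ne τ) with ⟨h3, h4⟩ | ⟨h3, h4⟩
          · exact iff_of_true h3 ((F.cy_in τ).2 (h4 m hmk))
          · refine iff_of_false (not_lt.2 h3.le) (fun h5 => ?_)
            have := F.cy_in τ |>.1 h5
            exact absurd (h4 m hmk) (not_lt.2 this.le)
        · exact absurd (F.ext_unique hl hm) hvw
    | c a =>
      obtain ⟨p, rfl⟩ := F.adj_c huv
      obtain ⟨q, rfl⟩ := F.adj_c huw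
      have hpq : p ≠ q := fun h => hvw (by rw [h])
      rw [F.dH_c'] at h1 h2
      have hs := F.clause_sides τ hτ a p q hpq (by rw [h1, h2])
      have np := F.rk_lg_ne τ a p
      have nq := F.rk_lg_ne τ a q
      rcases lt_or_gt_of_ne np with h3 | h3
      · exact iff_of_true (F.cy_lt' τ h3) (F.cy_lt' τ (hs.1 h3))
      · refine iff_of_false (not_lt.2 (F.cy_lt' τ h3).le) ?_
        have h4 : ¬ F.rk τ (.c a) < F.rk τ (F.lg a q) := fun h5 => by
          have := hs.2 h5
          omega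
        have h5 : F.rk τ (F.lg a q) < F.rk τ (.c a) := by omega
        exact not_lt.2 (F.cy_lt' τ h5).le
  cross u v w z huv hwz h1 h2 huw hx hy := by
    rcases lt_trichotomy (F.rk τ u) (F.rk τ w) with h3 | h3 | h3
    · have h4 := F.ge_half_y τ _ _ _ hy
      have h5 := F.cy_lt τ h3
      linarith
    · rcases F.rk_eq τ h3 with ⟨i, j, k, l, rfl, rfl⟩ | h4
      · have hkl : k ≠ l := fun h => huw (by rw [h])
        rcases F.adj_g huv with ⟨m, rfl, hm⟩ | hm
        · rcases F.adj_g hwz with ⟨n, rfl, hn⟩ | hn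
          · exact L_cross ((F.dH_in τ i j k m).1 h1) ((F.dH_in τ i j n l).1 h2) hkl
              (btw_of_mem _ _ _ _ hx) (btw_of_mem _ _ _ _ hy)
          · rcases F.vext τ hn h2 (F.rk_lg_ne τ) with ⟨h5, h6⟩ | ⟨h5, h6⟩
            · have h7 := (F.cy_in τ).2 (h6 k hkl)
              rw [mem_uIcc] at hy
              rcases hy with hy | hy <;> linarith [hy.1, hy.2]
            · have h7 := (F.cy_in τ).2 (h6 k hkl)
              rw [mem_uIcc] at hy
              rcases hy with hy | hy <;> linarith [hy.1, hy.2]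
        · rcases F.hext τ hm h1 (F.rk_lg_ne τ) with ⟨h5, h6⟩ | ⟨h5, h6⟩
          · have h7 := (F.cx_in τ).2 (h6 l hkl.symm)
            rw [mem_uIcc] at hx
            rcases hx with hx | hx <;> linarith [hx.1, hx.2]
          · have h7 := (F.cx_in τ).2 (h6 l hkl.symm)
            rw [mem_uIcc] at hx
            rcases hx with hx | hx <;> linarith [hx.1, hx.2]
      · exact huw h4
    · have h4 := F.ge_half_x τ _ _ _ hx
      have h5 := F.cx_lt τ h3
      linarith

/-- The graph of a formula has a 1-bend SHOPED if and only if the formula is satisfiable. -/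
theorem Nae.hasShoped_iff (F : Nae) : HasShoped F.G ↔ F.Sat := by
  constructor
  · rintro ⟨pos, bend, h⟩
    exact F.sat_of_sys (sysOfShoped h.weak)
  · rintro ⟨τ, hτ⟩
    exact ⟨_, _, (F.sysOf τ hτ).isShoped (F.cx_inj τ) (F.cy_inj τ)⟩

end Pool.Agent.Shoped30
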