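import Pool.Agent.Lib.MP_fb02f1_lc.H30.Word

/-!
# Words encoding graphs, and the language of the decision problem
-/

namespace Pool.Agent.Shoped30

open Classical in
/-- The word of a graph on `{0, …, n - 1}`: the number `n` in unary, a separator, and the rows of
the adjacency matrix. -/
noncomputable def graphWord {n : ℕ} (G : SimpleGraph (Fin n)) : List Bool :=
  List.replicate n true ++
    false :: (List.ofFn fun a => List.ofFn fun b => decide (G.Adj a b)).flatten

/-- The language of the decision problem: the words of the graphs of maximum degree at most `4`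
that admit a 1-bend SHOPED. -/
def ShopedLang : Set (List Bool) :=
  {w | ∃ (n : ℕ) (G : SimpleGraph (Fin n)), w = graphWord G ∧
    (∀ v, (G.neighborSet v).ncard ≤ 4) ∧ HasShoped G}

theorem flatten_inj {α : Type} {n : ℕ} : ∀ {L L' : List (List α)}, (∀ l ∈ L, l.length = n) →
    (∀ l ∈ L', l.length = n) → L.length = L'.length → L.flatten = L'.flatten → L = L'
  | [], [], _, _, _, _ => rfl
  | [], _ :: _, _, _, h, _ => by simp at h
  | _ :: _, [], _, _, h, _ => by simp at h
  | l :: L, l' :: L', h1, h2, h3, h4 => by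
    rw [List.flatten_cons, List.flatten_cons] at h4
    have hl := h1 l (List.mem_cons_self)
    have hl' := h2 l' (List.mem_cons_self)
    obtain ⟨h5, h6⟩ := List.append_inj h4 (hl.trans hl'.symm)
    subst h5
    rw [flatten_inj (fun l hl => h1 l (List.mem_cons_of_mem _ hl))
      (fun l hl => h2 l (List.mem_cons_of_mem _ hl)) (by simpa using h3) h6]

theorem replicate_inj {n n' : ℕ} {l l' : List Bool}
    (h : List.replicate n true ++ false :: l = List.replicate n' true ++ false :: l') :
    n = n' ∧ l = l' := by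
  induction n generalizing n' with
  | zero =>
    cases n' with
    | zero => simpa using h
    | succ n' => simp [List.replicate_succ] at h
  | succ n ih =>
    cases n' with
    | zero => simp [List.replicate_succ] at h
    | succ n' =>
      simp only [List.replicate_succ, List.cons_append, List.cons.injEq, true_and] at h
      obtain ⟨h1, h2⟩ := ih h
      exact ⟨by rw [h1], h2⟩

/-- The word determines the graph. -/
theorem graphWord_injective :
    Function.Injective (fun p : (n : ℕ) × SimpleGraph (Fin n) => graphWord p.2) := by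
  rintro ⟨n, G⟩ ⟨n', G'⟩ h
  dsimp only [graphWord] at h
  obtain ⟨h1, h2⟩ := replicate_inj h
  subst h1
  have h3 := flatten_inj (n := n) (by simp) (by simp) (by simp) h2
  have h4 := List.ofFn_injective h3
  congr 1
  ext a b
  have h5 := List.ofFn_injective (congrFun h4 a)
  have h6 := congrFun h5 b
  simpa using h6

theorem graphWord_mem {n : ℕ} (G : SimpleGraph (Fin n)) : graphWord G ∈ ShopedLang ↔
    ((∀ v, (G.neighborSet v).ncard ≤ 4) ∧ HasShoped G) := by
  constructor
  · rintro ⟨n', G', h, h1, h2⟩
    have h3 := @graphWord_injective ⟨n, G⟩ ⟨n', G'⟩ h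
    injection h3 with h4 h5
    subst h4
    rw [heq_iff_eq] at h5
    subst h5
    exact ⟨h1, h2⟩
  · rintro ⟨h1, h2⟩
    exact ⟨n, G, rfl, h1, h2⟩

/-! ### The graph of a list of clauses -/

/-- The enumeration of the vertices. -/
def vEquiv (N M : ℕ) : Fin (allG N M).length ≃ GV N M :=
  List.Nodup.getEquivOfForallMemList (allG N M) (nodup_allG N M) (mem_allG N M)

/-- The graph of a list of clauses. -/
def gOf (ψ : List Cl3) : SimpleGraph (Fin (allG (bnd ψ) ψ.length).length) :=
  (naeOf ψ).G.comap (vEquiv (bnd ψ) ψ.length)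

theorem gOf_adj (ψ : List Cl3) (a b : Fin (allG (bnd ψ) ψ.length).length) :
    (gOf ψ).Adj a b ↔ (naeOf ψ).G.Adj (vEquiv (bnd ψ) ψ.length a) (vEquiv (bnd ψ) ψ.length b) :=
  Iff.rfl

theorem gOf_hasShoped (ψ : List Cl3) : (SatN ψ → HasShoped (gOf ψ)) ∧
    (HasWeakShoped (gOf ψ) → SatN ψ) := by
  rw [← naeOf_sat]
  constructor
  · rintro ⟨τ, hτ⟩
    let S := ((naeOf ψ).sysOf τ hτ).comap (vEquiv (bnd ψ) ψ.length)
      (vEquiv (bnd ψ) ψ.length).injective (Adj' := (gOf ψ).Adj) (fun u v huv => huv)
    have h := S.isShoped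
      (((naeOf ψ).cx_inj τ).comp (vEquiv (bnd ψ) ψ.length).injective)
      (((naeOf ψ).cy_inj τ).comp (vEquiv (bnd ψ) ψ.length).injective)
    exact ⟨_, _, h⟩
  · rintro ⟨pos, bend, h⟩
    refine (naeOf ψ).sat_of_sys ((sysOfShoped h).comap (vEquiv (bnd ψ) ψ.length).symm
      (vEquiv (bnd ψ) ψ.length).symm.injective (fun u v huv => ?_))
    rw [gOf_adj, Equiv.apply_symm_apply, Equiv.apply_symm_apply]
    exact huv

theorem gOf_degree (ψ : List Cl3) (v : Fin (allG (bnd ψ) ψ.length).length) :
    ((gOf ψ).neighborSet v).ncard ≤ 4 := by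
  have h := (naeOf ψ).degree_le (vEquiv (bnd ψ) ψ.length v)
  have e : (naeOf ψ).G.neighborSet (vEquiv (bnd ψ) ψ.length v) =
      (vEquiv (bnd ψ) ψ.length) '' (gOf ψ).neighborSet v := by
    ext z
    constructor
    · intro hz
      refine ⟨(vEquiv (bnd ψ) ψ.length).symm z, ?_, Equiv.apply_symm_apply _ _⟩
      show (gOf ψ).Adj _ _
      rw [gOf_adj, Equiv.apply_symm_apply]
      exact hz
    · rintro ⟨a, ha, rfl⟩
      exact ha
  have e2 : ((vEquiv (bnd ψ) ψ.length) '' (gOf ψ).neighborSet v).ncard =
      ((gOf ψ).neighborSet v).ncard :=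
    Set.ncard_image_of_injective _ (vEquiv (bnd ψ) ψ.length).injective
  rw [← e2, ← e]
  exact h

/-- The word of the graph of a list of clauses, computed from the list. -/
def wordOf (ψ : List Cl3) : List Bool :=
  List.replicate (allN (bnd ψ) ψ.length).length true ++ false ::
    ((allN (bnd ψ) ψ.length).map fun x => (allN (bnd ψ) ψ.length).map (adjB ψ x)).flatten

theorem graphWord_gOf (ψ : List Cl3) : graphWord (gOf ψ) = wordOf ψ := by
  classical
  unfold graphWord wordOf
  rw [← allG_name, List.length_map]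
  congr 3
  rw [List.map_map, ← List.ofFn_getElem_eq_map]
  congr 1
  funext a
  show _ = List.map (adjB ψ (GV.name _)) _
  rw [List.map_map, ← List.ofFn_getElem_eq_map]
  congr 1
  funext b
  show _ = adjB ψ (GV.name _) (GV.name _)
  rw [Bool.eq_iff_iff, decide_eq_true_iff, adjB_iff]
  rfl

end Pool.Agent.Shoped30
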