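import Pool.Agent.Lib.MP_fb02f1_lc.H30.Tight

/-!
# The twelve-vertex gadget

Vertices `0,1,2,3` and `6,7,8,9` span complete graphs. In every 1-bend SHOPED the free port of `5`
is opposite to the free port of `11`, and the free port of `0` is opposite to that of `6`.
-/

namespace Pool.Agent.Shoped30

open Set

/-- The edges of the gadget, oriented as in the drawing of `Draw.lean`. -/
def gList : List (Fin 12 × Fin 12) :=
  [(0, 1), (2, 0), (0, 3), (1, 2), (1, 3), (3, 2), (6, 7), (8, 6), (6, 9), (7, 8), (7, 9), (9, 8),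
    (4, 1), (2, 4), (5, 4), (4, 11), (3, 5), (10, 5), (11, 10), (9, 11), (10, 7), (8, 10)]

/-- The adjacency test of the gadget. -/
def gE (u v : Fin 12) : Bool := gList.contains (u, v) || gList.contains (v, u)

/-- The adjacency of the gadget. -/
abbrev GAdj : Fin 12 → Fin 12 → Prop := fun u v => gE u v = true

theorem gE_symm : ∀ u v, gE u v = gE v u := by decide

section symmetries

variable {V : Type} {Adj : V → V → Prop}

theorem neg_mem_uIcc {a b c : ℝ} : -c ∈ uIcc (-a) ((-a + -b) / 2) ↔ c ∈ uIcc a ((a + b) / 2) := by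
  rw [mem_uIcc, mem_uIcc]
  constructor <;> rintro (⟨h1, h2⟩ | ⟨h1, h2⟩)
  · exact Or.inr ⟨by linarith, by linarith⟩
  · exact Or.inl ⟨by linarith, by linarith⟩
  · exact Or.inr ⟨by linarith, by linarith⟩
  · exact Or.inl ⟨by linarith, by linarith⟩

theorem flip_iff {a b c : ℝ} (h : b < a ↔ a < c) (e1 : a ≠ b) (e2 : a ≠ c) :
    -b < -a ↔ -a < -c := by
  rw [neg_lt_neg_iff, neg_lt_neg_iff]
  constructor
  · intro h6
    by_contra h7
    have h8 : a < c := lt_of_le_of_ne (not_lt.1 h7) e2
    exact absurd (h.2 h8) (not_lt.2 h6.le)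
  · intro h6
    by_contra h7
    have h8 : b < a := lt_of_le_of_ne (not_lt.1 h7) (Ne.symm e1)
    exact absurd (h.1 h8) (not_lt.2 h6.le)

/-- Reflection in a vertical line. -/
def Sys.reflX (S : Sys V Adj) : Sys V Adj where
  x u := - S.x u
  y := S.y
  H := S.H
  excl := S.excl
  xne u v h := fun h' => S.xne u v h (neg_injective h')
  yne := S.yne
  hport u v w h1 h2 h3 h4 h5 :=
    flip_iff (S.hport u v w h1 h2 h3 h4 h5) (S.xne u v h1) (S.xne u w h2)
  vport := S.vport
  cross u v w z h1 h2 h3 h4 h5 h6 h7 :=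
    S.cross u v w z h1 h2 h3 h4 h5 (neg_mem_uIcc.1 h6) h7

/-- Reflection in a horizontal line. -/
def Sys.reflY (S : Sys V Adj) : Sys V Adj where
  x := S.x
  y u := - S.y u
  H := S.H
  excl := S.excl
  xne := S.xne
  yne u v h := fun h' => S.yne u v h (neg_injective h')
  hport := S.hport
  vport u v w h1 h2 h3 h4 h5 :=
    flip_iff (S.vport u v w h1 h2 h3 h4 h5) (S.yne u v h1) (S.yne u w h2)
  cross u v w z h1 h2 h3 h4 h5 h6 h7 :=
    S.cross u v w z h1 h2 h3 h4 h5 h6 (neg_mem_uIcc.1 h7)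

/-- Reflection in a diagonal. -/
def Sys.transp (S : Sys V Adj) (hs : ∀ u v, Adj u v → Adj v u) : Sys V Adj where
  x := S.y
  y := S.x
  H u v := S.H v u
  excl u v h := S.excl v u (hs u v h)
  xne := S.yne
  yne := S.xne
  hport u v w h1 h2 h3 h4 h5 := S.vport u v w h1 h2 h3 h4 h5
  vport u v w h1 h2 h3 h4 h5 := S.hport u v w h1 h2 h3 h4 h5
  cross u v w z h1 h2 h3 h4 h5 h6 h7 :=
    S.cross w z u v h2 h1 h4 h3 (Ne.symm h5) h7 h6

/-- Restriction along an injective map that preserves edges. -/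
def Sys.comap {W : Type} {Adj' : W → W → Prop} (S : Sys V Adj) (g : W → V)
    (hg : Function.Injective g) (ha : ∀ u v, Adj' u v → Adj (g u) (g v)) : Sys W Adj' where
  x u := S.x (g u)
  y u := S.y (g u)
  H u v := S.H (g u) (g v)
  excl u v h := S.excl _ _ (ha u v h)
  xne u v h := S.xne _ _ (ha u v h)
  yne u v h := S.yne _ _ (ha u v h)
  hport u v w h1 h2 h3 h4 h5 := S.hport _ _ _ (ha _ _ h1) (ha _ _ h2) (hg.ne h3) h4 h5
  vport u v w h1 h2 h3 h4 h5 := S.vport _ _ _ (ha _ _ h1) (ha _ _ h2) (hg.ne h3) h4 h5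
  cross u v w z h1 h2 h3 h4 h5 h6 h7 :=
    S.cross _ _ _ _ (ha _ _ h1) (ha _ _ h2) h3 h4 (hg.ne h5) h6 h7

end symmetries

/-- Reflection of directions in a vertical line. -/
def Dir.flipX : Dir → Dir
  | .left => .right
  | .right => .left
  | .up => .up
  | .down => .down

/-- Reflection of directions in a horizontal line. -/
def Dir.flipY : Dir → Dir
  | .left => .left
  | .right => .right
  | .up => .down
  | .down => .up

/-- Reflection of directions in a diagonal. -/
def Dir.swap : Dir → Dir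
  | .left => .down
  | .right => .up
  | .up => .right
  | .down => .left

/-- Horizontal directions. -/
def Dir.hor : Dir → Prop
  | .left => True
  | .right => True
  | .up => False
  | .down => False

/-- The systems on the gadget. -/
abbrev GSys := Sys (Fin 12) GAdj

/-- The port `d` of `v` is not used inside the gadget. -/
def Free (S : GSys) (d : Dir) (v : Fin 12) : Prop := ∀ w, ¬ S.P d v w

theorem P_reflX {V : Type} {Adj : V → V → Prop} (S : Sys V Adj) (d : Dir) (u w : V) :
    S.reflX.P d u w ↔ S.P d.flipX u w := by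
  cases d <;> simp [Sys.P, Sys.reflX, Dir.flipX]

theorem P_reflY {V : Type} {Adj : V → V → Prop} (S : Sys V Adj) (d : Dir) (u w : V) :
    S.reflY.P d u w ↔ S.P d.flipY u w := by
  cases d <;> simp [Sys.P, Sys.reflY, Dir.flipY]

theorem P_transp {V : Type} {Adj : V → V → Prop} (S : Sys V Adj) (hs : ∀ u v, Adj u v → Adj v u)
    (d : Dir) (u w : V) :
    (S.transp hs).P d u w ↔ S.P d.swap u w := by
  cases d <;> simp [Sys.P, Sys.transp, Dir.swap]

/-- The statement about the free ports of the gadget. -/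
def Concl (S : GSys) : Prop := ∃ t : Prop, (∀ d, Free S d 5 → (d.hor ↔ t)) ∧
  (∀ d, Free S d 11 → (d.hor ↔ t)) ∧ (∀ d, Free S d 0 → (d.hor ↔ ¬ t)) ∧
  (∀ d, Free S d 6 → (d.hor ↔ ¬ t))

theorem concl_reflX {S : GSys} (h : Concl S.reflX) : Concl S := by
  obtain ⟨t, h1, h2, h3, h4⟩ := h
  have key : ∀ d v, Free S d v → Free S.reflX d.flipX v := by
    intro d v hf w hP
    rw [P_reflX] at hP
    refine hf w ?_
    cases d <;> exact hP
  have hh : ∀ d : Dir, d.flipX.hor ↔ d.hor := by intro d; cases d <;> rfl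
  exact ⟨t, fun d hd => (hh d).symm.trans (h1 _ (key d _ hd)),
    fun d hd => (hh d).symm.trans (h2 _ (key d _ hd)),
    fun d hd => (hh d).symm.trans (h3 _ (key d _ hd)),
    fun d hd => (hh d).symm.trans (h4 _ (key d _ hd))⟩

theorem concl_reflY {S : GSys} (h : Concl S.reflY) : Concl S := by
  obtain ⟨t, h1, h2, h3, h4⟩ := h
  have key : ∀ d v, Free S d v → Free S.reflY d.flipY v := by
    intro d v hf w hP
    rw [P_reflY] at hP
    refine hf w ?_
    cases d <;> exact hP
  have hh : ∀ d : Dir, d.flipY.hor ↔ d.hor := by intro d; cases d <;> rfl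
  exact ⟨t, fun d hd => (hh d).symm.trans (h1 _ (key d _ hd)),
    fun d hd => (hh d).symm.trans (h2 _ (key d _ hd)),
    fun d hd => (hh d).symm.trans (h3 _ (key d _ hd)),
    fun d hd => (hh d).symm.trans (h4 _ (key d _ hd))⟩

theorem gsymm : ∀ u v : Fin 12, GAdj u v → GAdj v u := by
  intro u v h
  rwa [GAdj, gE_symm]

theorem concl_transp {S : GSys} (h : Concl (S.transp gsymm)) : Concl S := by
  obtain ⟨t, h1, h2, h3, h4⟩ := h
  have key : ∀ d v, Free S d v → Free (S.transp gsymm) d.swap v := by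
    intro d v hf w hP
    rw [P_transp] at hP
    refine hf w ?_
    cases d <;> exact hP
  have hh : ∀ d : Dir, d.hor ↔ ¬ d.swap.hor := by
    intro d; cases d <;> simp [Dir.hor, Dir.swap]
  exact ⟨¬ t, fun d hd => (hh d).trans (not_congr (h1 _ (key d _ hd))),
    fun d hd => (hh d).trans (not_congr (h2 _ (key d _ hd))),
    fun d hd => (hh d).trans (not_congr (h3 _ (key d _ hd))),
    fun d hd => (hh d).trans (not_congr (h4 _ (key d _ hd)))⟩

/-- The involution of the gadget. -/
def inv12 (u : Fin 12) : Fin 12 := u + 6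

theorem inv12_inj : Function.Injective inv12 := by decide

theorem inv12_adj : ∀ u v, GAdj u v → GAdj (inv12 u) (inv12 v) := by decide

theorem inv12_inv12 : ∀ u, inv12 (inv12 u) = u := by decide

theorem concl_inv {S : GSys} (h : Concl (S.comap inv12 inv12_inj inv12_adj)) : Concl S := by
  obtain ⟨t, h1, h2, h3, h4⟩ := h
  have key : ∀ d v, Free S d (inv12 v) → Free (S.comap inv12 inv12_inj inv12_adj) d v := by
    intro d v hf w hP
    have hw := hf (inv12 w)
    have ha : GAdj (inv12 v) (inv12 w) := inv12_adj _ _ hP.adj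
    cases d <;> exact hw ⟨ha, hP.2⟩
  exact ⟨t, fun d hd => h2 d (key d 11 hd), fun d hd => h1 d (key d 5 hd),
    fun d hd => h4 d (key d 6 hd), fun d hd => h3 d (key d 0 hd)⟩

theorem Sys.extreme (S : GSys) (T : Finset (Fin 12))
    (hT : 4 * T.card ≤ (∑ v ∈ T, (T.filter (GAdj v)).card) + 4) {d : Dir} {v z : Fin 12}
    (hP : S.P d v z) (hv : v ∈ T) (hz : z ∉ T) {u : Fin 12} (hu : u ∈ T) (huv : u ≠ v) :
    S.f d v < S.f d u :=
  S.tight T hT hv (fun w hw hP' => hz (by rw [S.P_unique hP hP']; exact hw)) hu huv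

/-- The tight set `{0,...,5}`. -/
def TA : Finset (Fin 12) := {0, 1, 2, 3, 4, 5}
/-- The tight set `{0,...,4}`. -/
def TB : Finset (Fin 12) := {0, 1, 2, 3, 4}
/-- The tight set `{6,...,11}`. -/
def TA' : Finset (Fin 12) := {6, 7, 8, 9, 10, 11}
/-- The tight set `{6,...,10}`. -/
def TB' : Finset (Fin 12) := {6, 7, 8, 9, 10}

theorem tTA : 4 * TA.card ≤ (∑ v ∈ TA, (TA.filter (GAdj v)).card) + 4 := by decide
theorem tTB : 4 * TB.card ≤ (∑ v ∈ TB, (TB.filter (GAdj v)).card) + 4 := by decide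
theorem tTA' : 4 * TA'.card ≤ (∑ v ∈ TA', (TA'.filter (GAdj v)).card) + 4 := by decide
theorem tTB' : 4 * TB'.card ≤ (∑ v ∈ TB', (TB'.filter (GAdj v)).card) + 4 := by decide

end Pool.Agent.Shoped30
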