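import Pool.Agent.Lib.MP_fb02f1_lc.H30.Gadget

/-!
# The forced pairing of the free ports of the gadget
-/

namespace Pool.Agent.Shoped30

open Set

section

variable {V : Type} {Adj : V → V → Prop}

theorem Sys.P_dir_unique (S : Sys V Adj) {d d' : Dir} {u w : V} (h : S.P d u w)
    (h' : S.P d' u w) : d = d' := by
  have h0 := S.excl u w h.adj
  cases d <;> cases d' <;> simp only [Sys.P] at h h' ⊢ <;>
    first
    | rfl
    | exact absurd h'.2.1 (h0.1 h.2.1)
    | exact absurd h.2.1 (h0.1 h'.2.1)
    | linarith [h.2.2, h'.2.2]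

theorem Sys.hor_of_H (S : Sys V Adj) {u v : V} (h : Adj u v) (hH : S.H u v) :
    S.P .left u v ∨ S.P .right u v := by
  rcases lt_or_gt_of_ne (S.xne u v h) with h3 | h3
  · exact Or.inr ⟨h, hH, h3⟩
  · exact Or.inl ⟨h, hH, h3⟩

theorem Sys.vert_of_H (S : Sys V Adj) {u v : V} (h : Adj v u) (hH : S.H u v) :
    S.P .up v u ∨ S.P .down v u := by
  rcases lt_or_gt_of_ne (S.yne v u h) with h3 | h3
  · exact Or.inl ⟨h, hH, h3⟩
  · exact Or.inr ⟨h, hH, h3⟩

end

/-- The port `d` of `v` is not used inside `T`. -/
def Ext (S : GSys) (T : Finset (Fin 12)) (d : Dir) (v : Fin 12) : Prop := ∀ w ∈ T, ¬ S.P d v w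

theorem ext_of_P {S : GSys} {T : Finset (Fin 12)} {d : Dir} {v z : Fin 12} (h : S.P d v z)
    (hz : z ∉ T) : Ext S T d v :=
  fun w hw hP' => hz (by rw [S.P_unique h hP']; exact hw)

theorem ext_of_free {S : GSys} {T : Finset (Fin 12)} {d : Dir} {v : Fin 12} (h : Free S d v) :
    Ext S T d v := fun w _ => h w

theorem clash {S : GSys} {T : Finset (Fin 12)}
    (hT : 4 * T.card ≤ (∑ v ∈ T, (T.filter (GAdj v)).card) + 4) {d : Dir} {v v' : Fin 12}
    (h : Ext S T d v) (h' : Ext S T d v') (hv : v ∈ T) (hv' : v' ∈ T) (hne : v ≠ v') : False :=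
  lt_asymm (S.tight T hT hv h hv' hne.symm) (S.tight T hT hv' h' hv hne)

theorem clashLR {S : GSys} {T : Finset (Fin 12)}
    (hT : 4 * T.card ≤ (∑ v ∈ T, (T.filter (GAdj v)).card) + 4) {v u : Fin 12}
    (h : Ext S T .left v) (h' : Ext S T .right v) (hv : v ∈ T) (hu : u ∈ T) (hne : u ≠ v) :
    False := by
  have h1 := S.tight T hT hv h hu hne
  have h2 := S.tight T hT hv h' hu hne
  simp only [Sys.f] at h1 h2
  linarith

theorem clashUD {S : GSys} {T : Finset (Fin 12)}
    (hT : 4 * T.card ≤ (∑ v ∈ T, (T.filter (GAdj v)).card) + 4) {v u : Fin 12}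
    (h : Ext S T .up v) (h' : Ext S T .down v) (hv : v ∈ T) (hu : u ∈ T) (hne : u ≠ v) :
    False := by
  have h1 := S.tight T hT hv h hu hne
  have h2 := S.tight T hT hv h' hu hne
  simp only [Sys.f] at h1 h2
  linarith

theorem exists_free (S : GSys) (v : Fin 12)
    (h : (Finset.univ.filter (GAdj v)).card ≤ 3) : ∃ d, Free S d v := by
  by_contra hcon
  have hcon' : ∀ d, ∃ w, S.P d v w := by
    intro d
    by_contra h1
    exact hcon ⟨d, fun w hw => h1 ⟨w, hw⟩⟩
  choose g hg using hcon'
  have h4 : Fintype.card Dir ≤ (Finset.univ.filter (GAdj v)).card := by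
    rw [← Finset.card_univ]
    refine Finset.card_le_card_of_injOn g ?_ ?_
    · intro d _
      rw [Finset.mem_coe, Finset.mem_filter]
      exact ⟨Finset.mem_univ _, (hg d).adj⟩
    · intro d _ d' _ hE
      have h1 := hg d
      rw [hE] at h1
      exact S.P_dir_unique h1 (hg d')
  have h5 : Fintype.card Dir = 4 := rfl
  omega

/-- The crossing argument. -/
theorem caseI (S : GSys) (h1 : S.P .left 5 10) (h2 : S.P .right 4 11) (h3 : S.P .up 4 5) :
    False := by
  have x105 : S.x 10 < S.x 5 := h1.2.2
  have x411 : S.x 4 < S.x 11 := h2.2.2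
  have y45 : S.y 4 < S.y 5 := h3.2.2
  have x54 : S.x 5 < S.x 4 := S.extreme TA tTA h1 (by decide) (by decide) (by decide) (by decide)
  have H54 : S.H 5 4 := h3.2.1
  have P54 : S.P .right 5 4 := ⟨by decide, H54, x54⟩
  have y34 : S.y 3 < S.y 4 := by
    have := S.extreme TB tTB h3 (by decide) (by decide) (u := 3) (by decide) (by decide)
    simp only [Sys.f] at this
    linarith
  -- the edge 3-5
  have H35 : S.H 3 5 := by
    obtain ⟨d, hd⟩ := S.exists_P (u := 5) (w := 3) (by decide)
    cases d
    · exact absurd (S.P_unique hd h1) (by decide)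
    · exact absurd (S.P_unique hd P54) (by decide)
    · exact hd.2.1
    · exact hd.2.1
  -- the set TA'
  have P105 : S.P .up 10 5 ∧ S.P .down 11 4 := by
    rcases S.vert_of_H (u := 5) (v := 10) (by decide) h1.2.1 with h4 | h4 <;>
      rcases S.vert_of_H (u := 4) (v := 11) (by decide) h2.2.1 with h5 | h5
    · exact (clash tTA' (ext_of_P h4 (by decide)) (ext_of_P h5 (by decide)) (by decide)
        (by decide) (by decide)).elim
    · exact ⟨h4, h5⟩
    · exfalso
      have h6 := S.extreme TA' tTA' h4 (by decide) (by decide) (u := 11) (by decide) (by decide)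
      have h7 : S.y 5 < S.y 10 := h4.2.2
      have h8 : S.y 11 < S.y 4 := h5.2.2
      simp only [Sys.f] at h6
      linarith
    · exact (clash tTA' (ext_of_P h4 (by decide)) (ext_of_P h5 (by decide)) (by decide)
        (by decide) (by decide)).elim
  obtain ⟨h4, h5⟩ := P105
  have y105 : S.y 10 < S.y 5 := h4.2.2
  have y411 : S.y 4 < S.y 11 := h5.2.2
  have y1110 : S.y 11 < S.y 10 := by
    have := S.extreme TA' tTA' h4 (by decide) (by decide) (u := 11) (by decide) (by decide)
    simp only [Sys.f] at this
    linarith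
  -- the edge 10-11
  have h6 : S.P .right 10 11 := by
    obtain ⟨d, hd⟩ := S.exists_P (u := 10) (w := 11) (by decide)
    cases d
    · have : S.x 11 < S.x 10 := hd.2.2
      linarith
    · exact hd
    · exact absurd (S.P_unique hd h4) (by decide)
    · exact (clashUD tTB' (u := 6) (ext_of_P h4 (by decide)) (ext_of_P hd (by decide))
        (by decide) (by decide) (by decide)).elim
  have x910 : S.x 9 < S.x 10 := by
    have := S.extreme TB' tTB' h6 (by decide) (by decide) (u := 9) (by decide) (by decide)
    simp only [Sys.f] at this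
    linarith
  have h7 : S.P .up 11 10 := by
    rcases S.vert_of_H (u := 10) (v := 11) (by decide) h6.2.1 with h7 | h7
    · exact h7
    · exact absurd (S.P_unique h7 h5) (by decide)
  have h8 : S.P .left 11 9 := by
    obtain ⟨d, hd⟩ := S.exists_P (u := 11) (w := 9) (by decide)
    cases d
    · exact hd
    · have : S.x 11 < S.x 9 := hd.2.2
      linarith [h6.2.2]
    · exact absurd (S.P_unique hd h7) (by decide)
    · exact absurd (S.P_unique hd h5) (by decide)
  -- the four crossings
  have C1 := S.cross 10 11 5 3 (by decide) (by decide) h6.2.1 H35 (by decide)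
  have C2 := S.cross 10 11 4 5 (by decide) (by decide) h6.2.1 H54 (by decide)
  have C3 := S.cross 11 9 4 5 (by decide) (by decide) h8.2.1 H54 (by decide)
  have C4 := S.cross 11 9 5 3 (by decide) (by decide) h8.2.1 H35 (by decide)
  have D1 : S.x 5 ≤ (S.x 10 + S.x 11) / 2 → S.y 10 < (S.y 5 + S.y 3) / 2 := by
    intro h
    by_contra h'
    rw [not_lt] at h'
    exact C1 (mem_uIcc.2 (Or.inl ⟨x105.le, h⟩)) (mem_uIcc.2 (Or.inr ⟨h', y105.le⟩))
  have D2 : S.x 4 ≤ (S.x 10 + S.x 11) / 2 → (S.y 4 + S.y 5) / 2 < S.y 10 := by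
    intro h
    by_contra h'
    rw [not_lt] at h'
    exact C2 (mem_uIcc.2 (Or.inl ⟨by linarith, h⟩)) (mem_uIcc.2 (Or.inl ⟨by linarith, h'⟩))
  have D3 : (S.x 11 + S.x 9) / 2 ≤ S.x 4 → (S.y 4 + S.y 5) / 2 < S.y 11 := by
    intro h
    by_contra h'
    rw [not_lt] at h'
    exact C3 (mem_uIcc.2 (Or.inr ⟨h, by linarith⟩)) (mem_uIcc.2 (Or.inl ⟨by linarith, h'⟩))
  have D4 : (S.x 11 + S.x 9) / 2 ≤ S.x 5 → S.y 11 < (S.y 5 + S.y 3) / 2 := by
    intro h
    by_contra h'
    rw [not_lt] at h'
    exact C4 (mem_uIcc.2 (Or.inr ⟨h, by linarith⟩)) (mem_uIcc.2 (Or.inr ⟨h', by linarith⟩))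
  by_cases c1 : S.x 5 ≤ (S.x 10 + S.x 11) / 2
  · have e1 := D1 c1
    by_cases c2 : S.x 4 ≤ (S.x 10 + S.x 11) / 2
    · have e2 := D2 c2
      linarith
    · have e3 := D3 (by linarith)
      linarith
  · have e4 := D4 (by linarith)
    have e3 := D3 (by linarith)
    linarith

/-- The diagonal case. -/
theorem caseIII (S : GSys) (h1 : S.P .left 5 10) (h2 : S.P .right 11 4) (h3 : S.P .up 10 5)
    (h4 : S.P .down 4 11) : Concl S := by
  have n5 : ∀ d, Free S d 5 → ¬ d.hor := by
    intro d hd
    cases d
    · exact absurd h1 (hd 10)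
    · exact (clashLR tTA (u := 0) (ext_of_P h1 (by decide)) (ext_of_free hd) (by decide)
        (by decide) (by decide)).elim
    · exact fun h => h
    · exact fun h => h
  have n11 : ∀ d, Free S d 11 → ¬ d.hor := by
    intro d hd
    cases d
    · exact (clashLR tTA' (u := 6) (ext_of_free hd) (ext_of_P h2 (by decide)) (by decide)
        (by decide) (by decide)).elim
    · exact absurd h2 (hd 4)
    · exact fun h => h
    · exact fun h => h
  have u5 : Free S .up 5 := by
    obtain ⟨d, hd⟩ := exists_free S 5 (by decide)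
    have := n5 d hd
    cases d
    · exact absurd trivial this
    · exact absurd trivial this
    · exact hd
    · exact (clash tTA (ext_of_free hd) (ext_of_P h4 (by decide)) (by decide) (by decide)
        (by decide)).elim
  have d11 : Free S .down 11 := by
    obtain ⟨d, hd⟩ := exists_free S 11 (by decide)
    have := n11 d hd
    cases d
    · exact absurd trivial this
    · exact absurd trivial this
    · exact (clash tTA' (ext_of_free hd) (ext_of_P h3 (by decide)) (by decide) (by decide)
        (by decide)).elim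
    · exact hd
  refine ⟨False, fun d hd => iff_of_false (n5 d hd) id, fun d hd => iff_of_false (n11 d hd) id,
    fun d hd => iff_of_true ?_ id, fun d hd => iff_of_true ?_ id⟩
  · cases d
    · trivial
    · trivial
    · exact (clash tTA (ext_of_free hd) (ext_of_free u5) (by decide) (by decide)
        (by decide)).elim
    · exact (clash tTA (ext_of_free hd) (ext_of_P h4 (by decide)) (by decide) (by decide)
        (by decide)).elim
  · cases d
    · trivial
    · trivial
    · exact (clash tTA' (ext_of_free hd) (ext_of_P h3 (by decide)) (by decide) (by decide)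
        (by decide)).elim
    · exact (clash tTA' (ext_of_free hd) (ext_of_free d11) (by decide) (by decide)
        (by decide)).elim

/-- Both edges leave the set `TA` horizontally: impossible. -/
theorem case_same (S : GSys) (h1 : S.H 5 10) (h2 : S.H 4 11) : False := by
  -- reflect so that the direction of 5-10 is left
  have key : ∀ S : GSys, S.P .left 5 10 → S.H 4 11 → False := by
    intro S h1 h2
    rcases S.hor_of_H (u := 4) (v := 11) (by decide) h2 with h3 | h3
    · exact clash tTA (ext_of_P h1 (by decide)) (ext_of_P h3 (by decide)) (by decide)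
        (by decide) (by decide)
    · obtain ⟨d, hd⟩ := S.exists_P (u := 4) (w := 5) (by decide)
      cases d
      · exact clashLR tTB (u := 0) (ext_of_P hd (by decide)) (ext_of_P h3 (by decide))
          (by decide) (by decide) (by decide)
      · exact absurd (S.P_unique hd h3) (by decide)
      · exact caseI S h1 h3 hd
      · exact caseI S.reflY ((P_reflY S .left 5 10).2 h1) ((P_reflY S .right 4 11).2 h3)
          ((P_reflY S .up 4 5).2 hd)
  rcases S.hor_of_H (u := 5) (v := 10) (by decide) h1 with h3 | h3
  · exact key S h3 h2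
  · exact key S.reflX ((P_reflX S .left 5 10).2 h3) h2

/-- One edge in each direction, the edge `5-10` leaving `5` horizontally. -/
theorem case_diff (S : GSys) (h1 : S.H 5 10) (h2 : S.H 11 4) : Concl S := by
  have key : ∀ S : GSys, S.P .left 5 10 → S.H 11 4 → Concl S := by
    intro S h1 h2
    have h5 : S.P .right 11 4 := by
      rcases S.hor_of_H (u := 11) (v := 4) (by decide) h2 with h3 | h3
      · exfalso
        have e1 : S.x 10 < S.x 5 := h1.2.2
        have e2 := S.extreme TA tTA h1 (by decide) (by decide) (u := 4) (by decide) (by decide)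
        have e3 : S.x 4 < S.x 11 := h3.2.2
        have e4 := S.extreme TA' tTA' h3 (by decide) (by decide) (u := 10) (by decide)
          (by decide)
        simp only [Sys.f] at e2 e4
        linarith
      · exact h3
    have key2 : ∀ S : GSys, S.P .left 5 10 → S.P .right 11 4 → S.P .up 10 5 → Concl S := by
      intro S h1 h5 h3
      rcases S.vert_of_H (u := 11) (v := 4) (by decide) h5.2.1 with h6 | h6
      · exfalso
        have e1 : S.y 10 < S.y 5 := h3.2.2
        have e2 := S.extreme TA' tTA' h3 (by decide) (by decide) (u := 11) (by decide)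
          (by decide)
        have e3 : S.y 4 < S.y 11 := h6.2.2
        have e4 := S.extreme TA tTA h6 (by decide) (by decide) (u := 5) (by decide) (by decide)
        simp only [Sys.f] at e2 e4
        linarith
      · exact caseIII S h1 h5 h3 h6
    rcases S.vert_of_H (u := 5) (v := 10) (by decide) h1.2.1 with h3 | h3
    · exact key2 S h1 h5 h3
    · exact concl_reflY (key2 S.reflY ((P_reflY S .left 5 10).2 h1)
        ((P_reflY S .right 11 4).2 h5) ((P_reflY S .up 10 5).2 h3))
  rcases S.hor_of_H (u := 5) (v := 10) (by decide) h1 with h3 | h3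
  · exact key S h3 h2
  · exact concl_reflX (key S.reflX ((P_reflX S .left 5 10).2 h3) h2)

/-- In every system on the gadget, the free ports of `5` and `11` have the same type, which is
opposite to the type of the free ports of `0` and `6`. -/
theorem gadget_concl (S : GSys) : Concl S := by
  have e1 := S.excl 5 10 (by decide)
  have e2 := S.excl 4 11 (by decide)
  by_cases h1 : S.H 5 10
  · by_cases h2 : S.H 4 11
    · exact (case_same S h1 h2).elim
    · have h3 : S.H 11 4 := by
        by_contra h4
        exact h2 (e2.2 h4)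
      exact case_diff S h1 h3
  · have h1' : S.H 10 5 := by
      by_contra h4
      exact h1 (e1.2 h4)
    by_cases h2 : S.H 4 11
    · refine concl_transp (case_diff (S.transp gsymm) h1' h2)
    · have h3 : S.H 11 4 := by
        by_contra h4
        exact h2 (e2.2 h4)
      exact (case_same (S.comap inv12 inv12_inj inv12_adj) h3 h1').elim

end Pool.Agent.Shoped30
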