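import Pool.Agent.Lib.MP_fb02f1_lc.H30.Defs

/-!
# From drawings to coordinates and back
-/

namespace Pool.Agent.Shoped30

open Set

variable {V : Type}

/-- The combinatorial and metric content of a 1-bend SHOPED: `H u v` says that the edge `uv`
leaves `u` horizontally. -/
structure Sys (V : Type) (Adj : V → V → Prop) where
  x : V → ℝ
  y : V → ℝ
  H : V → V → Prop
  excl : ∀ u v, Adj u v → (H u v ↔ ¬ H v u)
  xne : ∀ u v, Adj u v → x u ≠ x v
  yne : ∀ u v, Adj u v → y u ≠ y v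
  hport : ∀ u v w, Adj u v → Adj u w → v ≠ w → H u v → H u w → (x v < x u ↔ x u < x w)
  vport : ∀ u v w, Adj u v → Adj u w → v ≠ w → H v u → H w u → (y v < y u ↔ y u < y w)
  cross : ∀ u v w z, Adj u v → Adj w z → H u v → H z w → u ≠ w →
    x w ∈ uIcc (x u) ((x u + x v) / 2) → y u ∈ uIcc (y w) ((y w + y z) / 2) → False

theorem mem_seg_h (a b c : ℝ) (p : ℝ × ℝ) :
    p ∈ segment ℝ (a, c) (b, c) ↔ p.2 = c ∧ p.1 ∈ uIcc a b := by
  rw [← Prod.image_mk_segment_left, segment_eq_uIcc]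
  constructor
  · rintro ⟨t, ht, rfl⟩; exact ⟨rfl, ht⟩
  · rintro ⟨h1, h2⟩; exact ⟨p.1, h2, by rw [← h1]⟩

theorem mem_seg_v (a b c : ℝ) (p : ℝ × ℝ) :
    p ∈ segment ℝ (c, a) (c, b) ↔ p.1 = c ∧ p.2 ∈ uIcc a b := by
  rw [← Prod.image_mk_segment_right, segment_eq_uIcc]
  constructor
  · rintro ⟨t, ht, rfl⟩; exact ⟨rfl, ht⟩
  · rintro ⟨h1, h2⟩; exact ⟨p.2, h2, by rw [← h1]⟩

theorem mem_oseg_h {a b c : ℝ} (hab : a ≠ b) (p : ℝ × ℝ) :
    p ∈ openSegment ℝ (a, c) (b, c) ↔ p.2 = c ∧ p.1 ∈ Ioo (min a b) (max a b) := by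
  rw [← Prod.image_mk_openSegment_left, openSegment_eq_Ioo' hab]
  constructor
  · rintro ⟨t, ht, rfl⟩; exact ⟨rfl, ht⟩
  · rintro ⟨h1, h2⟩; exact ⟨p.1, h2, by rw [← h1]⟩

theorem mem_oseg_v {a b c : ℝ} (hab : a ≠ b) (p : ℝ × ℝ) :
    p ∈ openSegment ℝ (c, a) (c, b) ↔ p.1 = c ∧ p.2 ∈ Ioo (min a b) (max a b) := by
  rw [← Prod.image_mk_openSegment_right, openSegment_eq_Ioo' hab]
  constructor
  · rintro ⟨t, ht, rfl⟩; exact ⟨rfl, ht⟩
  · rintro ⟨h1, h2⟩; exact ⟨p.2, h2, by rw [← h1]⟩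

/-- The coordinates of a 1-bend SHOPED. -/
def sysOfShoped {G : SimpleGraph V} {pos : V → ℝ × ℝ} {bend : V → V → ℝ × ℝ}
    (h : IsWeakShoped G pos bend) : Sys V G.Adj where
  x u := (pos u).1
  y u := (pos u).2
  H u v := (bend u v).2 = (pos u).2
  excl u v huv := by
    have h1 := h.horiz_vert u v huv
    have h2 := h.bend_ne u v huv
    have h3 := h.bend_symm u v huv
    rw [← h3]
    rcases h1 with ⟨h4, h5⟩ | ⟨h4, h5⟩
    · simp only [h4, true_iff]
      intro h6
      exact h2.2 (Prod.ext h5 (h4.trans h6))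
    · simp only [h5, not_true, iff_false]
      intro h6
      exact h2.1 (Prod.ext h4 (h5.trans h6))
  xne u v huv := by
    have h1 := h.horiz_vert u v huv
    have h2 := h.bend_ne u v huv
    intro hx
    rcases h1 with ⟨h4, h5⟩ | ⟨h4, h5⟩
    · exact h2.1 (Prod.ext (h5.trans hx.symm) h4)
    · exact h2.2 (Prod.ext (h4.trans hx) h5)
  yne u v huv := by
    have h1 := h.horiz_vert u v huv
    have h2 := h.bend_ne u v huv
    intro hy
    rcases h1 with ⟨h4, h5⟩ | ⟨h4, h5⟩
    · exact h2.2 (Prod.ext h5 (h4.trans hy))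
    · exact h2.1 (Prod.ext h4 (h5.trans hy.symm))
  hport u v w huv huw hvw h1 h2 := by
    have hb : ∀ v, G.Adj u v → (bend u v).2 = (pos u).2 → (bend u v).1 = (pos v).1 ∧
        (bend u v).1 ≠ (pos u).1 := by
      intro v huv h1
      have h4 := h.bend_ne u v huv
      rcases h.horiz_vert u v huv with ⟨h5, h6⟩ | ⟨h5, h6⟩
      · exact ⟨h6, fun h7 => h4.1 (Prod.ext h7 h5)⟩
      · exact absurd (Prod.ext h5 h1) h4.1
    obtain ⟨hv, hv'⟩ := hb v huv h1
    obtain ⟨hw, hw'⟩ := hb w huw h2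
    rw [← hv, ← hw]
    constructor
    · intro h3
      have := h.directions u v w huv huw hvw .left ⟨h3, h1⟩
      simp only [InDir, h2, and_true, not_lt] at this
      exact lt_of_le_of_ne this (Ne.symm hw')
    · intro h3
      have := h.directions u w v huw huv hvw.symm .right ⟨h3, h2⟩
      simp only [InDir, h1, and_true, not_lt] at this
      exact lt_of_le_of_ne this hv'
  vport u v w huv huw hvw h1 h2 := by
    have hb : ∀ v, G.Adj u v → (bend v u).2 = (pos v).2 → (bend u v).2 = (pos v).2 ∧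
        (bend u v).1 = (pos u).1 ∧ (bend u v).2 ≠ (pos u).2 := by
      intro v huv h1
      have h4 := h.bend_ne u v huv
      rw [← h.bend_symm u v huv] at h1
      rcases h.horiz_vert u v huv with ⟨h5, h6⟩ | ⟨h5, h6⟩
      · exact absurd (Prod.ext h6 h1) h4.2
      · exact ⟨h6, h5, fun h7 => h4.1 (Prod.ext h5 h7)⟩
    obtain ⟨hv, hv1, hv'⟩ := hb v huv h1
    obtain ⟨hw, hw1, hw'⟩ := hb w huw h2
    rw [← hv, ← hw]
    constructor
    · intro h3
      have := h.directions u v w huv huw hvw .down ⟨hv1, h3⟩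
      simp only [InDir, hw1, true_and, not_lt] at this
      exact lt_of_le_of_ne this (Ne.symm hw')
    · intro h3
      have := h.directions u w v huw huv hvw.symm .up ⟨hw1, h3⟩
      simp only [InDir, hv1, true_and, not_lt] at this
      exact lt_of_le_of_ne this hv'
  cross u v w z huv hwz h1 h2 huw hx hy := by
    have hbu : bend u v = ((pos v).1, (pos u).2) := by
      have h4 := h.bend_ne u v huv
      rcases h.horiz_vert u v huv with ⟨h5, h6⟩ | ⟨h5, h6⟩
      · exact Prod.ext h6 h5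
      · exact absurd (Prod.ext h5 h1) h4.1
    have hbw : bend w z = ((pos w).1, (pos z).2) := by
      have h4 := h.bend_ne w z hwz
      rw [← h.bend_symm w z hwz] at h2
      rcases h.horiz_vert w z hwz with ⟨h5, h6⟩ | ⟨h5, h6⟩
      · exact absurd (Prod.ext h6 h2) h4.2
      · exact Prod.ext h5 h6
    have m1 : ((pos w).1, (pos u).2) ∈ stub pos bend u v := by
      have e : midpoint ℝ (pos u) (bend u v) = (((pos u).1 + (pos v).1) / 2, (pos u).2) := by
        rw [hbu, midpoint_eq_smul_add]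
        ext <;> simp <;> ring
      have e2 : pos u = ((pos u).1, (pos u).2) := rfl
      unfold stub
      rw [e, e2, mem_seg_h]
      exact ⟨rfl, hx⟩
    have m2 : ((pos w).1, (pos u).2) ∈ stub pos bend w z := by
      have e : midpoint ℝ (pos w) (bend w z) = ((pos w).1, ((pos w).2 + (pos z).2) / 2) := by
        rw [hbw, midpoint_eq_smul_add]
        ext <;> simp <;> ring
      have e2 : pos w = ((pos w).1, (pos w).2) := rfl
      unfold stub
      rw [e, e2, mem_seg_v]
      exact ⟨rfl, hy⟩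
    exact huw (h.stubs u v w z huv hwz (fun h => huw (congrArg Prod.fst h)) _ m1 m2).1

end Pool.Agent.Shoped30
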