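import Pool.Agent.Lib.MP_fb02f1_lc.H30.Gadget2

/-!
# The graph of a formula, and the assignment read off from a drawing
-/

namespace Pool.Agent.Shoped30

/-- A not-all-equal 3-SAT instance with `N` variables and `M` clauses: literal number `p` of
clause `a` is a variable together with a sign (`true` for the variable itself). -/
structure Nae where
  N : ℕ
  M : ℕ
  lit : Fin M → Fin 3 → Fin N × Bool

/-- The value of a literal. -/
def Nae.val (F : Nae) (τ : Fin F.N → Bool) (a : Fin F.M) (p : Fin 3) : Bool :=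
  τ (F.lit a p).1 == (F.lit a p).2

/-- In every clause there are two literals with different values. -/
def Nae.Sat (F : Nae) : Prop := ∃ τ : Fin F.N → Bool, ∀ a, ∃ p q, F.val τ a p ≠ F.val τ a q

/-- The vertices of the graph: a chain of `6 * M` gadgets for every variable, and one vertex for
every clause. -/
inductive GV (N M : ℕ) : Type
  | g (i : Fin N) (j : Fin (6 * M)) (k : Fin 12)
  | c (a : Fin M)
  deriving DecidableEq

/-- The position in the chain of the gadget for literal number `p` of clause `a`. -/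
def Nae.slot (F : Nae) (a : Fin F.M) (p : Fin 3) : ℕ :=
  6 * a.val + 2 * p.val + (if (F.lit a p).2 then 0 else 1)

/-- The edges of the graph, each one in one of its two directions. -/
def Nae.half (F : Nae) : GV F.N F.M → GV F.N F.M → Prop
  | .g i j k, .g i' j' k' => i = i' ∧ ((j = j' ∧ GAdj k k') ∨ (j'.val = j.val + 1 ∧ k = 11 ∧ k' = 5))
  | .c a, .g i j k => k = 0 ∧ ∃ p, i = (F.lit a p).1 ∧ j.val = F.slot a p
  | .g _ _ _, .c _ => False
  | .c _, .c _ => False

theorem not_GAdj_self : ∀ k : Fin 12, ¬ GAdj k k := by decide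

/-- The graph of the formula. -/
def Nae.G (F : Nae) : SimpleGraph (GV F.N F.M) where
  Adj u v := F.half u v ∨ F.half v u
  symm := ⟨fun _ _ h => h.symm⟩
  loopless := ⟨fun u h => by
    have h1 : F.half u u := by tauto
    cases u with
    | g i j k =>
      rcases h1.2 with h2 | h2
      · exact not_GAdj_self k h2.2
      · have := h2.1; omega
    | c a => exact h1⟩

theorem Nae.slot_lt (F : Nae) (a : Fin F.M) (p : Fin 3) : F.slot a p < 6 * F.M := by
  unfold Nae.slot
  have := a.2
  have := p.2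
  split <;> omega

/-- The gadget of a literal. -/
def Nae.lg (F : Nae) (a : Fin F.M) (p : Fin 3) : GV F.N F.M :=
  .g (F.lit a p).1 ⟨F.slot a p, F.slot_lt a p⟩ 0

theorem Nae.adj_lg (F : Nae) (a : Fin F.M) (p : Fin 3) : F.G.Adj (.c a) (F.lg a p) :=
  Or.inl ⟨rfl, p, rfl, rfl⟩

theorem Nae.adj_in (F : Nae) (i j) (k k' : Fin 12) (h : GAdj k k') :
    F.G.Adj (.g i j k) (.g i j k') :=
  Or.inl ⟨rfl, Or.inl ⟨rfl, h⟩⟩

/-- The system of coordinates on one gadget. -/
def Nae.gsys (F : Nae) (S : Sys (GV F.N F.M) F.G.Adj) (i : Fin F.N) (j : Fin (6 * F.M)) : GSys :=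
  S.comap (fun k => GV.g i j k) (fun k k' h => by injection h) (fun k k' h => F.adj_in i j k k' h)

theorem Nae.ext_type (F : Nae) (S : Sys (GV F.N F.M) F.G.Adj) (i : Fin F.N)
    (j : Fin (6 * F.M)) (k : Fin 12) (z : GV F.N F.M) (hz : ∀ k', z ≠ .g i j k')
    (ha : F.G.Adj (.g i j k) z) (t : Prop) (h : ∀ d, Free (F.gsys S i j) d k → (d.hor ↔ t)) :
    S.H (.g i j k) z ↔ t := by
  obtain ⟨d, hd⟩ := S.exists_P ha
  have hfree : Free (F.gsys S i j) d k := by
    intro w hP
    have h1 : S.P d (.g i j k) (.g i j w) := by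
      have ha' : F.G.Adj (.g i j k) (.g i j w) := F.adj_in i j k w hP.adj
      cases d <;> exact ⟨ha', hP.2⟩
    exact hz w (S.P_unique hd h1)
  have h2 := h d hfree
  rw [← h2]
  have h3 := S.excl _ _ ha
  cases d
  · exact iff_of_true hd.2.1 trivial
  · exact iff_of_true hd.2.1 trivial
  · exact iff_of_false (fun h4 => (h3.1 h4) hd.2.1) id
  · exact iff_of_false (fun h4 => (h3.1 h4) hd.2.1) id

section three

variable {V : Type} {Adj : V → V → Prop}

theorem Sys.three_h (S : Sys V Adj) {u v w z : V} (hv : Adj u v) (hw : Adj u w) (hz : Adj u z)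
    (h1 : v ≠ w) (h2 : v ≠ z) (h3 : w ≠ z) (k1 : S.H u v) (k2 : S.H u w) (k3 : S.H u z) :
    False := by
  have e1 := S.hport u v w hv hw h1 k1 k2
  have e2 := S.hport u v z hv hz h2 k1 k3
  have e3 := S.hport u w z hw hz h3 k2 k3
  have n1 := S.xne u w hw
  have n2 := S.xne u z hz
  rcases lt_or_gt_of_ne n1 with h | h
  · have h4 := e1.2 h
    have h5 := e2.1 h4
    have h6 := e3.2 h5
    linarith
  · have h4 := e3.1 h
    have h5 := e2.2 h4
    have h6 := e1.1 h5
    linarith

theorem Sys.three_v (S : Sys V Adj) {u v w z : V} (hv : Adj u v) (hw : Adj u w) (hz : Adj u z)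
    (h1 : v ≠ w) (h2 : v ≠ z) (h3 : w ≠ z) (k1 : S.H v u) (k2 : S.H w u) (k3 : S.H z u) :
    False := by
  have e1 := S.vport u v w hv hw h1 k1 k2
  have e2 := S.vport u v z hv hz h2 k1 k3
  have e3 := S.vport u w z hw hz h3 k2 k3
  have n1 := S.yne u w hw
  have n2 := S.yne u z hz
  rcases lt_or_gt_of_ne n1 with h | h
  · have h4 := e1.2 h
    have h5 := e2.1 h4
    have h6 := e3.2 h5
    linarith
  · have h4 := e3.1 h
    have h5 := e2.2 h4
    have h6 := e1.1 h5
    linarith

end three

/-- A drawing of the graph yields a not-all-equal assignment. -/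
theorem Nae.sat_of_sys (F : Nae) (S : Sys (GV F.N F.M) F.G.Adj) : F.Sat := by
  classical
  choose t ht using fun i j => gadget_concl (F.gsys S i j)
  have hstep : ∀ (i : Fin F.N) (j j' : Fin (6 * F.M)), j'.val = j.val + 1 →
      (t i j' ↔ ¬ t i j) := by
    intro i j j' hjj
    have ha : F.G.Adj (.g i j 11) (.g i j' 5) := Or.inl ⟨rfl, Or.inr ⟨hjj, rfl, rfl⟩⟩
    have hne : j ≠ j' := by rintro rfl; omega
    have h1 := F.ext_type S i j 11 (.g i j' 5) (fun k' h => hne (by injection h with _ h' _; exact h'.symm)) ha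
      (t i j) (ht i j).2.1
    have h2 := F.ext_type S i j' 5 (.g i j 11) (fun k' h => hne (by injection h with _ h' _))
      ha.symm (t i j') (ht i j').1
    have h3 := S.excl _ _ ha.symm
    rw [← h1, ← h2]
    exact h3
  have hpar : ∀ (n : ℕ) (i : Fin F.N) (hn : n < 6 * F.M),
      (t i ⟨n, hn⟩ ↔ (t i ⟨0, by omega⟩ ↔ n % 2 = 0)) := by
    intro n
    induction n with
    | zero => intro i hn; simp
    | succ n ih =>
      intro i hn
      rw [hstep i ⟨n, by omega⟩ ⟨n + 1, hn⟩ rfl, ih i (by omega)]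
      have : ((n + 1) % 2 = 0) ↔ ¬ (n % 2 = 0) := by omega
      rw [this]
      tauto
  refine ⟨fun i => if h : 0 < 6 * F.M then decide (t i ⟨0, h⟩) else false, fun a => ?_⟩
  have hM : 0 < 6 * F.M := by have := a.2; omega
  set τ : Fin F.N → Bool := fun i => if h : 0 < 6 * F.M then decide (t i ⟨0, h⟩) else false
    with hτ
  -- the type of the edge from the clause vertex to the gadget of a literal
  have hval : ∀ p, S.H (.c a) (F.lg a p) ↔ F.val τ a p = true := by
    intro p
    have h1 := F.ext_type S (F.lit a p).1 ⟨F.slot a p, F.slot_lt a p⟩ 0 (.c a)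
      (fun k' h => by injection h) (F.adj_lg a p).symm
      (¬ t (F.lit a p).1 ⟨F.slot a p, F.slot_lt a p⟩)
      (ht (F.lit a p).1 ⟨F.slot a p, F.slot_lt a p⟩).2.2.1
    have h2 := S.excl _ _ (F.adj_lg a p)
    have h3 := hpar (F.slot a p) (F.lit a p).1 (F.slot_lt a p)
    have h1' : S.H (F.lg a p) (.c a) ↔ ¬ t (F.lit a p).1 ⟨F.slot a p, F.slot_lt a p⟩ := h1
    rw [h2, h1', not_not, h3]
    have h4 : F.slot a p % 2 = 0 ↔ (F.lit a p).2 = true := by
      unfold Nae.slot
      cases (F.lit a p).2 <;> simp <;> omega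
    rw [h4]
    unfold Nae.val
    rw [hτ]
    simp only [hM, dif_pos, beq_iff_eq]
    cases (F.lit a p).2 <;> simp
  have hne : ∀ p q, p ≠ q → F.lg a p ≠ F.lg a q := by
    intro p q hpq h
    unfold Nae.lg at h
    injection h with _ h' _
    have h'' : F.slot a p = F.slot a q := by simpa using h'
    unfold Nae.slot at h''
    have : p.val = q.val := by split at h'' <;> split at h'' <;> omega
    exact hpq (Fin.ext this)
  by_contra hcon
  push Not at hcon
  have h01 := hcon 0 1
  have h02 := hcon 0 2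
  have v0 := hval 0
  have v1 := hval 1
  have v2 := hval 2
  by_cases h0 : F.val τ a 0 = true
  · exact S.three_h (F.adj_lg a 0) (F.adj_lg a 1) (F.adj_lg a 2) (hne 0 1 (by decide))
      (hne 0 2 (by decide)) (hne 1 2 (by decide)) (v0.2 h0) (v1.2 (h01 ▸ h0)) (v2.2 (h02 ▸ h0))
  · have w : ∀ p, F.val τ a p ≠ true → S.H (F.lg a p) (.c a) := by
      intro p hp
      have h2 := S.excl _ _ (F.adj_lg a p)
      by_contra h3
      exact hp ((hval p).1 (h2.2 h3))
    exact S.three_v (F.adj_lg a 0) (F.adj_lg a 1) (F.adj_lg a 2) (hne 0 1 (by decide))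
      (hne 0 2 (by decide)) (hne 1 2 (by decide)) (w 0 h0) (w 1 (by rw [← h01]; exact h0))
      (w 2 (by rw [← h02]; exact h0))

end Pool.Agent.Shoped30
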