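import Pool.Agent.Lib.MP_fb02f1_lc.H30.Tableau

/-!
# Multi-stack Turing machines of Mathlib as stack machines with elementary steps
-/

namespace Pool.Agent.Shoped30

open Turing Turing.TM2

section sim

variable {K : Type} {Γ : K → Type} {Λ σ : Type}

/-- Read a letter of the union alphabet as a letter of stack `k`. -/
noncomputable def toK (k : K) (s : Option ((k : K) × Γ k)) : Option (Γ k) := by
  classical
  exact s.bind fun x => if h : x.1 = k then some (h ▸ x.2) else none

theorem toK_map (k : K) (o : Option (Γ k)) : toK k (o.map (Sigma.mk k)) = o := by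
  cases o with
  | none => rfl
  | some a => simp [toK]

/-- The stack read by a statement. -/
def mKOf (k0 : K) : Stmt Γ Λ σ × σ → K
  | (.push k _ _, _) => k
  | (.peek k _ _, _) => k
  | (.pop k _ _, _) => k
  | (.load _ _, _) => k0
  | (.branch _ _ _, _) => k0
  | (.goto _, _) => k0
  | (.halt, _) => k0

/-- The next state. -/
noncomputable def mNx (m : Λ → Stmt Γ Λ σ) :
    Stmt Γ Λ σ × σ → Option ((k : K) × Γ k) → Stmt Γ Λ σ × σ
  | (.push _ _ q, v), _ => (q, v)
  | (.peek k f q, v), s => (q, f v (toK k s))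
  | (.pop k f q, v), s => (q, f v (toK k s))
  | (.load f q, v), _ => (q, f v)
  | (.branch f q₁ q₂, v), _ => (bif f v then q₁ else q₂, v)
  | (.goto l, v), _ => (m (l v), v)
  | (.halt, v), _ => (.halt, v)

/-- The operation. -/
def mOp : Stmt Γ Λ σ × σ → Option ((k : K) × Γ k) → Op ((k : K) × Γ k)
  | (.push k f _, v), _ => .push ⟨k, f v⟩
  | (.peek _ _ _, _), _ => .keep
  | (.pop _ _ _, _), _ => .pop
  | (.load _ _, _), _ => .keep
  | (.branch _ _ _, _), _ => .keep
  | (.goto _, _), _ => .keep
  | (.halt, _), _ => .keep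

/-- The stack machine. -/
noncomputable def mSM (m : Λ → Stmt Γ Λ σ) (k0 : K) :
    SM (Stmt Γ Λ σ × σ) K ((k : K) × Γ k) where
  kOf := mKOf k0
  nx := mNx m
  op := mOp

/-- The contents of the stacks. -/
def ab (S : ∀ k, List (Γ k)) (k : K) (j : ℕ) : Option ((k : K) × Γ k) :=
  ((S k)[j]?).map (Sigma.mk k)

variable [DecidableEq K]

/-- The configuration. -/
def mc (m : Λ → Stmt Γ Λ σ) (c : Cfg Γ Λ σ) :
    (Stmt Γ Λ σ × σ) × (K → ℕ → Option ((k : K) × Γ k)) :=
  ((match c.l with
    | none => .halt
    | some l => m l, c.var), ab c.stk)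

/-- The size of a statement. -/
def ssize : Stmt Γ Λ σ → ℕ
  | .push _ _ q => ssize q + 1
  | .peek _ _ q => ssize q + 1
  | .pop _ _ q => ssize q + 1
  | .load _ q => ssize q + 1
  | .branch _ q₁ q₂ => ssize q₁ + ssize q₂ + 1
  | .goto _ => 1
  | .halt => 1

theorem app_keep {A : Type} (f : ℕ → Option A) : (Op.keep : Op A).app f = f := by
  funext j
  unfold Op.app Op.new Op.src Op.top
  simp [Op.code]

omit [DecidableEq K] in
theorem ab_head (S : ∀ k, List (Γ k)) (k : K) : toK k (ab S k 0) = (S k).head? := by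
  unfold ab
  rw [toK_map, List.head?_eq_getElem?]

theorem step_aux (m : Λ → Stmt Γ Λ σ) (k0 : K) (q q' : Stmt Γ Λ σ) (v v' : σ)
    (S S' : ∀ k, List (Γ k))
    (h1 : mNx m (q, v) (ab S (mKOf k0 (q, v)) 0) = (q', v'))
    (h2 : ∀ k, (if k = mKOf k0 (q, v) then mOp (q, v) (ab S (mKOf k0 (q, v)) 0) else Op.keep).app
      (ab S k) = ab S' k) :
    (mSM m k0).step ((q, v), ab S) = ((q', v'), ab S') := by
  unfold SM.step
  exact Prod.ext h1 (funext h2)

theorem run_stmt (m : Λ → Stmt Γ Λ σ) (k0 : K) (q : Stmt Γ Λ σ) : ∀ (v : σ)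
    (S : ∀ k, List (Γ k)), ∃ n ≤ ssize q, (mSM m k0).step^[n] ((q, v), ab S) =
      mc m (stepAux q v S) := by
  have keep : ∀ (S : ∀ k, List (Γ k)) (c : Prop) [Decidable c] (k : K),
      (if c then (Op.keep : Op ((k : K) × Γ k)) else Op.keep).app (ab S k) = ab S k := by
    intro S c _ k
    rw [ite_self, app_keep]
  induction q with
  | push k f q ih =>
    intro v S
    obtain ⟨n, hn, h⟩ := ih v (Function.update S k (f v :: S k))
    refine ⟨n + 1, by simp only [ssize]; omega, ?_⟩
    rw [Function.iterate_succ_apply]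
    have : (mSM m k0).step ((Stmt.push k f q, v), ab S) =
        ((q, v), ab (Function.update S k (f v :: S k))) := by
      refine step_aux m k0 _ _ _ _ _ _ rfl (fun k' => ?_)
      by_cases hk : k' = k
      · subst hk
        have e : mKOf k0 ((Stmt.push k' f q : Stmt Γ Λ σ), v) = k' := rfl
        rw [e, if_pos rfl]
        funext j
        unfold ab
        rw [Function.update_self]
        cases j with
        | zero => rfl
        | succ j =>
          show ((S k')[j]?).map (Sigma.mk k') = _
          rw [List.getElem?_cons_succ]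
      · have e : mKOf k0 ((Stmt.push k f q : Stmt Γ Λ σ), v) = k := rfl
        rw [e, if_neg hk, app_keep]
        unfold ab
        rw [Function.update_of_ne hk]
    rw [this, h]
    rfl
  | peek k f q ih =>
    intro v S
    obtain ⟨n, hn, h⟩ := ih (f v (S k).head?) S
    refine ⟨n + 1, by simp only [ssize]; omega, ?_⟩
    rw [Function.iterate_succ_apply]
    have : (mSM m k0).step ((Stmt.peek k f q, v), ab S) =
        ((q, f v (S k).head?), ab S) := by
      refine step_aux m k0 _ _ _ _ _ _ ?_ (fun k' => keep _ _ _)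
      rw [← ab_head]
      rfl
    rw [this, h]
    rfl
  | pop k f q ih =>
    intro v S
    obtain ⟨n, hn, h⟩ := ih (f v (S k).head?) (Function.update S k (S k).tail)
    refine ⟨n + 1, by simp only [ssize]; omega, ?_⟩
    rw [Function.iterate_succ_apply]
    have : (mSM m k0).step ((Stmt.pop k f q, v), ab S) =
        ((q, f v (S k).head?), ab (Function.update S k (S k).tail)) := by
      refine step_aux m k0 _ _ _ _ _ _ ?_ (fun k' => ?_)
      · rw [← ab_head]
        rfl
      · by_cases hk : k' = k
        · subst hk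
          have e : mKOf k0 ((Stmt.pop k' f q : Stmt Γ Λ σ), v) = k' := rfl
          rw [e, if_pos rfl]
          funext j
          unfold ab
          rw [Function.update_self, List.getElem?_tail]
          show (if j = 0 then ((S k')[j + 1]?).map (Sigma.mk k') else
            ((S k')[j + 1]?).map (Sigma.mk k')) = _
          rw [ite_self]
        · have e : mKOf k0 ((Stmt.pop k f q : Stmt Γ Λ σ), v) = k := rfl
          rw [e, if_neg hk, app_keep]
          unfold ab
          rw [Function.update_of_ne hk]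
    rw [this, h]
    rfl
  | load f q ih =>
    intro v S
    obtain ⟨n, hn, h⟩ := ih (f v) S
    refine ⟨n + 1, by simp only [ssize]; omega, ?_⟩
    rw [Function.iterate_succ_apply]
    have : (mSM m k0).step ((Stmt.load f q, v), ab S) = ((q, f v), ab S) :=
      step_aux m k0 _ _ _ _ _ _ rfl (fun k' => keep _ _ _)
    rw [this, h]
    rfl
  | branch f q₁ q₂ ih₁ ih₂ =>
    intro v S
    have : (mSM m k0).step ((Stmt.branch f q₁ q₂, v), ab S) =
        ((bif f v then q₁ else q₂, v), ab S) :=
      step_aux m k0 _ _ _ _ _ _ rfl (fun k' => keep _ _ _)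
    have e : stepAux (Stmt.branch f q₁ q₂) v S = cond (f v) (stepAux q₁ v S) (stepAux q₂ v S) :=
      rfl
    rcases hf : f v with _ | _
    · obtain ⟨n, hn, h⟩ := ih₂ v S
      refine ⟨n + 1, by simp only [ssize]; omega, ?_⟩
      rw [Function.iterate_succ_apply, this, e, hf, cond_false, cond_false, h]
    · obtain ⟨n, hn, h⟩ := ih₁ v S
      refine ⟨n + 1, by simp only [ssize]; omega, ?_⟩
      rw [Function.iterate_succ_apply, this, e, hf, cond_true, cond_true, h]
  | goto l =>
    intro v S
    exact ⟨1, le_rfl, step_aux m k0 _ _ _ _ _ _ rfl (fun k' => keep _ _ _)⟩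
  | halt =>
    intro v S
    exact ⟨0, by simp [ssize], rfl⟩

theorem halt_fixed (m : Λ → Stmt Γ Λ σ) (k0 : K) {c : Cfg Γ Λ σ} (hc : c.l = none) :
    (mSM m k0).step (mc m c) = mc m c := by
  obtain ⟨l, v, S⟩ := c
  dsimp only at hc
  subst hc
  refine step_aux m k0 _ _ _ _ _ _ rfl (fun k' => ?_)
  show (if k' = mKOf k0 ((Stmt.halt : Stmt Γ Λ σ), v) then (Op.keep : Op ((k : K) × Γ k))
    else Op.keep).app (ab S k') = ab S k'
  rw [ite_self, app_keep]

theorem run_steps (m : Λ → Stmt Γ Λ σ) (k0 : K) (D : ℕ) (hD : ∀ l, ssize (m l) ≤ D) (n : ℕ) :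
    ∀ (c c' : Cfg Γ Λ σ), (flip bind (TM2.step m))^[n] (some c) = some c' →
      ∃ N ≤ D * n, (mSM m k0).step^[N] (mc m c) = mc m c' := by
  have hnone : ∀ n, (flip bind (TM2.step m))^[n] (none : Option (Cfg Γ Λ σ)) = none := by
    intro n
    induction n with
    | zero => rfl
    | succ n ih => rw [Function.iterate_succ_apply]; exact ih
  induction n with
  | zero =>
    intro c c' h
    injection h with h
    subst h
    exact ⟨0, by omega, rfl⟩
  | succ n ih =>
    intro c c' h
    rw [Function.iterate_succ_apply] at h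
    have e : flip bind (TM2.step m) (some c) = TM2.step m c := rfl
    rw [e] at h
    obtain ⟨l, v, S⟩ := c
    cases l with
    | none =>
      have e2 : TM2.step m ⟨none, v, S⟩ = none := rfl
      rw [e2, hnone] at h
      exact absurd h (by simp)
    | some l =>
      have e2 : TM2.step m ⟨some l, v, S⟩ = some (stepAux (m l) v S) := rfl
      rw [e2] at h
      obtain ⟨N, hN, h1⟩ := ih _ _ h
      obtain ⟨N', hN', h2⟩ := run_stmt m k0 (m l) v S
      refine ⟨N + N', ?_, ?_⟩
      · have := hD l
        have e3 : D * (n + 1) = D * n + D := by ring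
        omega
      · rw [Function.iterate_add_apply]
        have e4 : (mSM m k0).step^[N'] (mc m ⟨some l, v, S⟩) = mc m (stepAux (m l) v S) := h2
        rw [e4, h1]

/-! ### Restriction to finitely many states -/

/-- The machine restricted to a set of states. -/
def SM.restr {Q A : Type} (M : SM Q K A) (P : Q → Prop) (h : ∀ q s, P q → P (M.nx q s)) :
    SM {q // P q} K A where
  kOf q := M.kOf q.1
  nx q s := ⟨M.nx q.1 s, h _ _ q.2⟩
  op q s := M.op q.1 s

theorem SM.restr_iter {Q A : Type} (M : SM Q K A) (P : Q → Prop)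
    (h : ∀ q s, P q → P (M.nx q s)) (n : ℕ) : ∀ (c : {q // P q} × (K → ℕ → Option A)),
    (((M.restr P h).step^[n] c).1.1, ((M.restr P h).step^[n] c).2) =
      M.step^[n] (c.1.1, c.2) := by
  induction n with
  | zero => intro c; rfl
  | succ n ih =>
    intro c
    rw [Function.iterate_succ_apply, Function.iterate_succ_apply, ih]
    rfl

/-- The statements that occur. -/
def Occ (m : Λ → Stmt Γ Λ σ) (x : Stmt Γ Λ σ × σ) : Prop :=
  x.1 = .halt ∨ ∃ l, x.1 ∈ stmts₁ (m l)

omit [DecidableEq K] in
theorem occ_next (m : Λ → Stmt Γ Λ σ) (q : Stmt Γ Λ σ × σ) (s : Option ((k : K) × Γ k))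
    (h : Occ m q) : Occ m (mNx m q s) := by
  classical
  obtain ⟨q, v⟩ := q
  rcases h with h | ⟨l, h⟩
  · dsimp only at h
    subst h
    exact Or.inl rfl
  · dsimp only at h
    have key : ∀ q' ∈ stmts₁ q, q' ∈ stmts₁ (m l) := fun q' hq' => stmts₁_trans h hq'
    cases q with
    | push k f q =>
      exact Or.inr ⟨l, key q (by rw [stmts₁]; exact Finset.mem_insert_of_mem stmts₁_self)⟩
    | peek k f q =>
      exact Or.inr ⟨l, key q (by rw [stmts₁]; exact Finset.mem_insert_of_mem stmts₁_self)⟩
    | pop k f q =>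
      exact Or.inr ⟨l, key q (by rw [stmts₁]; exact Finset.mem_insert_of_mem stmts₁_self)⟩
    | load f q =>
      exact Or.inr ⟨l, key q (by rw [stmts₁]; exact Finset.mem_insert_of_mem stmts₁_self)⟩
    | branch f q₁ q₂ =>
      show Occ m (bif f v then q₁ else q₂, v)
      cases f v
      · exact Or.inr ⟨l, key q₂ (by
          rw [stmts₁]
          exact Finset.mem_insert_of_mem (Finset.mem_union_right _ stmts₁_self))⟩
      · exact Or.inr ⟨l, key q₁ (by
          rw [stmts₁]
          exact Finset.mem_insert_of_mem (Finset.mem_union_left _ stmts₁_self))⟩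
    | goto l' => exact Or.inr ⟨l' v, stmts₁_self⟩
    | halt => exact Or.inl rfl

omit [DecidableEq K] in
theorem occ_finite [Finite Λ] [Finite σ] (m : Λ → Stmt Γ Λ σ) : Finite {x // Occ m x} := by
  classical
  have h1 : ({q | q = Stmt.halt ∨ ∃ l, q ∈ stmts₁ (m l)} : Set (Stmt Γ Λ σ)).Finite := by
    have : {q | q = Stmt.halt ∨ ∃ l, q ∈ stmts₁ (m l)} =
        {Stmt.halt} ∪ ⋃ l, (stmts₁ (m l) : Set (Stmt Γ Λ σ)) := by
      ext q
      simp
    rw [this]
    exact (Set.finite_singleton _).union (Set.finite_iUnion fun l => (stmts₁ (m l)).finite_toSet)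
  have h2 : ({x | Occ m x} : Set (Stmt Γ Λ σ × σ)).Finite := by
    refine (h1.prod (Set.finite_univ (α := σ))).subset ?_
    intro x hx
    exact ⟨hx, trivial⟩
  exact h2.to_subtype

end sim

end Pool.Agent.Shoped30
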