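import Pool.Agent.Lib.MP_fb02f1_lc.H30.Cnf

/-!
# Clauses describing the runs of a stack machine
-/

namespace Pool.Agent.Shoped30

/-! ### Stack machines with one elementary operation per step -/

/-- An operation on a stack. -/
inductive Op (A : Type)
  | keep
  | pop
  | push (a : A)

variable {Q K A : Type}

/-- The number of the operation. -/
def Op.code : Op A → ℕ
  | .keep => 0
  | .pop => 1
  | .push _ => 2

/-- The cell from which the content of cell `j` comes (cells are numbered from the top). -/
def Op.src (o : Op A) (j : ℕ) : ℕ :=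
  if o.code = 1 then j + 1 else if o.code = 2 then j - 1 else j

/-- The new content of the top cell. -/
def Op.top : Op A → Option A → Option A
  | .push a, _ => some a
  | _, c => c

/-- The new content of cell `j`. -/
def Op.new (o : Op A) (j : ℕ) (c : Option A) : Option A := if j = 0 then o.top c else c

/-- The operation on the contents of a stack. -/
def Op.app (o : Op A) (f : ℕ → Option A) (j : ℕ) : Option A := o.new j (f (o.src j))

/-- A stack machine: in every state it reads the top of one stack and performs one operation on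
this stack. -/
structure SM (Q K A : Type) where
  kOf : Q → K
  nx : Q → Option A → Q
  op : Q → Option A → Op A

variable [DecidableEq K]

/-- The operation on stack `k`. -/
def SM.opk (M : SM Q K A) (q : Q) (s : Option A) (k : K) : Op A :=
  if k = M.kOf q then M.op q s else .keep

/-- One step. -/
def SM.step (M : SM Q K A) (c : Q × (K → ℕ → Option A)) : Q × (K → ℕ → Option A) :=
  (M.nx c.1 (c.2 (M.kOf c.1) 0), fun k => (M.opk c.1 (c.2 (M.kOf c.1) 0) k).app (c.2 k))

theorem SM.propagate (M : SM Q K A) {S : ℕ → Q → Prop} {C : ℕ → K → ℕ → Option A → Prop}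
    {T H : ℕ} (hTH : T ≤ H)
    (trS : ∀ t < T, ∀ q s, S t q → C t (M.kOf q) 0 s → S (t + 1) (M.nx q s))
    (trC : ∀ t < T, ∀ j < H, ∀ q s k c, S t q → C t (M.kOf q) 0 s →
      C t k ((M.opk q s k).src j) c → C (t + 1) k j ((M.opk q s k).new j c))
    {q0 : Q} {f0 : K → ℕ → Option A} (h0 : S 0 q0) (h1 : ∀ k, ∀ j < H, C 0 k j (f0 k j)) :
    ∀ t ≤ T, S t (M.step^[t] (q0, f0)).1 ∧
      ∀ k j, j + t < H → C t k j ((M.step^[t] (q0, f0)).2 k j) := by
  intro t
  induction t with
  | zero => exact fun _ => ⟨h0, fun k j hj => h1 k j hj⟩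
  | succ t ih =>
    intro ht
    obtain ⟨h2, h3⟩ := ih (by omega)
    rw [Function.iterate_succ_apply']
    have h4 := h3 (M.kOf (M.step^[t] (q0, f0)).1) 0 (by omega)
    refine ⟨trS t (by omega) _ _ h2 h4, fun k j hj => ?_⟩
    refine trC t (by omega) j (by omega) _ _ k _ h2 h4 (h3 k _ ?_)
    unfold Op.src
    split_ifs <;> omega

/-! ### Clauses -/

/-- The variable saying that at time `t` the state is `q`. -/
def vS (t q : ℕ) : ℕ := Nat.pair 0 (Nat.pair t q)

/-- The variable saying that at time `t` cell `j` of stack `k` contains `a`. -/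
def vC (t k j a : ℕ) : ℕ := Nat.pair 1 (Nat.pair t (Nat.pair k (Nat.pair j a)))

/-- The clause `a ∧ b ∧ c → d`. -/
def imp3 (a b c d : ℕ) : Cl4 := ((a, false), (b, false), (c, false), (d, true))

/-- The clause `a ∨ b ∨ c`. -/
def or3 (a b c : ℕ) : Cl4 := ((a, true), (b, true), (c, true), (c, true))

/-- The clause `¬ a`. -/
def neg1 (a : ℕ) : Cl4 := ((a, false), (a, false), (a, false), (a, false))

theorem sat_imp3 {α : ℕ → Bool} {a b c d : ℕ} : Cl4.sat α (imp3 a b c d) ↔
    (α a = true → α b = true → α c = true → α d = true) := by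
  unfold Cl4.sat imp3 lval
  dsimp only
  cases α a <;> cases α b <;> cases α c <;> cases α d <;> decide

theorem sat_or3 {α : ℕ → Bool} {a b c : ℕ} : Cl4.sat α (or3 a b c) ↔
    (α a = true ∨ α b = true ∨ α c = true) := by
  unfold Cl4.sat or3 lval
  dsimp only
  cases α a <;> cases α b <;> cases α c <;> decide

theorem sat_neg1 {α : ℕ → Bool} {a : ℕ} : Cl4.sat α (neg1 a) ↔ ¬ α a = true := by
  unfold Cl4.sat neg1 lval
  dsimp only
  cases α a <;> decide

/-- A row of the table of the machine. -/
abbrev Ent := ℕ × ℕ × ℕ × ℕ × ℕ × ℕ × ℕ × ℕ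

/-- The cell from which the content comes. -/
def srcN (o j : ℕ) : ℕ := if o = 1 then j + 1 else if o = 2 then j - 1 else j

/-- The clauses of a row, for time `t` and cell `j`. -/
def trCl (t j : ℕ) (e : Ent) : List Cl4 :=
  [imp3 (vS t e.1) (vC t e.2.1 0 e.2.2.1) (vC t e.2.2.2.1 (srcN e.2.2.2.2.2.2.1 j) e.2.2.2.2.1)
      (vC (t + 1) e.2.2.2.1 j (if j = 0 then e.2.2.2.2.2.2.2 else e.2.2.2.2.1)),
    imp3 (vS t e.1) (vC t e.2.1 0 e.2.2.1) (vC t e.2.1 0 e.2.2.1) (vS (t + 1) e.2.2.2.2.2.1)]

/-- All clauses about the transitions. -/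
def trAll (tab : List Ent) (T H : ℕ) : List Cl4 :=
  (List.range T).flatMap fun t => (List.range H).flatMap fun j => tab.flatMap fun e => trCl t j e

/-- The clauses for the beginning: input `u`, followed by an unknown word of length at most `p`. -/
def initAll (q0 kin bl a0 a1 : ℕ) (ks : List ℕ) (u : List Bool) (p H : ℕ) : List Cl4 :=
  [or3 (vS 0 q0) (vS 0 q0) (vS 0 q0)] ++
  (((List.range H).flatMap fun j => ks.map fun k =>
    or3 (vC 0 k j bl) (vC 0 k j bl) (vC 0 k j bl)) ++
  ((((List.range u.length).zip u).map fun x =>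
    or3 (vC 0 kin x.1 (if x.2 = true then a1 else a0))
      (vC 0 kin x.1 (if x.2 = true then a1 else a0))
      (vC 0 kin x.1 (if x.2 = true then a1 else a0))) ++
  (((List.range p).flatMap fun i =>
    [or3 (vC 0 kin (u.length + i) a0) (vC 0 kin (u.length + i) a1) (vC 0 kin (u.length + i) bl),
      imp3 (vC 0 kin (u.length + i) bl) (vC 0 kin (u.length + i) bl) (vC 0 kin (u.length + i) bl)
        (vC 0 kin (u.length + i + 1) bl)]) ++
  ((List.range H).map fun i => or3 (vC 0 kin (u.length + p + i) bl)
    (vC 0 kin (u.length + p + i) bl) (vC 0 kin (u.length + p + i) bl)))))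

/-- A machine with codes for its states, stacks and letters. -/
structure Tb (Q K A : Type) extends SM Q K A where
  cQ : Q → ℕ
  cK : K → ℕ
  cA : Option A → ℕ
  hQ : Function.Injective cQ
  hK : Function.Injective cK
  hA : Function.Injective cA
  q0 : Q
  kin : K
  kout : K
  letter : Bool → A
  bad : A
  allQ : List (Q × Option A × K × Option A)
  mem_allQ : ∀ x, x ∈ allQ
  allK : List K
  mem_allK : ∀ k, k ∈ allK ↔ k ≠ kin

variable (M : Tb Q K A)

/-- The row of the table. -/
def Tb.ent (x : Q × Option A × K × Option A) : Ent :=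
  (M.cQ x.1, M.cK (M.kOf x.1), M.cA x.2.1, M.cK x.2.2.1, M.cA x.2.2.2, M.cQ (M.nx x.1 x.2.1),
    (M.opk x.1 x.2.1 x.2.2.1).code, M.cA ((M.opk x.1 x.2.1 x.2.2.1).top x.2.2.2))

/-- All clauses. -/
def Tb.cnf (u : List Bool) (p T : ℕ) : List Cl4 :=
  initAll (M.cQ M.q0) (M.cK M.kin) (M.cA none) (M.cA (some (M.letter false)))
    (M.cA (some (M.letter true))) (M.allK.map M.cK) u p (T + 1) ++
  (trAll (M.allQ.map M.ent) T (T + 1) ++ [neg1 (vC T (M.cK M.kout) 0 (M.cA (some M.bad)))])

/-- The initial contents of the stacks. -/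
def Tb.f0 (x : List Bool) (k : K) (j : ℕ) : Option A :=
  if k = M.kin then (x[j]?).map M.letter else none

/-- The configuration at time `t`. -/
def Tb.run (x : List Bool) (t : ℕ) : Q × (K → ℕ → Option A) := M.step^[t] (M.q0, M.f0 x)

theorem srcN_code (o : Op A) (j : ℕ) : srcN o.code j = o.src j := rfl

omit [DecidableEq K] in
theorem cA_new (o : Op A) (j : ℕ) (c : Option A) :
    (if j = 0 then M.cA (o.top c) else M.cA c) = M.cA (o.new j c) := by
  unfold Op.new
  split_ifs <;> rfl

omit [DecidableEq K] in
theorem letter_code (b : Bool) : (if b = true then M.cA (some (M.letter true)) else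
    M.cA (some (M.letter false))) = M.cA (some (M.letter b)) := by
  cases b <;> rfl

theorem mem_zip_range' {u : List Bool} {j : ℕ} {b : Bool} (h : u[j]? = some b) :
    (j, b) ∈ (List.range u.length).zip u := by
  obtain ⟨hj, rfl⟩ := List.getElem?_eq_some_iff.1 h
  rw [List.mem_iff_getElem]
  exact ⟨j, by simpa using hj, by simp⟩

theorem of_mem_zip_range {u : List Bool} {j : ℕ} {b : Bool}
    (h : (j, b) ∈ (List.range u.length).zip u) : u[j]? = some b := by
  rw [List.mem_iff_getElem] at h
  obtain ⟨i, hi, hE⟩ := h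
  simp only [List.getElem_zip, List.getElem_range, Prod.mk.injEq] at hE
  obtain ⟨h1, h2⟩ := hE
  subst h1
  rw [← h2]
  exact List.getElem?_eq_getElem _

/-! ### From a satisfying assignment to a run -/

theorem Tb.sound {u : List Bool} {p T : ℕ} (h : Sat4 (M.cnf u p T)) :
    ∃ c : List Bool, c.length ≤ p ∧ (M.run (u ++ c) T).2 M.kout 0 ≠ some M.bad := by
  obtain ⟨α, hα⟩ := h
  have hI : ∀ D ∈ initAll (M.cQ M.q0) (M.cK M.kin) (M.cA none) (M.cA (some (M.letter false)))
    (M.cA (some (M.letter true))) (M.allK.map M.cK) u p (T + 1), Cl4.sat α D :=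
    fun D hD => hα D (List.mem_append.2 (Or.inl hD))
  have hT : ∀ D ∈ trAll (M.allQ.map M.ent) T (T + 1), Cl4.sat α D :=
    fun D hD => hα D (List.mem_append.2 (Or.inr (List.mem_append.2 (Or.inl hD))))
  have hF : Cl4.sat α (neg1 (vC T (M.cK M.kout) 0 (M.cA (some M.bad)))) :=
    hα _ (List.mem_append.2 (Or.inr (List.mem_append.2 (Or.inr (List.mem_singleton.2 rfl)))))
  unfold initAll at hI
  simp only [List.mem_append] at hI
  let S : ℕ → Q → Prop := fun t q => α (vS t (M.cQ q)) = true
  let C : ℕ → K → ℕ → Option A → Prop := fun t k j a => α (vC t (M.cK k) j (M.cA a)) = true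
  have hS0 : S 0 M.q0 := by
    have := sat_or3.1 (hI _ (Or.inl (List.mem_singleton.2 rfl)))
    tauto
  have hoth : ∀ k, k ≠ M.kin → ∀ j < T + 1, C 0 k j none := by
    intro k hk j hj
    have := sat_or3.1 (hI _ (Or.inr (Or.inl (List.mem_flatMap.2 ⟨j, List.mem_range.2 hj,
      List.mem_map.2 ⟨M.cK k, List.mem_map.2 ⟨k, (M.mem_allK k).2 hk, rfl⟩, rfl⟩⟩))))
    tauto
  have hlet : ∀ j b, u[j]? = some b → C 0 M.kin j (some (M.letter b)) := by
    intro j b hb
    have := sat_or3.1 (hI _ (Or.inr (Or.inr (Or.inl (List.mem_map.2 ⟨(j, b),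
      mem_zip_range' hb, rfl⟩)))))
    rw [letter_code] at this
    tauto
  have hch : ∀ i < p, C 0 M.kin (u.length + i) (some (M.letter false)) ∨
      C 0 M.kin (u.length + i) (some (M.letter true)) ∨ C 0 M.kin (u.length + i) none := by
    intro i hi
    exact sat_or3.1 (hI _ (Or.inr (Or.inr (Or.inr (Or.inl (List.mem_flatMap.2 ⟨i,
      List.mem_range.2 hi, List.mem_cons_self⟩))))))
  have hmo : ∀ i < p, C 0 M.kin (u.length + i) none → C 0 M.kin (u.length + i + 1) none := by
    intro i hi h
    exact sat_imp3.1 (hI _ (Or.inr (Or.inr (Or.inr (Or.inl (List.mem_flatMap.2 ⟨i,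
      List.mem_range.2 hi, List.mem_cons_of_mem _ List.mem_cons_self⟩)))))) h h h
  have hend : ∀ i < T + 1, C 0 M.kin (u.length + p + i) none := by
    intro i hi
    have := sat_or3.1 (hI _ (Or.inr (Or.inr (Or.inr (Or.inr (List.mem_map.2 ⟨i,
      List.mem_range.2 hi, rfl⟩))))))
    tauto
  -- the certificate
  classical
  have hex : ∃ i, C 0 M.kin (u.length + i) none := ⟨p, hend 0 (by omega)⟩
  obtain ⟨len, hlen1, hlen2, hlen3⟩ : ∃ len, len ≤ p ∧ C 0 M.kin (u.length + len) none ∧
      ∀ i < len, ¬ C 0 M.kin (u.length + i) none :=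
    ⟨Nat.find hex, Nat.find_min' hex (hend 0 (by omega)), Nat.find_spec hex,
      fun i hi => Nat.find_min hex hi⟩
  have hmo2 : ∀ i, len ≤ i → i ≤ p → C 0 M.kin (u.length + i) none := by
    intro i hi
    induction i, hi using Nat.le_induction with
    | base => exact fun _ => hlen2
    | succ i _ ih => exact fun h => hmo i (by omega) (ih (by omega))
  let b : ℕ → Bool := fun i => decide (C 0 M.kin (u.length + i) (some (M.letter true)))
  have hb : ∀ i < len, C 0 M.kin (u.length + i) (some (M.letter (b i))) := by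
    intro i hi
    by_cases h : C 0 M.kin (u.length + i) (some (M.letter true))
    · have : b i = true := decide_eq_true h
      rw [this]
      exact h
    · have : b i = false := decide_eq_false h
      rw [this]
      rcases hch i (by omega) with h1 | h1 | h1
      · exact h1
      · exact absurd h1 h
      · exact absurd h1 (hlen3 i hi)
  refine ⟨(List.range len).map b, by simpa using hlen1, ?_⟩
  have hrun := (M.toSM.propagate (S := S) (C := C) (T := T) (H := T + 1) (by omega) ?_ ?_
    (q0 := M.q0) (f0 := M.f0 (u ++ (List.range len).map b)) hS0 ?_ T le_rfl).2 M.kout 0 (by omega)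
  · intro hbad
    have h1 : (M.step^[T] (M.q0, M.f0 (u ++ (List.range len).map b))).2 M.kout 0 = some M.bad :=
      hbad
    rw [h1] at hrun
    exact sat_neg1.1 hF hrun
  · intro t ht q s h1 h2
    exact sat_imp3.1 (hT _ (List.mem_flatMap.2 ⟨t, List.mem_range.2 ht, List.mem_flatMap.2
      ⟨0, List.mem_range.2 (by omega), List.mem_flatMap.2 ⟨M.ent (q, s, M.kin, none),
        List.mem_map.2 ⟨_, M.mem_allQ _, rfl⟩,
        List.mem_cons_of_mem _ List.mem_cons_self⟩⟩⟩)) h1 h2 h2
  · intro t ht j hj q s k c h1 h2 h3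
    have := sat_imp3.1 (hT _ (List.mem_flatMap.2 ⟨t, List.mem_range.2 ht, List.mem_flatMap.2
      ⟨j, List.mem_range.2 hj, List.mem_flatMap.2 ⟨M.ent (q, s, k, c),
        List.mem_map.2 ⟨_, M.mem_allQ _, rfl⟩, List.mem_cons_self⟩⟩⟩)) h1 h2 h3
    have e := cA_new M (M.opk q s k) j c
    show α (vC (t + 1) (M.cK k) j (M.cA ((M.opk q s k).new j c))) = true
    rw [← e]
    exact this
  · intro k j hj
    unfold Tb.f0
    split_ifs with hk
    · subst hk
      rcases lt_or_ge j u.length with h1 | h1
      · have h2 : (u ++ (List.range len).map b)[j]? = some u[j] := by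
          rw [List.getElem?_append_left h1, List.getElem?_eq_getElem h1]
        rw [h2]
        exact hlet j _ (List.getElem?_eq_getElem h1)
      · obtain ⟨i, rfl⟩ := Nat.exists_eq_add_of_le h1
        have h2 : (u ++ (List.range len).map b)[u.length + i]? = ((List.range len).map b)[i]? := by
          rw [List.getElem?_append_right h1]
          congr 1
          omega
        rw [h2]
        rcases lt_or_ge i len with h3 | h3
        · have h4 : ((List.range len).map b)[i]? = some (b i) := by
            rw [List.getElem?_map, List.getElem?_range h3]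
            rfl
          rw [h4]
          exact hb i h3
        · have h4 : ((List.range len).map b)[i]? = none := by
            rw [List.getElem?_eq_none_iff]
            simpa using h3
          rw [h4]
          rcases le_or_gt i p with h5 | h5
          · exact hmo2 i h3 h5
          · have h6 := hend (i - p) (by omega)
            have h7 : u.length + p + (i - p) = u.length + i := by omega
            rw [h7] at h6
            exact h6
    · exact hoth k hk j hj

/-! ### From a run to a satisfying assignment -/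

theorem vS_inj {t q t' q' : ℕ} (h : vS t q = vS t' q') : t = t' ∧ q = q' := by
  unfold vS at h
  rw [Nat.pair_eq_pair, Nat.pair_eq_pair] at h
  exact h.2

theorem vC_inj {t k j a t' k' j' a' : ℕ} (h : vC t k j a = vC t' k' j' a') :
    t = t' ∧ k = k' ∧ j = j' ∧ a = a' := by
  unfold vC at h
  rw [Nat.pair_eq_pair, Nat.pair_eq_pair, Nat.pair_eq_pair, Nat.pair_eq_pair] at h
  exact ⟨h.2.1, h.2.2.1, h.2.2.2.1, h.2.2.2.2⟩

theorem vS_ne_vC {t q t' k' j' a' : ℕ} : vS t q ≠ vC t' k' j' a' := by
  unfold vS vC
  rw [Ne, Nat.pair_eq_pair]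
  exact fun h => absurd h.1 (by norm_num)

theorem Tb.complete {u : List Bool} {p T : ℕ} {z : List Bool} (hc : z.length ≤ p)
    (hfin : (M.run (u ++ z) T).2 M.kout 0 ≠ some M.bad) : Sat4 (M.cnf u p T) := by
  classical
  let α : ℕ → Bool := fun v => decide ((∃ t q, v = vS t (M.cQ q) ∧ (M.run (u ++ z) t).1 = q) ∨
    ∃ t k j a, v = vC t (M.cK k) j (M.cA a) ∧ (M.run (u ++ z) t).2 k j = a)
  have hS : ∀ t q, α (vS t (M.cQ q)) = true ↔ (M.run (u ++ z) t).1 = q := by
    intro t q
    rw [decide_eq_true_iff]
    constructor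
    · rintro (⟨t', q', h1, h2⟩ | ⟨t', k', j', a', h1, _⟩)
      · obtain ⟨h3, h4⟩ := vS_inj h1
        rw [h3, M.hQ h4]
        exact h2
      · exact absurd h1 vS_ne_vC
    · exact fun h => Or.inl ⟨t, q, rfl, h⟩
  have hC : ∀ t k j a, α (vC t (M.cK k) j (M.cA a)) = true ↔ (M.run (u ++ z) t).2 k j = a := by
    intro t k j a
    rw [decide_eq_true_iff]
    constructor
    · rintro (⟨t', q', h1, h2⟩ | ⟨t', k', j', a', h1, h2⟩)
      · exact absurd h1.symm vS_ne_vC
      · obtain ⟨h3, h4, h5, h6⟩ := vC_inj h1
        rw [h3, M.hK h4, h5, M.hA h6]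
        exact h2
    · exact fun h => Or.inr ⟨t, k, j, a, rfl, h⟩
  have hsucc : ∀ t, M.run (u ++ z) (t + 1) = M.step (M.run (u ++ z) t) := by
    intro t
    unfold Tb.run
    rw [Function.iterate_succ_apply']
  have hblank : ∀ j, u.length + z.length ≤ j → (M.run (u ++ z) 0).2 M.kin j = none := by
    intro j hj
    show M.f0 (u ++ z) M.kin j = none
    unfold Tb.f0
    rw [if_pos rfl, List.getElem?_eq_none (by simpa using hj)]
    rfl
  refine ⟨α, fun D hD => ?_⟩
  rcases List.mem_append.1 hD with hD | hD
  · unfold initAll at hD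
    simp only [List.mem_append] at hD
    rcases hD with hD | hD | hD | hD | hD
    · rw [List.mem_singleton] at hD
      subst hD
      exact sat_or3.2 (Or.inl ((hS _ _).2 rfl))
    · obtain ⟨j, _, hD⟩ := List.mem_flatMap.1 hD
      obtain ⟨k', hk', rfl⟩ := List.mem_map.1 hD
      obtain ⟨k, hk, rfl⟩ := List.mem_map.1 hk'
      refine sat_or3.2 (Or.inl ((hC _ _ _ _).2 ?_))
      show M.f0 (u ++ z) k j = none
      unfold Tb.f0
      rw [if_neg ((M.mem_allK k).1 hk)]
    · obtain ⟨⟨j, b⟩, hjb, rfl⟩ := List.mem_map.1 hD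
      dsimp only
      rw [letter_code]
      refine sat_or3.2 (Or.inl ((hC _ _ _ _).2 ?_))
      show M.f0 (u ++ z) M.kin j = some (M.letter b)
      unfold Tb.f0
      have h1 := of_mem_zip_range hjb
      obtain ⟨hj, _⟩ := List.getElem?_eq_some_iff.1 h1
      rw [if_pos rfl, List.getElem?_append_left hj, h1]
      rfl
    · obtain ⟨i, hi, hD⟩ := List.mem_flatMap.1 hD
      rw [List.mem_cons, List.mem_singleton] at hD
      rcases hD with rfl | rfl
      · refine sat_or3.2 ?_
        rw [hC, hC, hC]
        rcases lt_or_ge i z.length with h1 | h1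
        · have h2 : (M.run (u ++ z) 0).2 M.kin (u.length + i) = some (M.letter z[i]) := by
            show M.f0 (u ++ z) M.kin (u.length + i) = _
            unfold Tb.f0
            have h3 : (u ++ z)[u.length + i]? = some z[i] := by
              rw [List.getElem?_append_right (by omega)]
              have : u.length + i - u.length = i := by omega
              rw [this, List.getElem?_eq_getElem h1]
            rw [if_pos rfl, h3]
            rfl
          rw [h2]
          cases z[i]
          · exact Or.inl rfl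
          · exact Or.inr (Or.inl rfl)
        · exact Or.inr (Or.inr (hblank _ (by omega)))
      · refine sat_imp3.2 (fun h _ _ => ?_)
        rw [hC] at h ⊢
        refine hblank _ ?_
        by_contra h1
        rcases lt_or_ge i z.length with h2 | h2
        · have h3 : (M.run (u ++ z) 0).2 M.kin (u.length + i) = some (M.letter z[i]) := by
            show M.f0 (u ++ z) M.kin (u.length + i) = _
            unfold Tb.f0
            have h3 : (u ++ z)[u.length + i]? = some z[i] := by
              rw [List.getElem?_append_right (by omega)]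
              have : u.length + i - u.length = i := by omega
              rw [this, List.getElem?_eq_getElem h2]
            rw [if_pos rfl, h3]
            rfl
          rw [h3] at h
          exact absurd h (by simp)
        · omega
    · obtain ⟨i, hi, rfl⟩ := List.mem_map.1 hD
      exact sat_or3.2 (Or.inl ((hC _ _ _ _).2 (hblank _ (by omega))))
  rcases List.mem_append.1 hD with hD | hD
  · obtain ⟨t, ht, hD⟩ := List.mem_flatMap.1 hD
    obtain ⟨j, hj, hD⟩ := List.mem_flatMap.1 hD
    obtain ⟨e, he, hD⟩ := List.mem_flatMap.1 hD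
    obtain ⟨⟨q, s, k, a⟩, _, rfl⟩ := List.mem_map.1 he
    unfold trCl at hD
    rw [List.mem_cons, List.mem_singleton] at hD
    rcases hD with rfl | rfl
    · refine sat_imp3.2 (fun h1 h2 h3 => ?_)
      have e := cA_new M (M.opk q s k) j a
      show α (vC (t + 1) (M.cK k) j (if j = 0 then M.cA ((M.opk q s k).top a) else M.cA a)) = true
      rw [e, hC, hsucc]
      have h1' := (hS t q).1 h1
      have h2' := (hC t _ 0 s).1 h2
      have h3' := (hC t k _ a).1 h3
      unfold SM.step
      dsimp only
      rw [h1', h2']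
      unfold Op.app
      congr 1
    · refine sat_imp3.2 (fun h1 h2 _ => ?_)
      have h1' := (hS t q).1 h1
      have h2' := (hC t _ 0 s).1 h2
      show α (vS (t + 1) (M.cQ (M.nx q s))) = true
      rw [hS, hsucc]
      unfold SM.step
      dsimp only
      rw [h1', h2']
  · rw [List.mem_singleton] at hD
    subst hD
    rw [sat_neg1, hC]
    exact hfin

theorem Tb.sat_iff {u : List Bool} {p T : ℕ} : Sat4 (M.cnf u p T) ↔
    ∃ c : List Bool, c.length ≤ p ∧ (M.run (u ++ c) T).2 M.kout 0 ≠ some M.bad :=
  ⟨M.sound, fun ⟨_, hc, h⟩ => M.complete hc h⟩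

end Pool.Agent.Shoped30
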