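import Pool.Agent.Lib.MP_fb02f1_lc.H30.Geom

/-!
# Tight sets: all ports are used except four
-/

namespace Pool.Agent.Shoped30

open Finset

instance : Fintype Dir := ⟨{.left, .right, .up, .down}, by rintro (_ | _ | _ | _) <;> simp⟩

variable {V : Type} {Adj : V → V → Prop}

/-- The edge `uw` leaves `u` in direction `d`. -/
def Sys.P (S : Sys V Adj) (d : Dir) (u w : V) : Prop :=
  match d with
  | .left => Adj u w ∧ S.H u w ∧ S.x w < S.x u
  | .right => Adj u w ∧ S.H u w ∧ S.x u < S.x w
  | .up => Adj u w ∧ S.H w u ∧ S.y u < S.y w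
  | .down => Adj u w ∧ S.H w u ∧ S.y w < S.y u

/-- The coordinate that is minimal at the extreme vertex in direction `d`. -/
def Sys.f (S : Sys V Adj) (d : Dir) (u : V) : ℝ :=
  match d with
  | .left => S.x u
  | .right => - S.x u
  | .up => - S.y u
  | .down => S.y u

theorem Sys.P.f_lt {S : Sys V Adj} {d : Dir} {u w : V} (h : S.P d u w) :
    S.f d w < S.f d u := by
  cases d <;> simp only [Sys.P, Sys.f] at h ⊢ <;> linarith [h.2.2]

theorem Sys.P.adj {S : Sys V Adj} {d : Dir} {u w : V} (h : S.P d u w) : Adj u w := by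
  cases d <;> exact h.1

theorem Sys.P_unique (S : Sys V Adj) {d : Dir} {u w w' : V} (h : S.P d u w)
    (h' : S.P d u w') : w = w' := by
  by_contra hne
  cases d <;> simp only [Sys.P] at h h'
  · have := (S.hport u w w' h.1 h'.1 hne h.2.1 h'.2.1).1 h.2.2
    linarith [h'.2.2]
  · have := (S.hport u w w' h.1 h'.1 hne h.2.1 h'.2.1).2 h'.2.2
    linarith [h.2.2]
  · have := (S.vport u w w' h.1 h'.1 hne h.2.1 h'.2.1).2 h'.2.2
    linarith [h.2.2]
  · have := (S.vport u w w' h.1 h'.1 hne h.2.1 h'.2.1).1 h.2.2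
    linarith [h'.2.2]

theorem Sys.exists_P (S : Sys V Adj) {u w : V} (h : Adj u w) : ∃ d, S.P d u w := by
  have h1 := S.excl u w h
  have hx := S.xne u w h
  have hy := S.yne u w h
  by_cases h2 : S.H u w
  · rcases lt_or_gt_of_ne hx with h3 | h3
    · exact ⟨.right, h, h2, h3⟩
    · exact ⟨.left, h, h2, h3⟩
  · have h4 : S.H w u := by
      by_contra h5
      exact h2 (h1.2 h5)
    rcases lt_or_gt_of_ne hy with h3 | h3
    · exact ⟨.up, h, h4, h3⟩
    · exact ⟨.down, h, h4, h3⟩

/-- In a tight set, a vertex whose port `d` is not used inside the set is the strict extreme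
vertex in direction `d`. -/
theorem Sys.tight (S : Sys V Adj) [DecidableEq V] [DecidableRel Adj] (T : Finset V)
    (hT : 4 * T.card ≤ (∑ v ∈ T, (T.filter (Adj v)).card) + 4) {d : Dir} {v : V} (hv : v ∈ T)
    (hfree : ∀ w ∈ T, ¬ S.P d v w) {u : V} (hu : u ∈ T) (huv : u ≠ v) :
    S.f d v < S.f d u := by
  classical
  let U : Dir → Finset V := fun d => T.filter (fun v => ∃ w ∈ T, S.P d v w)
  have hmin : ∀ d : Dir, ∀ m ∈ T, (∀ u ∈ T, S.f d m ≤ S.f d u) → m ∉ U d := by
    intro d m _ hm2 h
    obtain ⟨w, hw, hP⟩ := (mem_filter.1 h).2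
    exact absurd hP.f_lt (not_lt.2 (hm2 w hw))
  have hU : ∀ d, (U d).card + 1 ≤ T.card := by
    intro d
    obtain ⟨m, hm, hm2⟩ := exists_min_image T (S.f d) ⟨v, hv⟩
    have h1 : U d ⊂ T := by
      rw [Finset.ssubset_iff_of_subset (filter_subset _ _)]
      exact ⟨m, hm, hmin d m hm hm2⟩
    exact card_lt_card h1
  have hdeg : ∀ v ∈ T, (T.filter (Adj v)).card ≤
      (univ.filter (fun d : Dir => ∃ w ∈ T, S.P d v w)).card := by
    intro v _
    have hch : ∀ w, ∃ d, Adj v w → S.P d v w := by
      intro w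
      by_cases h : Adj v w
      · obtain ⟨d, hd⟩ := S.exists_P h
        exact ⟨d, fun _ => hd⟩
      · exact ⟨.left, fun h' => absurd h' h⟩
    choose g hg using hch
    refine card_le_card_of_injOn g ?_ ?_
    · intro w hw
      rw [mem_coe, mem_filter] at hw
      rw [mem_coe, mem_filter]
      exact ⟨mem_univ _, w, hw.1, hg w hw.2⟩
    · intro w hw w' hw' hE
      rw [mem_coe, mem_filter] at hw hw'
      have h1 := hg w hw.2
      have h2 := hg w' hw'.2
      rw [hE] at h1
      exact S.P_unique h1 h2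
  have hsum : ∑ v ∈ T, (T.filter (Adj v)).card ≤ ∑ d : Dir, (U d).card := by
    calc ∑ v ∈ T, (T.filter (Adj v)).card
        ≤ ∑ v ∈ T, (univ.filter (fun d : Dir => ∃ w ∈ T, S.P d v w)).card :=
          sum_le_sum hdeg
      _ = ∑ v ∈ T, ∑ d : Dir, if (∃ w ∈ T, S.P d v w) then 1 else 0 := by
          simp only [card_filter]
      _ = ∑ d : Dir, ∑ v ∈ T, if (∃ w ∈ T, S.P d v w) then 1 else 0 := sum_comm
      _ = ∑ d : Dir, (U d).card := by simp only [U, card_filter]
  -- two vertices with a free port `d` are impossible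
  have huniq : ∀ v ∈ T, ∀ v' ∈ T, v ∉ U d → v' ∉ U d → v = v' := by
    intro v hv v' hv' h1 h2
    by_contra hne
    have h3 : (U d).card + 2 ≤ T.card := by
      have h4 : U d ⊆ (T.erase v).erase v' := by
        intro w hw
        have hwT := (mem_filter.1 hw).1
        refine mem_erase.2 ⟨?_, mem_erase.2 ⟨?_, hwT⟩⟩
        · rintro rfl; exact h2 hw
        · rintro rfl; exact h1 hw
      have h5 := card_le_card h4
      rw [card_erase_of_mem (mem_erase.2 ⟨Ne.symm hne, hv'⟩), card_erase_of_mem hv] at h5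
      have h6 : 2 ≤ T.card := by
        have h7 : ({v, v'} : Finset V) ⊆ T := by
          intro w hw
          simp only [mem_insert, mem_singleton] at hw
          rcases hw with rfl | rfl <;> assumption
        have h8 := card_le_card h7
        rwa [card_pair hne] at h8
      omega
    have h4 : ∑ d : Dir, (U d).card =
        (U .left).card + (U .right).card + (U .up).card + (U .down).card := by
      simp only [Finset.sum, univ, Fintype.elems]
      simp [Finset.insert_val_of_notMem]
      ring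
    have l1 := hU .left
    have l2 := hU .right
    have l3 := hU .up
    have l4 := hU .down
    cases d <;> omega
  have hvU : v ∉ U d := by
    intro h
    obtain ⟨w, hw, hP⟩ := (mem_filter.1 h).2
    exact hfree w hw hP
  obtain ⟨m, hm, hm2⟩ := exists_min_image T (S.f d) ⟨v, hv⟩
  have hmv : m = v := huniq m hm v hv (hmin d m hm hm2) hvU
  rw [hmv] at hm2
  refine lt_of_le_of_ne (hm2 u hu) (fun hE => huv ?_)
  refine huniq u hu v hv (hmin d u hu fun w hw => ?_) hvU
  rw [← hE]
  exact hm2 w hw

end Pool.Agent.Shoped30
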