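import Pool.Agent.Lib.MP_fb02f1_lc.H30.Cnf

/-!
# From lists of clauses to words encoding graphs
-/

namespace Pool.Agent.Shoped30

/-! ### The degree bound -/

section degree

variable (F : Nae)

theorem gdeg_le : ∀ k : Fin 12, (Finset.univ.filter (GAdj k)).card ≤ 4 := by decide

theorem gdeg_le3 : ∀ k : Fin 12, (k = 0 ∨ k = 5 ∨ k = 11) →
    (Finset.univ.filter (GAdj k)).card ≤ 3 := by decide

theorem ext_port {i : Fin F.N} {j : Fin (6 * F.M)} {k : Fin 12} {z : GV F.N F.M}
    (h : F.ExtNb i j k z) : k = 0 ∨ k = 5 ∨ k = 11 := by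
  cases h
  · exact Or.inr (Or.inr rfl)
  · exact Or.inr (Or.inl rfl)
  · exact Or.inl rfl

theorem Nae.degree_le (v : GV F.N F.M) : (F.G.neighborSet v).ncard ≤ 4 := by
  cases v with
  | g i j k =>
    have h1 : F.G.neighborSet (.g i j k) ⊆
        (fun l => GV.g i j l) '' {l | GAdj k l} ∪ {z | F.ExtNb i j k z} := by
      intro z hz
      rcases F.adj_g hz with ⟨l, rfl, hl⟩ | hl
      · exact Or.inl ⟨l, hl, rfl⟩
      · exact Or.inr hl
    have hfin1 : ((fun l => (GV.g i j l : GV F.N F.M)) '' {l | GAdj k l}).Finite :=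
      Set.toFinite _
    have hsub : {z | F.ExtNb i j k z}.Subsingleton := fun z hz z' hz' => F.ext_unique hz hz'
    have hfin2 : {z | F.ExtNb i j k z}.Finite := hsub.finite
    have h2 := Set.ncard_le_ncard h1 (hfin1.union hfin2)
    have h3 := Set.ncard_union_le ((fun l => (GV.g i j l : GV F.N F.M)) '' {l | GAdj k l})
      {z | F.ExtNb i j k z}
    have h4 : ((fun l => (GV.g i j l : GV F.N F.M)) '' {l | GAdj k l}).ncard ≤
        (Finset.univ.filter (GAdj k)).card := by
      refine (Set.ncard_image_le (Set.toFinite _)).trans (le_of_eq ?_)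
      rw [← Set.ncard_coe_finset]
      congr 1
      ext l
      simp
    by_cases h5 : {z | F.ExtNb i j k z} = ∅
    · rw [h5, Set.ncard_empty] at h3
      have := gdeg_le k
      rw [h5] at h2
      omega
    · obtain ⟨z, hz⟩ := Set.nonempty_iff_ne_empty.2 h5
      have h6 := gdeg_le3 k (ext_port F hz)
      have h7 : {z | F.ExtNb i j k z}.ncard ≤ 1 := by
        rw [Set.ncard_le_one hfin2]
        exact fun a ha b hb => hsub ha hb
      omega
  | c a =>
    have h1 : F.G.neighborSet (.c a) ⊆ (fun p => F.lg a p) '' Set.univ := by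
      intro z hz
      obtain ⟨p, rfl⟩ := F.adj_c hz
      exact ⟨p, trivial, rfl⟩
    have h2 := Set.ncard_le_ncard h1 (Set.toFinite _)
    have h3 : ((fun p => F.lg a p) '' (Set.univ : Set (Fin 3))).ncard ≤
        (Set.univ : Set (Fin 3)).ncard := Set.ncard_image_le (Set.toFinite _)
    rw [Set.ncard_univ, Nat.card_eq_fintype_card, Fintype.card_fin] at h3
    omega

end degree

/-! ### The instance of a list of clauses -/

/-- A bound for the variables. -/
def bnd (ψ : List Cl3) : ℕ := ψ.foldr (fun C n => (C.1.1 + C.2.1.1 + C.2.2.1) + n) 1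

theorem lt_bnd {ψ : List Cl3} {C : Cl3} (h : C ∈ ψ) : C.1.1 + C.2.1.1 + C.2.2.1 < bnd ψ := by
  induction ψ with
  | nil => exact absurd h (List.not_mem_nil)
  | cons D ψ ih =>
    have e : bnd (D :: ψ) = (D.1.1 + D.2.1.1 + D.2.2.1) + bnd ψ := rfl
    have h1 : 1 ≤ bnd ψ := by
      clear ih h e
      induction ψ with
      | nil => exact le_rfl
      | cons D ψ ih =>
        have e : bnd (D :: ψ) = (D.1.1 + D.2.1.1 + D.2.2.1) + bnd ψ := rfl
        omega
    rcases List.mem_cons.1 h with h | h
    · subst h; omega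
    · have := ih h; omega

/-- The literals of a clause. -/
def litOf (C : Cl3) (p : Fin 3) : Lit := ![C.1, C.2.1, C.2.2] p

theorem litOf_lt {ψ : List Cl3} {C : Cl3} (h : C ∈ ψ) (p : Fin 3) : (litOf C p).1 < bnd ψ := by
  have := lt_bnd h
  unfold litOf
  fin_cases p <;> simp <;> omega

/-- The instance of a list of clauses. -/
def naeOf (ψ : List Cl3) : Nae where
  N := bnd ψ
  M := ψ.length
  lit a p := (⟨(litOf ψ[a] p).1, litOf_lt (List.getElem_mem _) p⟩, (litOf ψ[a] p).2)

theorem naeOf_sat (ψ : List Cl3) : (naeOf ψ).Sat ↔ SatN ψ := by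
  have hval : ∀ (α : ℕ → Bool) (a : Fin ψ.length) (p : Fin 3),
      (naeOf ψ).val (fun i => α i.val) a p = lval α (litOf ψ[a] p) := fun _ _ _ => rfl
  have hnae : ∀ (α : ℕ → Bool) (a : Fin ψ.length),
      (∃ p q, (naeOf ψ).val (fun i => α i.val) a p ≠ (naeOf ψ).val (fun i => α i.val) a q) ↔
        Cl3.nae α ψ[a] := by
    intro α a
    have v0 : (naeOf ψ).val (fun i => α i.val) a 0 = lval α ψ[a].1 := rfl
    have v1 : (naeOf ψ).val (fun i => α i.val) a 1 = lval α ψ[a].2.1 := rfl
    have v2 : (naeOf ψ).val (fun i => α i.val) a 2 = lval α ψ[a].2.2 := rfl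
    unfold Cl3.nae
    rw [← v0, ← v1, ← v2]
    constructor
    · rintro ⟨p, q, hpq⟩ ⟨h1, h2⟩
      have key : ∀ p : Fin 3, (naeOf ψ).val (fun i => α i.val) a p =
          (naeOf ψ).val (fun i => α i.val) a 1 := by
        intro p
        fin_cases p
        · exact h1
        · rfl
        · exact h2.symm
      exact hpq ((key p).trans (key q).symm)
    · intro h
      by_contra h'
      push Not at h'
      exact h ⟨h' 0 1, h' 1 2⟩
  constructor
  · rintro ⟨τ, hτ⟩
    refine ⟨fun n => if h : n < bnd ψ then τ ⟨n, h⟩ else false, fun C hC => ?_⟩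
    obtain ⟨a, ha, rfl⟩ := List.mem_iff_getElem.1 hC
    obtain ⟨α, hα⟩ : ∃ α : ℕ → Bool, α = fun n => if h : n < bnd ψ then τ ⟨n, h⟩ else false :=
      ⟨_, rfl⟩
    rw [← hα]
    have e : (fun i : Fin (naeOf ψ).N => α i.val) = τ := by
      funext i
      rw [hα]
      exact dif_pos i.2
    have := (hnae α ⟨a, ha⟩).1
    rw [e] at this
    exact this (hτ ⟨a, ha⟩)
  · rintro ⟨α, hα⟩
    exact ⟨fun i => α i.val, fun a => (hnae α a).2 (hα _ (List.getElem_mem _))⟩

/-! ### Names of vertices -/

/-- Names of vertices. -/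
abbrev Nm := ℕ × ℕ × ℕ

/-- The name of a vertex. -/
def GV.name {N M : ℕ} : GV N M → Nm
  | .g i j k => (i.val, j.val, k.val)
  | .c a => (a.val, 0, 12)

/-- The table of the gadget. -/
def gListN : List (ℕ × ℕ) :=
  [(0, 1), (2, 0), (0, 3), (1, 2), (1, 3), (3, 2), (6, 7), (8, 6), (6, 9), (7, 8), (7, 9), (9, 8),
    (4, 1), (2, 4), (5, 4), (4, 11), (3, 5), (10, 5), (11, 10), (9, 11), (10, 7), (8, 10)]

/-- The adjacency test of the gadget. -/
def gB (k l : ℕ) : Bool :=
  gListN.any (fun e => (decide (e.1 = k) && decide (e.2 = l)) ||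
    (decide (e.1 = l) && decide (e.2 = k)))

theorem gB_iff : ∀ k l : Fin 12, gB k.val l.val = gE k l := by decide

/-- Literal `l`, number `p` of clause `a`, against the gadget `(i, j)`. -/
def lB (l : Lit) (a p i j : ℕ) : Bool :=
  decide (l.1 = i) && decide (j = 6 * a + 2 * p + (if l.2 = true then 0 else 1))

/-- The clause test. -/
def cB (C : Cl3) (a i j : ℕ) : Bool := lB C.1 a 0 i j || (lB C.2.1 a 1 i j || lB C.2.2 a 2 i j)

/-- The default clause. -/
def dCl : Cl3 := ((0, false), (0, false), (0, false))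

/-- Half of the adjacency test. -/
def halfB (ψ : List Cl3) (x y : Nm) : Bool :=
  if decide (x.2.2 < 12) = true then
    decide (y.2.2 < 12) && (decide (x.1 = y.1) &&
      ((decide (x.2.1 = y.2.1) && gB x.2.2 y.2.2) ||
        (decide (y.2.1 = x.2.1 + 1) && (decide (x.2.2 = 11) && decide (y.2.2 = 5)))))
  else decide (y.2.2 = 0) && cB (ψ.getD x.1 dCl) x.1 y.1 y.2.1

/-- The adjacency test. -/
def adjB (ψ : List Cl3) (x y : Nm) : Bool := halfB ψ x y || halfB ψ y x

theorem lB_iff (ψ : List Cl3) (a : Fin ψ.length) (p : Fin 3) (i : Fin (bnd ψ))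
    (j : Fin (6 * ψ.length)) :
    lB (litOf ψ[a] p) a.val p.val i.val j.val = true ↔
      (i = ((naeOf ψ).lit a p).1 ∧ j.val = (naeOf ψ).slot a p) := by
  unfold lB
  rw [Bool.and_eq_true, decide_eq_true_iff, decide_eq_true_iff, Fin.ext_iff]
  exact and_congr eq_comm Iff.rfl

theorem cB_iff (ψ : List Cl3) (a : Fin ψ.length) (i : Fin (bnd ψ)) (j : Fin (6 * ψ.length)) :
    cB ψ[a] a.val i.val j.val = true ↔
      ∃ p, i = ((naeOf ψ).lit a p).1 ∧ j.val = (naeOf ψ).slot a p := by
  unfold cB
  rw [Bool.or_eq_true, Bool.or_eq_true]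
  have h0 := lB_iff ψ a 0 i j
  have h1 := lB_iff ψ a 1 i j
  have h2 := lB_iff ψ a 2 i j
  constructor
  · rintro (h | h | h)
    · exact ⟨0, h0.1 h⟩
    · exact ⟨1, h1.1 h⟩
    · exact ⟨2, h2.1 h⟩
  · rintro ⟨p, hp⟩
    fin_cases p
    · exact Or.inl (h0.2 hp)
    · exact Or.inr (Or.inl (h1.2 hp))
    · exact Or.inr (Or.inr (h2.2 hp))

theorem halfB_iff (ψ : List Cl3) (u v : GV (bnd ψ) ψ.length) :
    halfB ψ u.name v.name = true ↔ (naeOf ψ).half u v := by
  cases u with
  | g i j k =>
    have hk := k.2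
    cases v with
    | g i' j' k' =>
      have hk' := k'.2
      have e1 : halfB ψ (GV.g i j k : GV (bnd ψ) ψ.length).name
          (GV.g i' j' k' : GV (bnd ψ) ψ.length).name =
        (decide (i.val = i'.val) &&
      ((decide (j.val = j'.val) && gB k.val k'.val) ||
        (decide (j'.val = j.val + 1) && (decide (k.val = 11) && decide (k'.val = 5))))) := by
        exact (if_pos (decide_eq_true hk)).trans
          ((congrArg (· && _) (decide_eq_true hk')).trans (Bool.true_and _))
      rw [e1, gB_iff]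
      simp only [Bool.and_eq_true, Bool.or_eq_true, decide_eq_true_iff]
      have e2 : (naeOf ψ).half (.g i j k) (.g i' j' k') ↔
        (i = i' ∧ ((j = j' ∧ GAdj k k') ∨ (j'.val = j.val + 1 ∧ k = 11 ∧ k' = 5))) := Iff.rfl
      refine Iff.trans ?_ e2.symm
      simp only [Fin.ext_iff]
      exact Iff.rfl
    | c b =>
      have e1 : halfB ψ (GV.g i j k : GV (bnd ψ) ψ.length).name
          (GV.c b : GV (bnd ψ) ψ.length).name = false := by
        simp only [halfB, GV.name, hk]
        simp
      rw [e1]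
      exact iff_of_false (by simp) (fun h => h)
  | c a =>
    cases v with
    | g i' j' k' =>
      have e1 : halfB ψ (GV.c a : GV (bnd ψ) ψ.length).name
          (GV.g i' j' k' : GV (bnd ψ) ψ.length).name =
        (decide (k'.val = 0) && cB ψ[a] a.val i'.val j'.val) := by
        simp only [halfB, GV.name]
        rw [List.getD_eq_getElem _ _ a.2]
        simp
      rw [e1]
      rw [Bool.and_eq_true, cB_iff, decide_eq_true_iff]
      have e2 : (naeOf ψ).half (.c a) (.g i' j' k') ↔
        (k' = 0 ∧ ∃ p, i' = ((naeOf ψ).lit a p).1 ∧ j'.val = (naeOf ψ).slot a p) := Iff.rfl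
      refine Iff.trans ?_ e2.symm
      rw [Fin.ext_iff]
      exact Iff.rfl
    | c b =>
      have e1 : halfB ψ (GV.c a : GV (bnd ψ) ψ.length).name
          (GV.c b : GV (bnd ψ) ψ.length).name = false := by
        simp [halfB, GV.name]
      rw [e1]
      exact iff_of_false (by simp) (fun h => h)

theorem adjB_iff (ψ : List Cl3) (u v : GV (bnd ψ) ψ.length) :
    adjB ψ u.name v.name = true ↔ (naeOf ψ).G.Adj u v := by
  unfold adjB
  rw [Bool.or_eq_true, halfB_iff, halfB_iff]
  rfl

/-! ### The list of all vertices -/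

/-- All vertices. -/
def allG (N M : ℕ) : List (GV N M) :=
  ((List.finRange N).flatMap fun i => (List.finRange (6 * M)).flatMap fun j =>
    (List.finRange 12).map fun k => .g i j k) ++ (List.finRange M).map .c

/-- The names of all vertices. -/
def allN (N M : ℕ) : List Nm :=
  ((List.range N).flatMap fun i => (List.range (6 * M)).flatMap fun j =>
    (List.range 12).map fun k => (i, j, k)) ++ (List.range M).map fun a => (a, 0, 12)

theorem allG_name (N M : ℕ) : (allG N M).map GV.name = allN N M := by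
  unfold allG allN
  rw [List.map_append]
  congr 1
  · rw [List.map_flatMap, ← List.map_coe_finRange_eq_range (n := N), List.flatMap_map]
    refine congrArg (List.flatMap · (List.finRange N)) (funext fun i => ?_)
    rw [List.map_flatMap, ← List.map_coe_finRange_eq_range (n := 6 * M), List.flatMap_map]
    refine congrArg (List.flatMap · (List.finRange (6 * M))) (funext fun j => ?_)
    rw [List.map_map, ← List.map_coe_finRange_eq_range (n := 12), List.map_map]
    rfl
  · rw [List.map_map, ← List.map_coe_finRange_eq_range (n := M), List.map_map]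
    rfl

theorem mem_allG (N M : ℕ) (v : GV N M) : v ∈ allG N M := by
  unfold allG
  rw [List.mem_append]
  cases v with
  | g i j k =>
    left
    rw [List.mem_flatMap]
    refine ⟨i, List.mem_finRange _, ?_⟩
    rw [List.mem_flatMap]
    exact ⟨j, List.mem_finRange _, List.mem_map.2 ⟨k, List.mem_finRange _, rfl⟩⟩
  | c a =>
    right
    exact List.mem_map.2 ⟨a, List.mem_finRange _, rfl⟩

theorem nodup_allG (N M : ℕ) : (allG N M).Nodup := by
  unfold allG
  rw [List.nodup_append]
  refine ⟨?_, ?_, ?_⟩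
  · rw [List.nodup_flatMap]
    refine ⟨fun i _ => ?_, ?_⟩
    · rw [List.nodup_flatMap]
      refine ⟨fun j _ => ?_, ?_⟩
      · refine (List.nodup_finRange 12).map ?_
        intro k k' h
        injection h
      · refine (List.nodup_finRange _).imp ?_
        intro j j' hne x hx hx'
        obtain ⟨k, _, rfl⟩ := List.mem_map.1 hx
        obtain ⟨k', _, h⟩ := List.mem_map.1 hx'
        injection h with h1 h2 h3
        exact hne h2.symm
    · refine (List.nodup_finRange _).imp ?_
      intro i i' hne x hx hx'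
      obtain ⟨j, _, hj⟩ := List.mem_flatMap.1 hx
      obtain ⟨k, _, rfl⟩ := List.mem_map.1 hj
      obtain ⟨j', _, hj'⟩ := List.mem_flatMap.1 hx'
      obtain ⟨k', _, h⟩ := List.mem_map.1 hj'
      injection h with h1 h2 h3
      exact hne h1.symm
  · refine (List.nodup_finRange _).map ?_
    intro a b h
    injection h
  · intro x hx y hy hxy
    subst hxy
    obtain ⟨i, _, hi⟩ := List.mem_flatMap.1 hx
    obtain ⟨j, _, hj⟩ := List.mem_flatMap.1 hi
    obtain ⟨k, _, rfl⟩ := List.mem_map.1 hj
    obtain ⟨a, _, h⟩ := List.mem_map.1 hy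
    injection h

end Pool.Agent.Shoped30
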